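import Pool.Agent.D0H64.BT.Pb

set_option autoImplicit false
set_option maxHeartbeats 4000000

/-! The exceptional discriminants near a given one. -/

namespace Pool.Agent.D0H64.BT

open Finset Filter

theorem part2 (k : ℕ) (hk : 1 ≤ k) (A δ : ℝ) (hδ : 0 < δ) : ∃ C c D₀ : ℝ, 0 < C ∧ 0 < c ∧ ∀ d : ℤ, Fund d → D₀ ≤ |(d : ℝ)| →
    ∀ Q : Set ℕ, Real.log |(d : ℝ)| ^ (-c) * tot Set.univ (thr d) ≤ tot Q (thr d) →
    ∀ B : Finset ℤ, (∀ e ∈ B, Fund e ∧ Near (Real.log |(d : ℝ)| ^ A) d e ∧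
      Real.log |(d : ℝ)| ^ (-c) * tot Q (thr e) ≤ |2 * (spl Q e (thr e) : ℝ) - tot Q (thr e)|) →
    (∀ e ∈ B, ∀ f ∈ B, e ≠ f → Near (Real.log |(d : ℝ)| ^ (8 * k - δ)) e f) →
    ∑ e ∈ B, ((2 * (spl Q e (thr e) : ℝ) - tot Q (thr e)) / tot Q (thr e)) ^ (2 * k) ≤
      C * Real.log (Real.log |(d : ℝ)|) ^ (k - 1) * (tot Set.univ (thr d) / tot Q (thr d)) ^ k := by
  classical
  wlog hδ1 : δ ≤ 1 generalizing δ
  · obtain ⟨C, c, D₀, hC, hc, h⟩ := this 1 one_pos le_rfl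
    refine ⟨C, c, max D₀ 3, hC, hc, fun d hd hdD Q hQ B hB hp => ?_⟩
    refine h d hd ((le_max_left _ _).trans hdD) Q hQ B hB (fun e he f hf hne => ?_)
    obtain ⟨n, hn0, hn, hsq⟩ := hp e he f hf hne
    refine ⟨n, hn0, hn.trans ?_, hsq⟩
    apply Real.rpow_le_rpow_of_exponent_le _ (by linarith)
    have h3 : (3 : ℝ) ≤ |(d : ℝ)| := (le_max_right _ _).trans hdD
    rw [Real.le_log_iff_exp_le (by linarith)]
    have := Real.exp_one_lt_d9
    linarith
  wlog hA : 0 ≤ A generalizing A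
  · obtain ⟨C, c, D₀, hC, hc, h⟩ := this 0 le_rfl
    refine ⟨C, c, max D₀ 3, hC, hc, fun d hd hdD Q hQ B hB hp => ?_⟩
    refine h d hd ((le_max_left _ _).trans hdD) Q hQ B (fun e he => ?_) hp
    obtain ⟨h1, ⟨n, hn0, hn, hsq⟩, h2⟩ := hB e he
    refine ⟨h1, ⟨n, hn0, hn.trans ?_, hsq⟩, h2⟩
    apply Real.rpow_le_rpow_of_exponent_le _ (by linarith)
    have h3 : (3 : ℝ) ≤ |(d : ℝ)| := (le_max_right _ _).trans hdD
    rw [Real.le_log_iff_exp_le (by linarith)]
    have := Real.exp_one_lt_d9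
    linarith
  have hk1 : (1 : ℝ) ≤ k := by exact_mod_cast hk
  obtain ⟨C₁, c, hC₁, hc, hc4, t₁, hmid⟩ := mid k hk (δ / 2) (by positivity)
  obtain ⟨t₂, ht₂⟩ := tot_ge
  obtain ⟨L₁, hL₁⟩ := thr_close A
  -- eventual inequalities
  have f1 : ∀ᶠ x : ℝ in atTop, 4 * Real.log x ≤ x ^ (c / 2) := by
    have h1 := (isLittleO_log_rpow_atTop (show (0 : ℝ) < c / 2 by positivity)).def (show (0 : ℝ) < 1 / 4 by norm_num)
    filter_upwards [h1, eventually_ge_atTop 1] with x hx hx1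
    have h3 : 0 ≤ Real.log x := Real.log_nonneg hx1
    rw [Real.norm_eq_abs, Real.norm_eq_abs, abs_of_nonneg h3, abs_of_nonneg (by positivity)] at hx
    linarith
  obtain ⟨t₃, ht₃⟩ := eventually_atTop.mp f1
  have f2 : ∀ᶠ x : ℝ in atTop, 4 * x ^ (5 / 4 : ℝ) + 8 * x + 6 ≤ x ^ (3 / 2 : ℝ) := by
    have h1 : ∀ᶠ x : ℝ in atTop, 18 ≤ x ^ (1 / 4 : ℝ) :=
      (tendsto_rpow_atTop (by norm_num : (0 : ℝ) < 1 / 4)).eventually_ge_atTop _
    filter_upwards [h1, eventually_ge_atTop 1] with x hx hx1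
    have h3 : x ≤ x ^ (5 / 4 : ℝ) := by
      nth_rewrite 1 [← Real.rpow_one x]
      apply Real.rpow_le_rpow_of_exponent_le hx1 (by norm_num)
    have h4 : x ^ (3 / 2 : ℝ) = x ^ (5 / 4 : ℝ) * x ^ (1 / 4 : ℝ) := by
      rw [← Real.rpow_add (by linarith)]
      norm_num
    rw [h4]
    nlinarith
  have f3 : ∀ᶠ x : ℝ in atTop, 2 ≤ Real.log x := Real.tendsto_log_atTop.eventually (eventually_ge_atTop 2)
  obtain ⟨L₂, hL₂⟩ := eventually_atTop.mp (f2.and (f3.and (eventually_ge_atTop (max 4 (max L₁ (max t₁ (max t₂ t₃)))))))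
  refine ⟨C₁ * 16 ^ k * 4 ^ k * 4 ^ k, c / 3, max (Real.exp L₂) 3, by positivity, by positivity, fun d hd hdD Q hQ B hB hp => ?_⟩
  set L : ℝ := Real.log |(d : ℝ)| with hL
  have hd3 : (3 : ℝ) ≤ |(d : ℝ)| := (le_max_right _ _).trans hdD
  have hdp : 0 < |(d : ℝ)| := by linarith
  have hLL : L₂ ≤ L := by
    rw [hL, Real.le_log_iff_exp_le hdp]
    exact (le_max_left _ _).trans hdD
  obtain ⟨g1, g2, g3⟩ := hL₂ L hLL
  have hL4 : 4 ≤ L := (le_max_left _ _).trans g3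
  have g4 := (le_max_right _ _).trans g3
  have hLL₁ : L₁ ≤ L := (le_max_left _ _).trans g4
  have g5 := (le_max_right _ _).trans g4
  have hLt₁ : t₁ ≤ L := (le_max_left _ _).trans g5
  have g6 := (le_max_right _ _).trans g5
  have hLt₂ : t₂ ≤ L := (le_max_left _ _).trans g6
  have hLt₃ : t₃ ≤ L := (le_max_right _ _).trans g6
  have hL0 : 0 < L := by linarith
  set t : ℝ := thr d with ht
  have htL : t = L ^ 2 * Real.log L ^ 2 := rfl
  have hl4 : 4 ≤ Real.log L ^ 2 := by nlinarith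
  have htL2 : L ^ 2 ≤ t := by
    rw [htL]
    nlinarith [sq_nonneg L]
  have hLt : L ≤ t := by nlinarith
  have ht0 : 0 < t := by linarith
  have ht1 : 1 ≤ t := by linarith
  have hlt : 0 < Real.log t := Real.log_pos (by linarith)
  have hlL : 0 < Real.log L := by linarith
  set U : ℝ := (tot Set.univ t : ℝ) with hU
  set T : ℝ := (tot Q t : ℝ) with hT
  set lam : ℝ := L ^ (-(c / 3)) with hlam
  have hlam0 : 0 < lam := by positivity
  have hlam1 : lam ≤ 1 := Real.rpow_le_one_of_one_le_of_nonpos (by linarith) (by linarith)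
  have hU1 : t / (4 * Real.log t) ≤ U := ht₂ t (hLt₂.trans hLt)
  have hU0 : 0 < U := lt_of_lt_of_le (by positivity) hU1
  have hT0 : 0 < T := lt_of_lt_of_le (by positivity) hQ
  -- the main condition
  have hcond : t ^ (1 - c) ≤ lam ^ 2 * T := by
    have h1 : t ^ (-(c / 2)) ≤ L ^ (-c) := by
      have h2 : L ^ (-c) = (L ^ 2) ^ (-(c / 2)) := by
        rw [← Real.rpow_natCast, ← Real.rpow_mul hL0.le]
        congr 1
        push_cast
        ring
      rw [h2]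
      apply Real.rpow_le_rpow_of_nonpos (by positivity) htL2
      linarith
    have h3 := ht₃ t (hLt₃.trans hLt)
    calc t ^ (1 - c) = t ^ (-(c / 2)) * (t / t ^ (c / 2)) := by
          have : t / t ^ (c / 2) = t ^ (1 - c / 2) := by
            rw [Real.rpow_sub ht0, Real.rpow_one]
          rw [this, ← Real.rpow_add ht0]
          congr 1
          ring
      _ ≤ t ^ (-(c / 2)) * (t / (4 * Real.log t)) := by
          apply mul_le_mul_of_nonneg_left _ (by positivity)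
          apply div_le_div_of_nonneg_left ht0.le (by positivity) h3
      _ ≤ L ^ (-c) * U := mul_le_mul h1 hU1 (by positivity) (by positivity)
      _ = lam ^ 2 * (lam * U) := by
          have : lam ^ 3 = L ^ (-c) := by
            rw [hlam, ← Real.rpow_natCast, ← Real.rpow_mul hL0.le]
            congr 1
            push_cast
            ring
          rw [← this]
          ring
      _ ≤ lam ^ 2 * T := mul_le_mul_of_nonneg_left hQ (by positivity)
  have hlT : 4 * L ^ (5 / 4 : ℝ) + 8 * L + 6 ≤ lam * T := by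
    refine g1.trans ?_
    have h1 : lam ^ 2 * T ≤ lam * T := by
      apply mul_le_mul_of_nonneg_right _ hT0.le
      nlinarith
    refine le_trans ?_ (hcond.trans h1)
    calc L ^ (3 / 2 : ℝ) = (L ^ 2) ^ (3 / 4 : ℝ) := by
          rw [← Real.rpow_natCast, ← Real.rpow_mul hL0.le]
          norm_num
      _ ≤ t ^ (3 / 4 : ℝ) := Real.rpow_le_rpow (by positivity) htL2 (by norm_num)
      _ ≤ t ^ (1 - c) := by
          apply Real.rpow_le_rpow_of_exponent_le ht1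
          linarith
  have hlTT : lam * T ≤ T := by nlinarith
  obtain ⟨sf, hinj, hsf, hSp⟩ := sf_fun B (fun d hd => (hB d hd).1) _ hp
  have hkey : ∀ e ∈ B, lam * T / 2 ≤ |((∑ p ∈ PO Q t, jacobiSym (sf e) p : ℤ) : ℝ)| ∧
      |2 * (spl Q e (thr e) : ℝ) - tot Q (thr e)| ≤ 2 * |((∑ p ∈ PO Q t, jacobiSym (sf e) p : ℤ) : ℝ)| ∧
      T / 2 ≤ tot Q (thr e) := by
    intro e he
    obtain ⟨h1, j, hj, hes⟩ := hsf e he
    obtain ⟨heF, heN, heb⟩ := hB e he
    have he0 : e ≠ 0 := fund_ne heF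
    have hep : 0 < |(e : ℝ)| := by
      rw [abs_pos]
      exact_mod_cast he0
    set M : ℝ := Real.log |(e : ℝ)| with hM
    have hLA : 0 < L ^ A := by positivity
    have n1 := near_le hd heF heN
    have n2 := near_le heF hd (near_symm heN)
    have hl44 : Real.log 4 ≤ 2 := by
      rw [Real.log_le_iff_le_exp (by norm_num)]
      have h5 : Real.exp 2 = Real.exp 1 * Real.exp 1 := by
        rw [← Real.exp_add]
        norm_num
      have := Real.exp_one_gt_d9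
      nlinarith
    have m1 : M ≤ 2 + A * Real.log L + L := by
      have := Real.log_le_log hep n1
      rw [Real.log_mul (by positivity) hdp.ne', Real.log_mul (by norm_num) hLA.ne', Real.log_rpow hL0] at this
      linarith
    have m2 : L ≤ 2 + A * Real.log L + M := by
      have := Real.log_le_log hdp n2
      rw [Real.log_mul (by positivity) hep.ne', Real.log_mul (by norm_num) hLA.ne', Real.log_rpow hL0] at this
      linarith
    have hML : |M - L| ≤ 2 + A * Real.log L := by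
      rw [abs_le]
      constructor <;> linarith
    obtain ⟨q1, q2, q3⟩ := hL₁ L hLL₁ M hML
    have hthr : |thr e - t| ≤ L ^ (5 / 4 : ℝ) := q1
    have hte0 : 0 ≤ thr e := by
      unfold thr
      positivity
    have r1 := two_spl Q e he0 (thr e)
    have r2 := spl_sub_ine Q e (sf e) j (fund_mod heF) hj hes (thr e)
    have r3 := between Q (fun p => jacobiSym (sf e) p) (fun p => by
      show |((jacobiSym (sf e) p : ℤ) : ℝ)| ≤ 1
      rcases jacobiSym.trichotomy (sf e) p with h | h | h <;> rw [h] <;> norm_num) (thr e) t hte0 ht0.le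
    have r4 := tot_between Q (thr e) t hte0 ht0.le
    have r5 : |((∑ p ∈ PO Q (thr e), jacobiSym (sf e) p : ℤ) : ℝ)| ≤ |((∑ p ∈ PO Q t, jacobiSym (sf e) p : ℤ) : ℝ)| + (L ^ (5 / 4 : ℝ) + 1) := by
      have := abs_sub_abs_le_abs_sub ((∑ p ∈ PO Q (thr e), jacobiSym (sf e) p : ℤ) : ℝ) ((∑ p ∈ PO Q t, jacobiSym (sf e) p : ℤ) : ℝ)
      linarith
    have r6 : T - (L ^ (5 / 4 : ℝ) + 1) ≤ tot Q (thr e) := by
      have := (abs_le.mp (r4.trans (add_le_add hthr le_rfl))).1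
      linarith
    have hL54 : 0 ≤ L ^ (5 / 4 : ℝ) := by positivity
    have r7 : lam * (T - (L ^ (5 / 4 : ℝ) + 1)) ≤ lam * tot Q (thr e) := mul_le_mul_of_nonneg_left r6 hlam0.le
    have r8 : lam * (L ^ (5 / 4 : ℝ) + 1) ≤ L ^ (5 / 4 : ℝ) + 1 := by nlinarith
    have r9 : lam * (T - (L ^ (5 / 4 : ℝ) + 1)) = lam * T - lam * (L ^ (5 / 4 : ℝ) + 1) := by ring
    have s1 : lam * T / 2 ≤ |((∑ p ∈ PO Q t, jacobiSym (sf e) p : ℤ) : ℝ)| := by linarith
    refine ⟨s1, by linarith, by linarith⟩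
  have hmain := hmid t (hLt₁.trans hLt) Q lam hlam0 hcond (B.image sf) (by
    intro s hs
    obtain ⟨e, he, rfl⟩ := mem_image.mp hs
    exact ⟨(hsf e he).1, (hkey e he).1⟩) (by
    intro s hs s' hs' hne
    obtain ⟨n, hn0, hnle, hsq⟩ := hSp s hs s' hs' hne
    refine ⟨n, hn0, hnle.trans ?_, hsq⟩
    calc L ^ (8 * (k : ℝ) - δ) = (L ^ 2) ^ (4 * (k : ℝ) - δ / 2) := by
          rw [← Real.rpow_natCast, ← Real.rpow_mul hL0.le]
          congr 1
          push_cast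
          ring
      _ ≤ t ^ (4 * (k : ℝ) - δ / 2) := by
          apply Real.rpow_le_rpow (by positivity) htL2
          linarith)
  rw [sum_image hinj] at hmain
  have hev : ∀ x : ℝ, x ^ (2 * k) = |x| ^ (2 * k) := fun x => ((even_two_mul k).pow_abs x).symm
  have hT2 : (0 : ℝ) < T ^ (2 * k) := by positivity
  have hsum : ∑ e ∈ B, ((2 * (spl Q e (thr e) : ℝ) - tot Q (thr e)) / tot Q (thr e)) ^ (2 * k) ≤
      16 ^ k * (C₁ * (t / T) ^ k / Real.log t) := by
    calc ∑ e ∈ B, ((2 * (spl Q e (thr e) : ℝ) - tot Q (thr e)) / tot Q (thr e)) ^ (2 * k) ≤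
          ∑ e ∈ B, 16 ^ k * ((∑ p ∈ PO Q t, jacobiSym (sf e) p : ℤ) : ℝ) ^ (2 * k) / T ^ (2 * k) := by
          refine sum_le_sum fun e he => ?_
          obtain ⟨k1, k2, k3⟩ := hkey e he
          rw [hev, hev ((∑ p ∈ PO Q t, jacobiSym (sf e) p : ℤ) : ℝ), abs_div]
          have hTe : (0 : ℝ) < tot Q (thr e) := by linarith
          have h4 : |2 * (spl Q e (thr e) : ℝ) - tot Q (thr e)| / |(tot Q (thr e) : ℝ)| ≤
              4 * |((∑ p ∈ PO Q t, jacobiSym (sf e) p : ℤ) : ℝ)| / T := by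
            rw [abs_of_pos hTe, div_le_div_iff₀ hTe hT0]
            have h5 := abs_nonneg ((∑ p ∈ PO Q t, jacobiSym (sf e) p : ℤ) : ℝ)
            nlinarith
          calc (|2 * (spl Q e (thr e) : ℝ) - tot Q (thr e)| / |(tot Q (thr e) : ℝ)|) ^ (2 * k) ≤
                (4 * |((∑ p ∈ PO Q t, jacobiSym (sf e) p : ℤ) : ℝ)| / T) ^ (2 * k) :=
                pow_le_pow_left₀ (by positivity) h4 _
            _ = _ := by
                rw [div_pow, mul_pow, pow_mul 4 2 k]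
                norm_num
      _ = 16 ^ k * (∑ e ∈ B, ((∑ p ∈ PO Q t, jacobiSym (sf e) p : ℤ) : ℝ) ^ (2 * k)) / T ^ (2 * k) := by
          rw [mul_sum, sum_div]
      _ ≤ 16 ^ k * (C₁ * (t * T) ^ k / Real.log t) / T ^ (2 * k) := by
          apply div_le_div_of_nonneg_right _ hT2.le
          exact mul_le_mul_of_nonneg_left hmain (by positivity)
      _ = _ := by
          rw [mul_pow t T, div_pow, two_mul, pow_add]
          field_simp
  refine hsum.trans ?_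
  have hlt4 : Real.log t ≤ 4 * Real.log L := by
    rw [htL, Real.log_mul (by positivity) (by positivity), Real.log_pow, Real.log_pow]
    have : Real.log (Real.log L) ≤ Real.log L := Real.log_le_self hlL.le
    push_cast
    linarith
  have h1 : t / T ≤ 4 * Real.log t * (U / T) := by
    rw [← mul_div_assoc]
    apply div_le_div_of_nonneg_right _ hT0.le
    rw [div_le_iff₀ (by positivity)] at hU1
    linarith
  obtain ⟨k', rfl⟩ : ∃ k', k = k' + 1 := ⟨k - 1, by omega⟩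
  have hX0 : 0 ≤ U / T := by positivity
  rw [Nat.add_sub_cancel]
  calc 16 ^ (k' + 1) * (C₁ * (t / T) ^ (k' + 1) / Real.log t) ≤
        16 ^ (k' + 1) * (C₁ * (4 * Real.log t * (U / T)) ^ (k' + 1) / Real.log t) := by
        apply mul_le_mul_of_nonneg_left _ (by positivity)
        apply div_le_div_of_nonneg_right _ hlt.le
        apply mul_le_mul_of_nonneg_left _ hC₁.le
        exact pow_le_pow_left₀ (by positivity) h1 _
    _ = C₁ * 16 ^ (k' + 1) * 4 ^ (k' + 1) * Real.log t ^ k' * (U / T) ^ (k' + 1) := by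
        rw [mul_pow, mul_pow, pow_succ (Real.log t)]
        field_simp
    _ ≤ C₁ * 16 ^ (k' + 1) * 4 ^ (k' + 1) * (4 ^ (k' + 1) * Real.log L ^ k') * (U / T) ^ (k' + 1) := by
        apply mul_le_mul_of_nonneg_right _ (by positivity)
        apply mul_le_mul_of_nonneg_left _ (by positivity)
        calc Real.log t ^ k' ≤ (4 * Real.log L) ^ k' := pow_le_pow_left₀ hlt.le hlt4 _
          _ ≤ 4 ^ (k' + 1) * Real.log L ^ k' := by
              rw [mul_pow, pow_succ]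
              have : 0 ≤ (4 : ℝ) ^ k' * Real.log L ^ k' := by positivity
              linarith
    _ = _ := by ring

/-- the exceptional discriminants in a ball -/
theorem ball (k : ℕ) (hk : 1 ≤ k) (δ : ℝ) (hδ : 0 < δ) : ∃ C c D₀ : ℝ, 0 < C ∧ 0 < c ∧ ∀ d : ℤ, Fund d → D₀ ≤ |(d : ℝ)| →
    ∀ Q : Set ℕ, Real.log |(d : ℝ)| ^ (-c) * tot Set.univ (thr d) ≤ tot Q (thr d) →
    ∀ B : Finset ℤ, (∀ e ∈ B, Fund e ∧ Near (Real.log |(d : ℝ)| ^ (4 * k - δ)) d e ∧
      Real.log |(d : ℝ)| ^ (-c) * tot Q (thr e) ≤ |2 * (spl Q e (thr e) : ℝ) - tot Q (thr e)|) →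
    ∑ e ∈ B, ((2 * (spl Q e (thr e) : ℝ) - tot Q (thr e)) / tot Q (thr e)) ^ (2 * k) ≤
      C * Real.log (Real.log |(d : ℝ)|) ^ (k - 1) * (tot Set.univ (thr d) / tot Q (thr d)) ^ k := by
  obtain ⟨C, c, D₀, hC, hc, h⟩ := part2 k hk (4 * k - δ) δ hδ
  refine ⟨C, c, max D₀ 3, hC, hc, fun d hd hdD Q hQ B hB => ?_⟩
  refine h d hd ((le_max_left _ _).trans hdD) Q hQ B hB (fun e he f hf _ => ?_)
  obtain ⟨n, hn0, hn, a, ha⟩ := (hB e he).2.1
  obtain ⟨n', hn0', hn', b, hb⟩ := (hB f hf).2.1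
  have h3 : (3 : ℝ) ≤ |(d : ℝ)| := (le_max_right _ _).trans hdD
  have hL1 : 1 ≤ Real.log |(d : ℝ)| := by
    rw [Real.le_log_iff_exp_le (by linarith)]
    have := Real.exp_one_lt_d9
    linarith
  refine ⟨n * n', mul_ne_zero hn0 hn0', ?_, ?_⟩
  · push_cast
    rw [abs_mul]
    calc |(n : ℝ)| * |(n' : ℝ)| ≤ Real.log |(d : ℝ)| ^ (4 * (k : ℝ) - δ) * Real.log |(d : ℝ)| ^ (4 * (k : ℝ) - δ) :=
          mul_le_mul hn hn' (abs_nonneg _) (by positivity)
      _ = Real.log |(d : ℝ)| ^ (8 * (k : ℝ) - 2 * δ) := by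
          rw [← Real.rpow_add (by linarith)]
          congr 1
          ring
      _ ≤ _ := by
          apply Real.rpow_le_rpow_of_exponent_le hL1
          linarith
  · apply sq_cancel (fund_ne hd)
    refine ⟨a * b, ?_⟩
    calc d ^ 2 * (e * f * (n * n')) = (d * e * n) * (d * f * n') := by ring
      _ = _ := by rw [ha, hb]; ring

/-- the imaginary quadratic fields -/
def NegFund (d : ℤ) : Prop := d < 0 ∧ ((d % 4 = 1 ∧ Squarefree d) ∨
  ∃ m : ℤ, d = 4 * m ∧ (m % 4 = 2 ∨ m % 4 = 3) ∧ Squarefree m)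

lemma exists_disc (d : ℤ) (hd : NegFund d) (m : ℕ) (hm : Squarefree m) : ∃ e : ℤ, NegFund e ∧ IsSquare (d * e * m) := by
  obtain ⟨s, j, hs, hj, hds, _⟩ := fund_sf hd.2
  have hj2 : 0 < j ^ 2 := by rcases hj with h | h <;> rw [h] <;> norm_num
  have hs0 : s < 0 := by
    have := hd.1
    rw [hds] at this
    by_contra hcon
    push Not at hcon
    nlinarith
  have hm0 : (0 : ℤ) < m := by exact_mod_cast Nat.pos_of_ne_zero hm.ne_zero
  have hmz : Squarefree (m : ℤ) := Int.squarefree_natCast.mpr hm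
  obtain ⟨g, r, hg0, _, hmm, hr, _⟩ := sf_pair hs hmz (by omega)
  have hgz : (0 : ℤ) < g := by exact_mod_cast Nat.pos_of_ne_zero hg0
  have hr0 : r < 0 := by
    by_contra hcon
    push Not at hcon
    have h1 : 0 ≤ (g : ℤ) ^ 2 * r := by positivity
    rw [← hmm] at h1
    nlinarith
  have h4 : r % 4 ≠ 0 := by
    intro h
    have h2 : (2 : ℤ) * 2 ∣ r := by omega
    have := hr 2 h2
    rw [Int.isUnit_iff] at this
    omega
  by_cases h1 : r % 4 = 1
  · refine ⟨r, ⟨hr0, Or.inl ⟨h1, hr⟩⟩, j * g * r, ?_⟩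
    rw [hds]
    calc j ^ 2 * s * r * m = j ^ 2 * r * (s * m) := by ring
      _ = _ := by rw [hmm]; ring
  · refine ⟨4 * r, ⟨by omega, Or.inr ⟨r, rfl, by omega, hr⟩⟩, 2 * j * g * r, ?_⟩
    rw [hds]
    calc j ^ 2 * s * (4 * r) * m = 4 * j ^ 2 * r * (s * m) := by ring
      _ = _ := by rw [hmm]; ring

lemma nat_sf_eq {m m' : ℕ} (hm : Squarefree m) (hm' : Squarefree m') {d e : ℤ} (hd : d ≠ 0) (he : e ≠ 0)
    (h : IsSquare (d * e * m)) (h' : IsSquare (d * e * m')) : m = m' := by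
  obtain ⟨a, ha⟩ := h
  obtain ⟨b, hb⟩ := h'
  have h1 : IsSquare ((m : ℤ) * m') := by
    apply sq_cancel (mul_ne_zero hd he)
    refine ⟨a * b, ?_⟩
    calc (d * e) ^ 2 * ((m : ℤ) * m') = (d * e * m) * (d * e * m') := by ring
      _ = _ := by rw [ha, hb]; ring
  have h2 := sf_eq (Int.squarefree_natCast.mpr hm) (Int.squarefree_natCast.mpr hm') h1
  exact_mod_cast h2

/-- the exceptional twists -/
theorem twist (k : ℕ) (hk : 1 ≤ k) (δ : ℝ) (hδ : 0 < δ) : ∃ C c D₀ : ℝ, 0 < C ∧ 0 < c ∧ ∀ d : ℤ, NegFund d → D₀ ≤ |(d : ℝ)| →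
    ∀ (Q : Set ℕ) (η : ℝ), Real.log |(d : ℝ)| ^ (-c) ≤ η →
      Real.log |(d : ℝ)| ^ (-c) * tot Set.univ (thr d) ≤ tot Q (thr d) →
    ∀ M : Finset ℕ, (∀ m ∈ M, Squarefree m ∧ (m : ℝ) ≤ Real.log |(d : ℝ)| ^ (4 * k - δ) ∧
      ¬ ∃ e : ℤ, NegFund e ∧ IsSquare (d * e * m) ∧ |2 * (spl Q e (thr e) : ℝ) - tot Q (thr e)| ≤ η * tot Q (thr e)) →
    (M.card : ℝ) ≤ C * Real.log (Real.log |(d : ℝ)|) ^ (k - 1) * (tot Set.univ (thr d) / (η ^ 2 * tot Q (thr d))) ^ k := by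
  classical
  obtain ⟨C, c, D₀, hC, hc, h⟩ := ball k hk δ hδ
  refine ⟨C, c, max D₀ 3, hC, hc, fun d hd hdD Q η hη hQ M hM => ?_⟩
  have hd3 : (3 : ℝ) ≤ |(d : ℝ)| := (le_max_right _ _).trans hdD
  have hL1 : 1 ≤ Real.log |(d : ℝ)| := by
    rw [Real.le_log_iff_exp_le (by linarith)]
    have := Real.exp_one_lt_d9
    linarith
  have hη0 : 0 < η := lt_of_lt_of_le (by positivity) hη
  have hex : ∀ m : ℕ, ∃ e : ℤ, m ∈ M → NegFund e ∧ IsSquare (d * e * m) := by
    intro m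
    by_cases hm : m ∈ M
    · obtain ⟨e, he⟩ := exists_disc d hd m (hM m hm).1
      exact ⟨e, fun _ => he⟩
    · exact ⟨0, fun h' => absurd h' hm⟩
  choose ef hef using hex
  have hinj : Set.InjOn ef (M : Set ℕ) := by
    intro m hm m' hm' hmm
    have hmm' : ef m = ef m' := hmm
    obtain ⟨h1, h2⟩ := hef m hm
    obtain ⟨h1', h2'⟩ := hef m' hm'
    rw [← hmm'] at h2'
    exact nat_sf_eq (hM m hm).1 (hM m' hm').1 (fund_ne hd.2) (fund_ne h1.2) h2 h2'
  have hbad : ∀ m ∈ M, η * tot Q (thr (ef m)) < |2 * (spl Q (ef m) (thr (ef m)) : ℝ) - tot Q (thr (ef m))| := by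
    intro m hm
    obtain ⟨h1, h2⟩ := hef m hm
    by_contra hcon
    push Not at hcon
    exact (hM m hm).2.2 ⟨ef m, h1, h2, hcon⟩
  have hc1 := h d hd.2 ((le_max_left _ _).trans hdD) Q hQ (M.image ef) (by
    intro e he
    obtain ⟨m, hm, rfl⟩ := mem_image.mp he
    obtain ⟨h1, h2⟩ := hef m hm
    obtain ⟨h3, h4, h5⟩ := hM m hm
    refine ⟨h1.2, ⟨m, by exact_mod_cast h3.ne_zero, ?_, h2⟩, ?_⟩
    · push_cast
      rw [abs_of_nonneg (Nat.cast_nonneg _)]
      exact h4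
    · refine le_trans ?_ (hbad m hm).le
      exact mul_le_mul_of_nonneg_right hη (Nat.cast_nonneg _))
  rw [sum_image hinj] at hc1
  have hlow : (M.card : ℝ) * η ^ (2 * k) ≤ ∑ m ∈ M, ((2 * (spl Q (ef m) (thr (ef m)) : ℝ) - tot Q (thr (ef m))) / tot Q (thr (ef m))) ^ (2 * k) := by
    rw [← nsmul_eq_mul, ← sum_const]
    refine sum_le_sum fun m hm => ?_
    have h1 := hbad m hm
    have h2 := two_le_tot Q (ef m) (thr (ef m))
    have hTe : (0 : ℝ) < tot Q (thr (ef m)) := by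
      have h3 : (0 : ℝ) ≤ tot Q (thr (ef m)) := Nat.cast_nonneg _
      rcases h3.eq_or_lt with h4 | h4
      · rw [← h4] at h1 h2
        rw [mul_zero] at h1
        linarith
      · exact h4
    rw [← (even_two_mul k).pow_abs ((2 * (spl Q (ef m) (thr (ef m)) : ℝ) - tot Q (thr (ef m))) / tot Q (thr (ef m))), abs_div,
      abs_of_pos hTe]
    apply pow_le_pow_left₀ hη0.le
    rw [le_div_iff₀ hTe]
    exact h1.le
  have hηk : 0 < η ^ (2 * k) := by positivity
  have hfin : (M.card : ℝ) ≤ (C * Real.log (Real.log |(d : ℝ)|) ^ (k - 1) * (tot Set.univ (thr d) / tot Q (thr d)) ^ k) / η ^ (2 * k) := by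
    rw [le_div_iff₀ hηk]
    exact hlow.trans hc1
  refine hfin.trans (le_of_eq ?_)
  rw [div_pow, div_pow, mul_pow, ← pow_mul]
  rw [mul_div_assoc, div_div]
  rw [mul_comm ((tot Q (thr d) : ℝ) ^ k)]

end Pool.Agent.D0H64.BT
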