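import Pool.Agent.D0H64.BT.Sw
import Pool.Agent.D0H64.BT.Pc

set_option autoImplicit false
set_option maxHeartbeats 4000000

/-! Bessel's inequality for the fields which are very close to each other. -/

namespace Pool.Agent.D0H64.BT

open Finset Filter

/-- the twists of one element which give all the others -/
lemma tw_fun (S : Finset ℤ) (hS : ∀ s ∈ S, Squarefree s) (R : ℝ) (hR : 1 ≤ R)
    (hpair : ∀ s ∈ S, ∀ s' ∈ S, s ≠ s' → ∃ n : ℤ, n ≠ 0 ∧ |(n : ℝ)| ≤ R ∧ IsSquare (s * s' * n))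
    (s₀ : ℤ) (hs₀ : s₀ ∈ S) :
    ∃ mf af : ℤ → ℤ, Set.InjOn mf (S : Set ℤ) ∧
      (∀ s ∈ S, Squarefree (mf s) ∧ |(mf s : ℝ)| ≤ R ∧ af s ∣ mf s ∧ s₀ * mf s = af s ^ 2 * s) ∧
      ∀ m ∈ S.image mf, ∀ m' ∈ S.image mf, m ≠ m' → ∃ n : ℤ, n ≠ 0 ∧ |(n : ℝ)| ≤ R ∧ IsSquare (m * m' * n) := by
  classical
  have hex : ∀ s : ℤ, ∃ m a : ℤ, s ∈ S → Squarefree m ∧ a ≠ 0 ∧ a ∣ m ∧ s₀ * m = a ^ 2 * s ∧
      ∀ n : ℤ, n ≠ 0 → IsSquare (s₀ * s * n) → |(m : ℝ)| ≤ |(n : ℝ)| := by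
    intro s
    by_cases h : s ∈ S
    · obtain ⟨m, a, h1⟩ := exists_tw (hS s₀ hs₀) (hS s h)
      exact ⟨m, a, fun _ => h1⟩
    · exact ⟨1, 1, fun h' => absurd h' h⟩
  choose mf af hma using hex
  refine ⟨mf, af, ?_, ?_, ?_⟩
  · intro s hs s' hs' h
    obtain ⟨h1, h2, h3, h4, _⟩ := hma s hs
    obtain ⟨h1', h2', h3', h4', _⟩ := hma s' hs'
    apply sf_eq (hS s hs) (hS s' hs')
    apply sq_cancel (a := af s * af s') (mul_ne_zero h2 h2')
    refine ⟨s₀ * mf s, ?_⟩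
    calc (af s * af s') ^ 2 * (s * s') = (af s ^ 2 * s) * (af s' ^ 2 * s') := by ring
      _ = (s₀ * mf s) * (s₀ * mf s') := by rw [h4, h4']
      _ = _ := by
          have h' : mf s = mf s' := h
          rw [← h']
  · intro s hs
    obtain ⟨h1, _, h3, h4, h5⟩ := hma s hs
    refine ⟨h1, ?_, h3, h4⟩
    by_cases hne : s₀ = s
    · have h6 := h5 1 one_ne_zero ⟨s₀, by rw [← hne]; ring⟩
      refine h6.trans ?_
      push_cast
      rw [abs_one]
      exact hR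
    · obtain ⟨n, hn0, hnle, hsq⟩ := hpair s₀ hs₀ s hs hne
      exact (h5 n hn0 hsq).trans hnle
  · intro m hm m' hm' hne
    obtain ⟨s, hs, rfl⟩ := mem_image.mp hm
    obtain ⟨s', hs', rfl⟩ := mem_image.mp hm'
    have hne' : s ≠ s' := fun h => hne (by rw [h])
    obtain ⟨n, hn0, hnle, t, ht⟩ := hpair s hs s' hs' hne'
    obtain ⟨h1, h2, h3, h4, _⟩ := hma s hs
    obtain ⟨h1', h2', h3', h4', _⟩ := hma s' hs'
    refine ⟨n, hn0, hnle, ?_⟩
    apply sq_cancel (a := s₀) (hS s₀ hs₀).ne_zero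
    refine ⟨af s * af s' * t, ?_⟩
    calc s₀ ^ 2 * (mf s * mf s' * n) = (s₀ * mf s) * (s₀ * mf s') * n := by ring
      _ = (af s ^ 2 * s) * (af s' ^ 2 * s') * n := by rw [h4, h4']
      _ = (af s * af s') ^ 2 * (s * s' * n) := by ring
      _ = (af s * af s') ^ 2 * (t * t) := by rw [ht]
      _ = _ := by ring

lemma card_ints (M : Finset ℤ) (R : ℝ) (hR : 1 ≤ R) (h : ∀ m ∈ M, |(m : ℝ)| ≤ R) : (M.card : ℝ) ≤ 3 * R := by
  have h1 : M ⊆ Icc (-(⌊R⌋₊ : ℤ)) (⌊R⌋₊ : ℤ) := by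
    intro m hm
    have h2 := h m hm
    have h3 : |m| ≤ (⌊R⌋₊ : ℤ) := by
      have h4 : ((m.natAbs : ℕ) : ℝ) ≤ R := by
        rw [Nat.cast_natAbs]
        push_cast
        exact h2
      have h5 : m.natAbs ≤ ⌊R⌋₊ := Nat.le_floor h4
      rw [Int.abs_eq_natAbs]
      exact_mod_cast h5
    rw [mem_Icc]
    exact abs_le.mp h3
  have h2 := card_le_card h1
  rw [Int.card_Icc] at h2
  have h3 : ((⌊R⌋₊ : ℤ) + 1 - -(⌊R⌋₊ : ℤ)).toNat = 2 * ⌊R⌋₊ + 1 := by omega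
  rw [h3] at h2
  have h4 : (⌊R⌋₊ : ℝ) ≤ R := Nat.floor_le (by linarith)
  have h5 : (M.card : ℝ) ≤ 2 * ⌊R⌋₊ + 1 := by exact_mod_cast h2
  linarith

/-- duality without a sieve -/
lemma dual0 (Q : Set ℕ) (t : ℝ) (s₀ : ℤ) (M : Finset ℤ) (ρ : ℝ) (hρ : 0 ≤ ρ)
    (hoff : ∀ m ∈ M, ∀ m' ∈ M, m ≠ m' → |((∑ p ∈ PO Set.univ t, jacobiSym (m * m') p : ℤ) : ℝ)| ≤ ρ) :
    ∑ m ∈ M, ((∑ p ∈ PO Q t, jacobiSym (s₀ * m) p : ℤ) : ℝ) ^ 2 ≤
      (tot Q t : ℝ) * (tot Set.univ t + M.card * ρ) := by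
  classical
  set F : ℤ → ℝ := fun m => ((∑ p ∈ PO Q t, jacobiSym (s₀ * m) p : ℤ) : ℝ) with hF
  set X : ℝ := ∑ m ∈ M, F m ^ 2 with hX
  show X ≤ _
  have hX0 : 0 ≤ X := sum_nonneg fun m _ => sq_nonneg _
  rcases hX0.eq_or_lt with hX00 | hXpos
  · rw [← hX00]
    positivity
  set A : ℕ → ℝ := fun n => ∑ m ∈ M, F m * ((jacobiSym m n : ℤ) : ℝ) with hA
  have e1 : X = ∑ p ∈ PO Q t, ((jacobiSym s₀ p : ℤ) : ℝ) * A p := by
    have e2 : ∀ m ∈ M, F m ^ 2 = ∑ p ∈ PO Q t, F m * (((jacobiSym s₀ p : ℤ) : ℝ) * ((jacobiSym m p : ℤ) : ℝ)) := by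
      intro m _
      rw [pow_two]
      nth_rewrite 2 [hF]
      simp only
      rw [Int.cast_sum, mul_sum]
      refine sum_congr rfl fun f _ => ?_
      rw [jacobiSym.mul_left]
      push_cast
      ring
    rw [hX, sum_congr rfl e2, sum_comm]
    refine sum_congr rfl fun f _ => ?_
    rw [hA]
    simp only
    rw [mul_sum]
    refine sum_congr rfl fun m _ => ?_
    ring
  have e3 : X ≤ ∑ p ∈ PO Q t, |A p| := by
    rw [e1]
    refine sum_le_sum fun f _ => ?_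
    have h2 : |((jacobiSym s₀ f : ℤ) : ℝ)| ≤ 1 := by
      rcases jacobiSym.trichotomy s₀ f with h | h | h <;> rw [h] <;> norm_num
    calc ((jacobiSym s₀ f : ℤ) : ℝ) * A f ≤ |((jacobiSym s₀ f : ℤ) : ℝ) * A f| := le_abs_self _
      _ = |((jacobiSym s₀ f : ℤ) : ℝ)| * |A f| := abs_mul _ _
      _ ≤ 1 * |A f| := mul_le_mul_of_nonneg_right h2 (abs_nonneg _)
      _ = _ := one_mul _
  have hsub : PO Q t ⊆ PO Set.univ t := by
    intro p hp
    unfold PO at hp ⊢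
    rw [mem_filter, mem_PT] at hp ⊢
    exact ⟨⟨hp.1.1, Set.mem_univ _, hp.1.2.2⟩, hp.2⟩
  have e4 : X ^ 2 ≤ (tot Q t : ℝ) * ∑ p ∈ PO Set.univ t, A p ^ 2 := by
    calc X ^ 2 ≤ (∑ p ∈ PO Q t, |A p|) ^ 2 := pow_le_pow_left₀ hX0 e3 2
      _ ≤ (PO Q t).card * ∑ p ∈ PO Q t, |A p| ^ 2 := sq_sum_le_card_mul_sum_sq
      _ ≤ (tot Q t : ℝ) * ∑ p ∈ PO Set.univ t, A p ^ 2 := by
          simp only [sq_abs]
          apply mul_le_mul _ _ (sum_nonneg fun p _ => sq_nonneg _) (Nat.cast_nonneg _)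
          · exact_mod_cast card_PO_le Q t
          · exact sum_le_sum_of_subset_of_nonneg hsub fun p _ _ => sq_nonneg _
  have e6 : ∑ p ∈ PO Set.univ t, A p ^ 2 ≤ (tot Set.univ t + M.card * ρ) * X := by
    have h2 : ∑ p ∈ PO Set.univ t, A p ^ 2 = ∑ m ∈ M, ∑ m' ∈ M, F m * F m' *
        ((∑ p ∈ PO Set.univ t, jacobiSym (m * m') p : ℤ) : ℝ) := by
      calc ∑ p ∈ PO Set.univ t, A p ^ 2 = ∑ p ∈ PO Set.univ t, ∑ m ∈ M, ∑ m' ∈ M, F m * F m' * ((jacobiSym (m * m') p : ℤ) : ℝ) := by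
            refine sum_congr rfl fun n _ => ?_
            rw [hA]
            simp only
            rw [pow_two, sum_mul_sum]
            refine sum_congr rfl fun m _ => ?_
            refine sum_congr rfl fun m' _ => ?_
            rw [jacobiSym.mul_left]
            push_cast
            ring
        _ = ∑ m ∈ M, ∑ p ∈ PO Set.univ t, ∑ m' ∈ M, F m * F m' * ((jacobiSym (m * m') p : ℤ) : ℝ) := sum_comm
        _ = _ := by
            refine sum_congr rfl fun m _ => ?_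
            rw [sum_comm]
            refine sum_congr rfl fun m' _ => ?_
            rw [Int.cast_sum, mul_sum]
    rw [h2]
    calc ∑ m ∈ M, ∑ m' ∈ M, F m * F m' * ((∑ p ∈ PO Set.univ t, jacobiSym (m * m') p : ℤ) : ℝ) ≤
          ∑ m ∈ M, ∑ m' ∈ M, ((if m = m' then (tot Set.univ t : ℝ) * F m ^ 2 else 0) + |F m| * |F m'| * ρ) := by
          refine sum_le_sum fun m hm => sum_le_sum fun m' hm' => ?_
          by_cases hmm : m = m'
          · rw [if_pos hmm, ← hmm]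
            have h4 : ((∑ p ∈ PO Set.univ t, jacobiSym (m * m) p : ℤ) : ℝ) ≤ tot Set.univ t := by
              rw [Int.cast_sum]
              calc ∑ p ∈ PO Set.univ t, ((jacobiSym (m * m) p : ℤ) : ℝ) ≤ ∑ _p ∈ PO Set.univ t, (1 : ℝ) := by
                    refine sum_le_sum fun n _ => ?_
                    rcases jacobiSym.trichotomy (m * m) n with h | h | h <;> rw [h] <;> norm_num
                _ = ((PO Set.univ t).card : ℝ) := by simp
                _ ≤ _ := by exact_mod_cast card_PO_le Set.univ t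
            have h5 := mul_le_mul_of_nonneg_left h4 (mul_self_nonneg (F m))
            have h6 : 0 ≤ |F m| * |F m| * ρ := by positivity
            calc _ ≤ F m * F m * (tot Set.univ t : ℝ) := h5
              _ = (tot Set.univ t : ℝ) * F m ^ 2 := by ring
              _ ≤ _ := le_add_of_nonneg_right h6
          · rw [if_neg hmm, zero_add]
            have h3 := hoff m hm m' hm' hmm
            calc _ ≤ |F m * F m' * ((∑ p ∈ PO Set.univ t, jacobiSym (m * m') p : ℤ) : ℝ)| := le_abs_self _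
              _ = |F m| * |F m'| * |((∑ p ∈ PO Set.univ t, jacobiSym (m * m') p : ℤ) : ℝ)| := by
                  rw [abs_mul, abs_mul]
              _ ≤ |F m| * |F m'| * ρ := mul_le_mul_of_nonneg_left h3 (by positivity)
      _ = (tot Set.univ t : ℝ) * X + ρ * (∑ m ∈ M, |F m|) ^ 2 := by
          rw [hX, mul_sum, pow_two, sum_mul_sum, mul_sum, ← sum_add_distrib]
          refine sum_congr rfl fun m hm => ?_
          rw [sum_add_distrib, sum_ite_eq, if_pos hm, mul_sum]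
          congr 1
          refine sum_congr rfl fun m' _ => ?_
          ring
      _ ≤ (tot Set.univ t : ℝ) * X + ρ * (M.card * X) := by
          have h3 : (∑ m ∈ M, |F m|) ^ 2 ≤ M.card * ∑ m ∈ M, |F m| ^ 2 := sq_sum_le_card_mul_sum_sq
          simp only [sq_abs] at h3
          have h4 := mul_le_mul_of_nonneg_left h3 hρ
          linarith
      _ = _ := by ring
  have e7 : X * X ≤ X * ((tot Q t : ℝ) * (tot Set.univ t + M.card * ρ)) := by
    calc X * X = X ^ 2 := (pow_two X).symm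
      _ ≤ (tot Q t : ℝ) * ∑ p ∈ PO Set.univ t, A p ^ 2 := e4
      _ ≤ (tot Q t : ℝ) * ((tot Set.univ t + M.card * ρ) * X) :=
          mul_le_mul_of_nonneg_left e6 (Nat.cast_nonneg _)
      _ = _ := by ring
  exact le_of_mul_le_mul_left e7 hXpos

lemma sq_split (a b ε : ℝ) (hε : 0 < ε) : (a + b) ^ 2 ≤ (1 + ε) * a ^ 2 + (1 + 1 / ε) * b ^ 2 := by
  have h1 : 0 ≤ (ε * a - b) ^ 2 / ε := by positivity
  have h2 : (ε * a - b) ^ 2 / ε = ε * a ^ 2 - 2 * a * b + 1 / ε * b ^ 2 := by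
    field_simp
    ring
  nlinarith

/-- the two sums differ by the number of the primes which divide `a` (other direction) -/
lemma diff_le' (P : Finset ℕ) (hP : ∀ p ∈ P, p.Prime) (s t m a : ℤ) (ha : a ∣ m) (hm : m ≠ 0) (h : t = a ^ 2 * s) :
    |((∑ p ∈ P, jacobiSym t p : ℤ) : ℝ)| ≤ |((∑ p ∈ P, jacobiSym s p : ℤ) : ℝ)| + 2 * Real.log |(m : ℝ)| := by
  have h1 : |((∑ p ∈ P, jacobiSym t p : ℤ) : ℝ) - ((∑ p ∈ P, jacobiSym s p : ℤ) : ℝ)| ≤ 2 * Real.log |(m : ℝ)| := by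
    rw [Int.cast_sum, Int.cast_sum, ← sum_sub_distrib]
    refine (abs_sum_le_sum_abs _ _).trans ?_
    calc ∑ p ∈ P, |((jacobiSym t p : ℤ) : ℝ) - ((jacobiSym s p : ℤ) : ℝ)| ≤ ∑ p ∈ P, (if (p : ℤ) ∣ m then (1 : ℝ) else 0) := by
          refine sum_le_sum fun p hp => ?_
          rw [h, jacobiSym.mul_left, jacobiSym.pow_left]
          split_ifs with hpm
          · have h2 : ((jacobiSym s p : ℤ) : ℝ) = 0 ∨ ((jacobiSym s p : ℤ) : ℝ) = 1 ∨ ((jacobiSym s p : ℤ) : ℝ) = -1 := by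
              rcases jacobiSym.trichotomy s p with h | h | h <;> rw [h] <;> norm_num
            have h3 : ((jacobiSym a p : ℤ) : ℝ) ^ 2 = 0 ∨ ((jacobiSym a p : ℤ) : ℝ) ^ 2 = 1 := by
              rcases jacobiSym.trichotomy a p with h | h | h <;> rw [h] <;> norm_num
            push_cast
            rcases h2 with h2 | h2 | h2 <;> rcases h3 with h3 | h3 <;> rw [h2, h3] <;> norm_num
          · have h3 : jacobiSym a p ^ 2 = 1 := by
              apply jacobiSym.sq_one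
              rw [← Int.isCoprime_iff_gcd_eq_one]
              have h4 : ¬ (p : ℤ) ∣ a := fun h5 => hpm (h5.trans ha)
              exact ((Prime.coprime_iff_not_dvd (Nat.prime_iff_prime_int.mp (hP p hp))).mpr h4).symm
            rw [h3, one_mul]
            simp
      _ = ((P.filter (fun p : ℕ => (p : ℤ) ∣ m)).card : ℝ) := by
          rw [← sum_filter, sum_const, nsmul_eq_mul, mul_one]
      _ ≤ (m.natAbs.primeFactors.card : ℝ) := by
          have h6 : P.filter (fun p : ℕ => (p : ℤ) ∣ m) ⊆ m.natAbs.primeFactors := by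
            intro p hp
            rw [mem_filter] at hp
            refine Nat.mem_primeFactors.mpr ⟨hP p hp.1, ?_, Int.natAbs_ne_zero.mpr hm⟩
            exact Int.natCast_dvd.mp hp.2
          exact_mod_cast card_le_card h6
      _ ≤ 2 * Real.log (m.natAbs : ℝ) := Pool.Agent.Y549.SP.SPL.card_primeFactors_le _ (Int.natAbs_ne_zero.mpr hm)
      _ = _ := by
          rw [Nat.cast_natAbs]
          push_cast
          rfl
  have h2 := abs_sub_abs_le_abs_sub ((∑ p ∈ P, jacobiSym t p : ℤ) : ℝ) ((∑ p ∈ P, jacobiSym s p : ℤ) : ℝ)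
  linarith

/-- Bessel's inequality -/
theorem bes (A : ℕ) (ε : ℝ) (hε : 0 < ε) : ∃ t₀ : ℝ, ∀ t : ℝ, t₀ ≤ t → ∀ (Q : Set ℕ) (S : Finset ℤ),
    (∀ s ∈ S, Squarefree s) →
    (∀ s ∈ S, ∀ s' ∈ S, s ≠ s' → ∃ n : ℤ, n ≠ 0 ∧ |(n : ℝ)| ≤ Real.log t ^ A ∧ IsSquare (s * s' * n)) →
    (S.card : ℝ) ≤ 3 * Real.log t ^ A ∧
    ∑ s ∈ S, ((∑ p ∈ PO Q t, jacobiSym s p : ℤ) : ℝ) ^ 2 ≤ (1 + ε) * tot Set.univ t * tot Q t := by
  classical
  obtain ⟨t₁, ht₁⟩ := sw_sum A (A + 2)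
  obtain ⟨t₂, ht₂⟩ := tot_ge
  set ε₁ : ℝ := min (ε / 4) 1 with hε₁
  have hε₁0 : 0 < ε₁ := lt_min (by positivity) one_pos
  have hε₁1 : ε₁ ≤ ε / 4 := min_le_left _ _
  have hε₁2 : ε₁ ≤ 1 := min_le_right _ _
  -- eventual inequalities
  have f1 : ∀ᶠ x : ℝ in atTop, 48 / ε₁ ≤ Real.log x :=
    Real.tendsto_log_atTop.eventually (eventually_ge_atTop _)
  have f2 : ∀ᶠ x : ℝ in atTop, (1 + 1 / ε₁) * (2 * (A * Real.log x)) ^ 2 * (3 * Real.log x ^ A) ≤ ε₁ * (x / (4 * Real.log x)) := by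
    have h1 := (Real.isLittleO_pow_log_id_atTop (n := A + 3)).def (show (0 : ℝ) < ε₁ / (4 * ((1 + 1 / ε₁) * (2 * A) ^ 2 * 3 + 1)) by positivity)
    filter_upwards [h1, eventually_ge_atTop 3] with x hx hx1
    have h3 : 0 < Real.log x := Real.log_pos (by linarith)
    rw [Real.norm_eq_abs, Real.norm_eq_abs, abs_of_nonneg (by positivity), id, abs_of_nonneg (by linarith)] at hx
    have hK : 0 < (1 + 1 / ε₁) * (2 * A) ^ 2 * 3 + 1 := by positivity
    have h4 : ((1 + 1 / ε₁) * (2 * A) ^ 2 * 3 + 1) * 4 * Real.log x ^ (A + 3) ≤ ε₁ * x := by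
      calc ((1 + 1 / ε₁) * (2 * A) ^ 2 * 3 + 1) * 4 * Real.log x ^ (A + 3) ≤
            ((1 + 1 / ε₁) * (2 * A) ^ 2 * 3 + 1) * 4 * (ε₁ / (4 * ((1 + 1 / ε₁) * (2 * A) ^ 2 * 3 + 1)) * x) :=
            mul_le_mul_of_nonneg_left hx (by positivity)
        _ = ε₁ * x := by field_simp
    have h5 : ε₁ * (x / (4 * Real.log x)) = ε₁ * x / (4 * Real.log x) := by ring
    rw [h5, le_div_iff₀ (by positivity)]
    calc (1 + 1 / ε₁) * (2 * (A * Real.log x)) ^ 2 * (3 * Real.log x ^ A) * (4 * Real.log x) =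
          ((1 + 1 / ε₁) * (2 * A) ^ 2 * 3) * 4 * Real.log x ^ (A + 3) := by ring
      _ ≤ ((1 + 1 / ε₁) * (2 * A) ^ 2 * 3 + 1) * 4 * Real.log x ^ (A + 3) := by
          have : 0 ≤ 4 * Real.log x ^ (A + 3) := by positivity
          nlinarith
      _ ≤ ε₁ * x := h4
  have f3 : ∀ᶠ x : ℝ in atTop, 2 * (A * Real.log x) * Real.log x ^ (A + 2) ≤ x := by
    have h1 := (Real.isLittleO_pow_log_id_atTop (n := A + 3)).def (show (0 : ℝ) < 1 / (2 * A + 1) by positivity)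
    filter_upwards [h1, eventually_ge_atTop 3] with x hx hx1
    have h3 : 0 < Real.log x := Real.log_pos (by linarith)
    rw [Real.norm_eq_abs, Real.norm_eq_abs, abs_of_nonneg (by positivity), id, abs_of_nonneg (by linarith)] at hx
    have h4 : (2 * A + 1) * Real.log x ^ (A + 3) ≤ x := by
      calc (2 * A + 1) * Real.log x ^ (A + 3) ≤ (2 * A + 1) * (1 / (2 * A + 1) * x) :=
            mul_le_mul_of_nonneg_left hx (by positivity)
        _ = x := by field_simp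
    calc 2 * (A * Real.log x) * Real.log x ^ (A + 2) = (2 * A) * Real.log x ^ (A + 3) := by ring
      _ ≤ (2 * A + 1) * Real.log x ^ (A + 3) := by
          have : 0 ≤ Real.log x ^ (A + 3) := by positivity
          nlinarith
      _ ≤ x := h4
  obtain ⟨t₃, ht₃⟩ := eventually_atTop.mp (f1.and (f2.and (f3.and (eventually_ge_atTop (max 3 (max t₁ t₂))))))
  refine ⟨t₃, fun t ht Q S hS hpair => ?_⟩
  obtain ⟨g1, g2, g3, g4⟩ := ht₃ t ht
  have ht3 : 3 ≤ t := (le_max_left _ _).trans g4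
  have htt₁ : t₁ ≤ t := (le_max_left _ _).trans ((le_max_right _ _).trans g4)
  have htt₂ : t₂ ≤ t := (le_max_right _ _).trans ((le_max_right _ _).trans g4)
  have ht0 : 0 < t := by linarith
  have hlt0 : 0 < Real.log t := Real.log_pos (by linarith)
  have h48 : 48 ≤ Real.log t := by
    refine le_trans ?_ g1
    rw [le_div_iff₀ hε₁0]
    linarith
  have hR1 : 1 ≤ Real.log t ^ A := one_le_pow₀ (by linarith)
  rcases S.eq_empty_or_nonempty with hSe | ⟨s₀, hs₀⟩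
  · rw [hSe, sum_empty]
    refine ⟨?_, by positivity⟩
    simp only [card_empty, Nat.cast_zero]
    positivity
  obtain ⟨mf, af, hinj, hmf, hMp⟩ := tw_fun S hS _ hR1 hpair s₀ hs₀
  set M := S.image mf with hM
  have hMc : M.card = S.card := card_image_of_injOn hinj
  have hMcard : (S.card : ℝ) ≤ 3 * Real.log t ^ A := by
    rw [← hMc]
    apply card_ints M _ hR1
    intro m hm
    obtain ⟨s, hs, rfl⟩ := mem_image.mp hm
    exact (hmf s hs).2.1
  refine ⟨hMcard, ?_⟩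
  set U : ℝ := (tot Set.univ t : ℝ) with hU
  have hU1 : t / (4 * Real.log t) ≤ U := ht₂ t htt₂
  have hU0 : 0 < U := lt_of_lt_of_le (by positivity) hU1
  set T : ℝ := (tot Q t : ℝ) with hT
  have hT0 : 0 ≤ T := Nat.cast_nonneg _
  have hprime : ∀ p ∈ PO Q t, p.Prime := by
    intro p hp
    unfold PO at hp
    rw [mem_filter, mem_PT] at hp
    exact hp.1.1
  have hprimeU : ∀ p ∈ PO Set.univ t, p.Prime := by
    intro p hp
    unfold PO at hp
    rw [mem_filter, mem_PT] at hp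
    exact hp.1.1
  -- the off-diagonal terms
  have hlogm : ∀ m : ℤ, m ≠ 0 → |(m : ℝ)| ≤ Real.log t ^ A → Real.log |(m : ℝ)| ≤ A * Real.log t := by
    intro m hm0 hm
    have h1 : Real.log |(m : ℝ)| ≤ Real.log (Real.log t ^ A) := by
      apply Real.log_le_log _ hm
      rw [abs_pos]
      exact_mod_cast hm0
    rw [Real.log_pow] at h1
    have h2 : Real.log (Real.log t) ≤ Real.log t := Real.log_le_self hlt0.le
    have h3 : (A : ℝ) * Real.log (Real.log t) ≤ A * Real.log t := mul_le_mul_of_nonneg_left h2 (Nat.cast_nonneg _)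
    linarith
  have hoff : ∀ m ∈ M, ∀ m' ∈ M, m ≠ m' → |((∑ p ∈ PO Set.univ t, jacobiSym (m * m') p : ℤ) : ℝ)| ≤ 2 * (t / Real.log t ^ (A + 2)) := by
    intro m hm m' hm' hne
    obtain ⟨n, hn0, hnle, hsq⟩ := hMp m hm m' hm' hne
    obtain ⟨s, hs, hsm⟩ := mem_image.mp hm
    obtain ⟨s', hs', hsm'⟩ := mem_image.mp hm'
    have hmS : Squarefree m := hsm ▸ (hmf s hs).1
    have hmS' : Squarefree m' := hsm' ▸ (hmf s' hs').1
    have hmR : |(m : ℝ)| ≤ Real.log t ^ A := hsm ▸ (hmf s hs).2.1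
    obtain ⟨g, r, hg0, hgm, hmm, hr, hr1⟩ := sf_pair hmS hmS' hne
    have hrn := (sf_le hg0 hmm hr hn0 hsq).trans hnle
    have h1 := ht₁ t htt₁ r hr hr1 hrn
    have h2 := diff_le' (PO Set.univ t) hprimeU r (m * m') m g hgm hmS.ne_zero hmm
    have h3 := hlogm m hmS.ne_zero hmR
    have h4 : 2 * (A * Real.log t) ≤ t / Real.log t ^ (A + 2) := by
      rw [le_div_iff₀ (by positivity)]
      exact g3
    linarith
  have hd := dual0 Q t s₀ M (2 * (t / Real.log t ^ (A + 2))) (by positivity) hoff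
  have hMρ : (M.card : ℝ) * (2 * (t / Real.log t ^ (A + 2))) ≤ ε₁ * U := by
    have h1 : (M.card : ℝ) ≤ 3 * Real.log t ^ A := by rw [hMc]; exact hMcard
    calc (M.card : ℝ) * (2 * (t / Real.log t ^ (A + 2))) ≤ (3 * Real.log t ^ A) * (2 * (t / Real.log t ^ (A + 2))) :=
          mul_le_mul_of_nonneg_right h1 (by positivity)
      _ = (24 / Real.log t) * (t / (4 * Real.log t)) := by
          rw [pow_add]
          field_simp
          ring
      _ ≤ ε₁ * U := by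
          apply mul_le_mul _ hU1 (by positivity) hε₁0.le
          rw [div_le_iff₀ hlt0]
          rw [div_le_iff₀ hε₁0] at g1
          linarith
  have hX : ∑ m ∈ M, ((∑ p ∈ PO Q t, jacobiSym (s₀ * m) p : ℤ) : ℝ) ^ 2 ≤ (1 + ε₁) * U * T := by
    refine hd.trans ?_
    have : T * (U + M.card * (2 * (t / Real.log t ^ (A + 2)))) ≤ T * (U + ε₁ * U) :=
      mul_le_mul_of_nonneg_left (by linarith) hT0
    calc _ ≤ T * (U + ε₁ * U) := this
      _ = _ := by ring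
  -- back to `S`
  rcases hT0.eq_or_lt with hT00 | hTpos
  · -- no primes
    have hPO : PO Q t = ∅ := by
      have h1 := card_PO_le Q t
      have h2 : tot Q t = 0 := by
        have h3 : (tot Q t : ℝ) = 0 := hT00.symm
        exact_mod_cast h3
      rw [h2] at h1
      exact card_eq_zero.mp (by omega)
    rw [hPO]
    simp only [sum_empty, Int.cast_zero]
    rw [← hT00]
    simp
  have hT1 : 1 ≤ T := by
    have h1 : (0 : ℝ) < (tot Q t : ℝ) := hTpos
    have h2 : 0 < tot Q t := by exact_mod_cast h1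
    rw [hT]
    exact_mod_cast h2
  have hstep : ∀ s ∈ S, ((∑ p ∈ PO Q t, jacobiSym s p : ℤ) : ℝ) ^ 2 ≤
      (1 + ε₁) * ((∑ p ∈ PO Q t, jacobiSym (s₀ * mf s) p : ℤ) : ℝ) ^ 2 + (1 + 1 / ε₁) * (2 * (A * Real.log t)) ^ 2 := by
    intro s hs
    obtain ⟨h1, h2, h3, h4⟩ := hmf s hs
    have h5 := diff_le (PO Q t) hprime s (s₀ * mf s) (mf s) (af s) h3 h1.ne_zero h4
    have h6 := hlogm (mf s) h1.ne_zero h2
    have h7 : |((∑ p ∈ PO Q t, jacobiSym s p : ℤ) : ℝ)| ≤ |((∑ p ∈ PO Q t, jacobiSym (s₀ * mf s) p : ℤ) : ℝ)| + 2 * (A * Real.log t) := by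
      linarith
    have h8 := pow_le_pow_left₀ (abs_nonneg _) h7 2
    rw [sq_abs] at h8
    refine h8.trans ?_
    have h9 := sq_split |((∑ p ∈ PO Q t, jacobiSym (s₀ * mf s) p : ℤ) : ℝ)| (2 * (A * Real.log t)) ε₁ hε₁0
    rwa [sq_abs] at h9
  calc ∑ s ∈ S, ((∑ p ∈ PO Q t, jacobiSym s p : ℤ) : ℝ) ^ 2 ≤
        ∑ s ∈ S, ((1 + ε₁) * ((∑ p ∈ PO Q t, jacobiSym (s₀ * mf s) p : ℤ) : ℝ) ^ 2 + (1 + 1 / ε₁) * (2 * (A * Real.log t)) ^ 2) :=
        sum_le_sum hstep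
    _ = (1 + ε₁) * ∑ s ∈ S, ((∑ p ∈ PO Q t, jacobiSym (s₀ * mf s) p : ℤ) : ℝ) ^ 2 + S.card * ((1 + 1 / ε₁) * (2 * (A * Real.log t)) ^ 2) := by
        rw [sum_add_distrib, mul_sum, sum_const, nsmul_eq_mul]
    _ = (1 + ε₁) * ∑ m ∈ M, ((∑ p ∈ PO Q t, jacobiSym (s₀ * m) p : ℤ) : ℝ) ^ 2 + S.card * ((1 + 1 / ε₁) * (2 * (A * Real.log t)) ^ 2) := by
        rw [hM, sum_image hinj]
    _ ≤ (1 + ε₁) * ((1 + ε₁) * U * T) + ε₁ * U * T := by
        apply add_le_add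
        · exact mul_le_mul_of_nonneg_left hX (by linarith)
        · calc (S.card : ℝ) * ((1 + 1 / ε₁) * (2 * (A * Real.log t)) ^ 2) ≤ (3 * Real.log t ^ A) * ((1 + 1 / ε₁) * (2 * (A * Real.log t)) ^ 2) :=
                mul_le_mul_of_nonneg_right hMcard (by positivity)
            _ = (1 + 1 / ε₁) * (2 * (A * Real.log t)) ^ 2 * (3 * Real.log t ^ A) := by ring
            _ ≤ ε₁ * (t / (4 * Real.log t)) := g2
            _ ≤ ε₁ * U := mul_le_mul_of_nonneg_left hU1 hε₁0.le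
            _ ≤ ε₁ * U * T := by
                have : 0 ≤ ε₁ * U := by positivity
                nlinarith
    _ ≤ (1 + ε) * U * T := by
        have h1 : (1 + ε₁) * (1 + ε₁) + ε₁ ≤ 1 + ε := by nlinarith
        have h2 : 0 ≤ U * T := by positivity
        calc (1 + ε₁) * ((1 + ε₁) * U * T) + ε₁ * U * T = ((1 + ε₁) * (1 + ε₁) + ε₁) * (U * T) := by ring
          _ ≤ (1 + ε) * (U * T) := mul_le_mul_of_nonneg_right h1 h2
          _ = _ := by ring

end Pool.Agent.D0H64.BT
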