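import Pool.Agent.D0H64.BT.Be

set_option autoImplicit false
set_option maxHeartbeats 4000000

/-! Bessel's inequality for the numbers of split primes of fields which are very close to each other. -/

namespace Pool.Agent.D0H64.BT

open Finset Filter

lemma isLittleO_pow_log_rpow (n : ℕ) : (fun x : ℝ => Real.log x ^ n) =o[atTop] fun x : ℝ => x ^ (1 / 16 : ℝ) := by
  have h1 : (fun x : ℝ => Real.log x ^ (n : ℝ)) =o[atTop] fun x : ℝ => x ^ (1 / 16 : ℝ) :=
    isLittleO_log_rpow_rpow_atTop (n : ℝ) (by norm_num)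
  simpa using h1

/-- all `t` -/
theorem part5 (A : ℕ) (ε : ℝ) (hε : 0 < ε) : ∃ t₀ : ℝ, ∀ t : ℝ, t₀ ≤ t → ∀ (Q : Set ℕ) (B : Finset ℤ), (∀ d ∈ B, Fund d) →
    (∀ d ∈ B, ∀ e ∈ B, d ≠ e → Near (Real.log t ^ A) d e) →
    ∑ d ∈ B, ((spl Q d t : ℝ) - ine Q d t) ^ 2 ≤ (1 + ε) * tot Set.univ t * tot Q t := by
  classical
  set ε₁ : ℝ := min (ε / 4) 1 with hε₁
  have hε₁0 : 0 < ε₁ := lt_min (by positivity) one_pos
  have hε₁1 : ε₁ ≤ ε / 4 := min_le_left _ _
  have hε₁2 : ε₁ ≤ 1 := min_le_right _ _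
  obtain ⟨t₁, h⟩ := bes A ε₁ hε₁0
  obtain ⟨t₂, ht₂⟩ := tot_ge
  have f2 : ∀ᶠ x : ℝ in atTop, (1 + 1 / ε₁) * (3 * Real.log x ^ A) ≤ ε₁ * (x / (4 * Real.log x)) := by
    have h1 := (Real.isLittleO_pow_log_id_atTop (n := A + 1)).def (show (0 : ℝ) < ε₁ / (4 * ((1 + 1 / ε₁) * 3)) by positivity)
    filter_upwards [h1, eventually_ge_atTop 3] with x hx hx1
    have h3 : 0 < Real.log x := Real.log_pos (by linarith)
    rw [Real.norm_eq_abs, Real.norm_eq_abs, abs_of_nonneg (by positivity), id, abs_of_nonneg (by linarith)] at hx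
    have h5 : ε₁ * (x / (4 * Real.log x)) = ε₁ * x / (4 * Real.log x) := by ring
    rw [h5, le_div_iff₀ (by positivity)]
    calc (1 + 1 / ε₁) * (3 * Real.log x ^ A) * (4 * Real.log x) = ((1 + 1 / ε₁) * 3) * 4 * Real.log x ^ (A + 1) := by ring
      _ ≤ ((1 + 1 / ε₁) * 3) * 4 * (ε₁ / (4 * ((1 + 1 / ε₁) * 3)) * x) := mul_le_mul_of_nonneg_left hx (by positivity)
      _ = ε₁ * x := by field_simp
  obtain ⟨t₃, ht₃⟩ := eventually_atTop.mp (f2.and (eventually_ge_atTop (max 3 (max t₁ t₂))))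
  refine ⟨t₃, fun t ht Q B hB hp => ?_⟩
  obtain ⟨g2, g4⟩ := ht₃ t ht
  have ht3 : 3 ≤ t := (le_max_left _ _).trans g4
  have htt₁ : t₁ ≤ t := (le_max_left _ _).trans ((le_max_right _ _).trans g4)
  have htt₂ : t₂ ≤ t := (le_max_right _ _).trans ((le_max_right _ _).trans g4)
  have ht0 : 0 < t := by linarith
  have hlt0 : 0 < Real.log t := Real.log_pos (by linarith)
  obtain ⟨sf, hinj, hsf, hSp⟩ := sf_fun B hB _ hp
  obtain ⟨hc, hs⟩ := h t htt₁ Q (B.image sf) (by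
    intro s hs
    obtain ⟨d, hd, rfl⟩ := mem_image.mp hs
    exact (hsf d hd).1) hSp
  rw [sum_image hinj] at hs
  rw [card_image_of_injOn hinj] at hc
  set U : ℝ := (tot Set.univ t : ℝ) with hU
  have hU1 : t / (4 * Real.log t) ≤ U := ht₂ t htt₂
  have hU0 : 0 < U := lt_of_lt_of_le (by positivity) hU1
  set T : ℝ := (tot Q t : ℝ) with hT
  have hT0 : 0 ≤ T := Nat.cast_nonneg _
  rcases hT0.eq_or_lt with hT00 | hTpos
  · rw [← hT00, mul_zero]
    apply le_of_eq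
    apply sum_eq_zero
    intro d _
    have h1 := sub_le_tot Q d t
    have h2 : (tot Q t : ℝ) = 0 := hT00.symm
    rw [h2] at h1
    have h3 := abs_nonpos_iff.mp h1
    rw [h3]
    norm_num
  have hT1 : 1 ≤ T := by
    have h1 : (0 : ℝ) < (tot Q t : ℝ) := hTpos
    have h2 : 0 < tot Q t := by exact_mod_cast h1
    rw [hT]
    exact_mod_cast h2
  calc ∑ d ∈ B, ((spl Q d t : ℝ) - ine Q d t) ^ 2 ≤
        ∑ d ∈ B, ((1 + ε₁) * ((∑ p ∈ PO Q t, jacobiSym (sf d) p : ℤ) : ℝ) ^ 2 + (1 + 1 / ε₁)) := by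
        refine sum_le_sum fun d hd => ?_
        obtain ⟨h1, j, hj, hds⟩ := hsf d hd
        have h2 := spl_sub_ine Q d (sf d) j (fund_mod (hB d hd)) hj hds t
        have h8 := pow_le_pow_left₀ (abs_nonneg _) h2 2
        rw [sq_abs] at h8
        refine h8.trans ?_
        have h9 := sq_split |((∑ p ∈ PO Q t, jacobiSym (sf d) p : ℤ) : ℝ)| 1 ε₁ hε₁0
        rw [sq_abs] at h9
        linarith
    _ = (1 + ε₁) * ∑ d ∈ B, ((∑ p ∈ PO Q t, jacobiSym (sf d) p : ℤ) : ℝ) ^ 2 + B.card * (1 + 1 / ε₁) := by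
        rw [sum_add_distrib, mul_sum, sum_const, nsmul_eq_mul]
    _ ≤ (1 + ε₁) * ((1 + ε₁) * U * T) + ε₁ * U * T := by
        apply add_le_add
        · exact mul_le_mul_of_nonneg_left hs (by linarith)
        · calc (B.card : ℝ) * (1 + 1 / ε₁) ≤ (3 * Real.log t ^ A) * (1 + 1 / ε₁) :=
                mul_le_mul_of_nonneg_right hc (by positivity)
            _ = (1 + 1 / ε₁) * (3 * Real.log t ^ A) := by ring
            _ ≤ ε₁ * (t / (4 * Real.log t)) := g2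
            _ ≤ ε₁ * U := mul_le_mul_of_nonneg_left hU1 hε₁0.le
            _ ≤ ε₁ * U * T := by
                have : 0 ≤ ε₁ * U := by positivity
                nlinarith
    _ ≤ (1 + ε) * U * T := by
        have h1 : (1 + ε₁) * (1 + ε₁) + ε₁ ≤ 1 + ε := by nlinarith
        have h2 : 0 ≤ U * T := by positivity
        calc (1 + ε₁) * ((1 + ε₁) * U * T) + ε₁ * U * T = ((1 + ε₁) * (1 + ε₁) + ε₁) * (U * T) := by ring
          _ ≤ (1 + ε) * (U * T) := mul_le_mul_of_nonneg_right h1 h2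
          _ = _ := by ring

/-- the threshold of the question -/
theorem ball5 (A : ℕ) (ε : ℝ) (hε : 0 < ε) : ∃ D₀ : ℝ, ∀ d : ℤ, Fund d → D₀ ≤ |(d : ℝ)| →
    ∀ Q : Set ℕ, Real.log |(d : ℝ)| ^ (-(1 / 4) : ℝ) * tot Set.univ (thr d) ≤ tot Q (thr d) →
    ∀ B : Finset ℤ, (∀ e ∈ B, Fund e ∧ Near (Real.log (Real.log |(d : ℝ)|) ^ A) d e) →
    ∑ e ∈ B, ((2 * (spl Q e (thr e) : ℝ) - tot Q (thr e)) / tot Q (thr e)) ^ 2 ≤
      (1 + ε) * (tot Set.univ (thr d) / tot Q (thr d)) := by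
  classical
  set ε₁ : ℝ := min (ε / 12) (1 / 4) with hε₁
  have hε₁0 : 0 < ε₁ := lt_min (by positivity) (by norm_num)
  have hε₁1 : ε₁ ≤ ε / 12 := min_le_left _ _
  have hε₁2 : ε₁ ≤ 1 / 4 := min_le_right _ _
  obtain ⟨t₁, h⟩ := bes (2 * A) ε₁ hε₁0
  obtain ⟨t₂, ht₂⟩ := tot_ge
  obtain ⟨L₁, hL₁⟩ := thr_close (A : ℝ)
  -- eventual inequalities
  have f1 : ∀ᶠ x : ℝ in atTop, 16 * Real.log x ≤ x ^ (1 / 16 : ℝ) := by
    have h1 := (isLittleO_log_rpow_atTop (show (0 : ℝ) < 1 / 16 by norm_num)).def (show (0 : ℝ) < 1 / 16 by norm_num)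
    filter_upwards [h1, eventually_ge_atTop 1] with x hx hx1
    have h3 : 0 ≤ Real.log x := Real.log_nonneg hx1
    rw [Real.norm_eq_abs, Real.norm_eq_abs, abs_of_nonneg h3, abs_of_nonneg (by positivity)] at hx
    linarith
  have f2 : ∀ᶠ x : ℝ in atTop, (8 * (1 + 1 / ε₁)) * 8 ^ 2 * 3 / ε₁ ≤ x ^ (1 / 16 : ℝ) :=
    (tendsto_rpow_atTop (by norm_num : (0 : ℝ) < 1 / 16)).eventually_ge_atTop _
  have f3 : ∀ᶠ x : ℝ in atTop, 2 ≤ Real.log x := Real.tendsto_log_atTop.eventually (eventually_ge_atTop 2)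
  have f4 : ∀ᶠ x : ℝ in atTop, (4 * Real.log x) ^ (2 * A) ≤ x ^ (1 / 16 : ℝ) := by
    have h1 := (isLittleO_pow_log_rpow (2 * A)).def (show (0 : ℝ) < 1 / 4 ^ (2 * A) by positivity)
    filter_upwards [h1, eventually_ge_atTop 1] with x hx hx1
    have h3 : 0 ≤ Real.log x := Real.log_nonneg hx1
    rw [Real.norm_eq_abs, Real.norm_eq_abs, abs_of_nonneg (by positivity), abs_of_nonneg (by positivity), one_div,
      ← div_eq_inv_mul, le_div_iff₀ (by positivity)] at hx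
    rw [mul_pow]
    linarith
  obtain ⟨L₂, hL₂⟩ := eventually_atTop.mp (f1.and (f2.and (f3.and (f4.and (eventually_ge_atTop (max 4 (max L₁ (max t₁ t₂))))))))
  refine ⟨max (Real.exp L₂) 3, fun d hd hdD Q hQ B hB => ?_⟩
  set L : ℝ := Real.log |(d : ℝ)| with hL
  have hd3 : (3 : ℝ) ≤ |(d : ℝ)| := (le_max_right _ _).trans hdD
  have hdp : 0 < |(d : ℝ)| := by linarith
  have hLL : L₂ ≤ L := by
    rw [hL, Real.le_log_iff_exp_le hdp]
    exact (le_max_left _ _).trans hdD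
  obtain ⟨g1, g2, g3, g4, g5⟩ := hL₂ L hLL
  have hL4 : 4 ≤ L := (le_max_left _ _).trans g5
  have g6 := (le_max_right _ _).trans g5
  have hLL₁ : L₁ ≤ L := (le_max_left _ _).trans g6
  have g7 := (le_max_right _ _).trans g6
  have hLt₁ : t₁ ≤ L := (le_max_left _ _).trans g7
  have hLt₂ : t₂ ≤ L := (le_max_right _ _).trans g7
  have hL0 : 0 < L := by linarith
  have hL1 : 1 ≤ L := by linarith
  set t : ℝ := thr d with ht
  have htL : t = L ^ 2 * Real.log L ^ 2 := rfl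
  have hl4 : 4 ≤ Real.log L ^ 2 := by nlinarith
  have htL2 : L ^ 2 ≤ t := by
    rw [htL]
    nlinarith [sq_nonneg L]
  have hLt : L ≤ t := by nlinarith
  have ht0 : 0 < t := by linarith
  have ht1 : 1 ≤ t := by linarith
  have hlt : 0 < Real.log t := Real.log_pos (by linarith)
  have hlL : 0 < Real.log L := by linarith
  have hlt4 : Real.log t ≤ 4 * Real.log L := by
    rw [htL, Real.log_mul (by positivity) (by positivity), Real.log_pow, Real.log_pow]
    have : Real.log (Real.log L) ≤ Real.log L := Real.log_le_self hlL.le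
    push_cast
    linarith
  have hlLt : Real.log L ≤ Real.log t := Real.log_le_log hL0 hLt
  set U : ℝ := (tot Set.univ t : ℝ) with hU
  set T : ℝ := (tot Q t : ℝ) with hT
  have hU1 : t / (4 * Real.log t) ≤ U := ht₂ t (hLt₂.trans hLt)
  have hU0 : 0 < U := lt_of_lt_of_le (by positivity) hU1
  have hT0 : 0 < T := lt_of_lt_of_le (by positivity) hQ
  -- sizes
  have hU2 : L ^ (31 / 16 : ℝ) ≤ U := by
    refine le_trans ?_ hU1
    have h1 : L ^ (31 / 16 : ℝ) * L ^ (1 / 16 : ℝ) = L ^ 2 := by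
      rw [← Real.rpow_add hL0]
      norm_num
    rw [le_div_iff₀ (by positivity)]
    calc L ^ (31 / 16 : ℝ) * (4 * Real.log t) ≤ L ^ (31 / 16 : ℝ) * L ^ (1 / 16 : ℝ) := by
          apply mul_le_mul_of_nonneg_left _ (by positivity)
          linarith
      _ = L ^ 2 := h1
      _ ≤ t := htL2
  have hT2 : L ^ (27 / 16 : ℝ) ≤ T := by
    refine le_trans ?_ hQ
    calc L ^ (27 / 16 : ℝ) = L ^ (-(1 / 4) : ℝ) * L ^ (31 / 16 : ℝ) := by
          rw [← Real.rpow_add hL0]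
          norm_num
      _ ≤ L ^ (-(1 / 4) : ℝ) * U := mul_le_mul_of_nonneg_left hU2 (by positivity)
  have hL54 : L ≤ L ^ (5 / 4 : ℝ) := by
    nth_rewrite 1 [← Real.rpow_one L]
    apply Real.rpow_le_rpow_of_exponent_le hL1 (by norm_num)
  set E : ℝ := 8 * L ^ (5 / 4 : ℝ) with hE
  have hE0 : 0 < E := by positivity
  have hET : E ≤ ε₁ * T := by
    have h1 : E / ε₁ ≤ T := by
      refine le_trans ?_ hT2
      have h2 : 8 / ε₁ ≤ L ^ (1 / 16 : ℝ) := by
        refine le_trans ?_ g2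
        apply div_le_div_of_nonneg_right _ hε₁0.le
        have : 0 < 1 / ε₁ := by positivity
        nlinarith
      calc E / ε₁ = (8 / ε₁) * L ^ (5 / 4 : ℝ) := by rw [hE]; ring
        _ ≤ L ^ (1 / 16 : ℝ) * L ^ (5 / 4 : ℝ) := mul_le_mul_of_nonneg_right h2 (by positivity)
        _ = L ^ (21 / 16 : ℝ) := by
            rw [← Real.rpow_add hL0]
            norm_num
        _ ≤ L ^ (27 / 16 : ℝ) := Real.rpow_le_rpow_of_exponent_le hL1 (by norm_num)
    rw [div_le_iff₀ hε₁0] at h1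
    linarith
  -- pairwise
  have hp : ∀ e ∈ B, ∀ f ∈ B, e ≠ f → Near (Real.log t ^ (2 * A)) e f := by
    intro e he f hf _
    obtain ⟨n, hn0, hn, a, ha⟩ := (hB e he).2
    obtain ⟨n', hn0', hn', b, hb⟩ := (hB f hf).2
    refine ⟨n * n', mul_ne_zero hn0 hn0', ?_, ?_⟩
    · push_cast
      rw [abs_mul]
      calc |(n : ℝ)| * |(n' : ℝ)| ≤ Real.log L ^ A * Real.log L ^ A :=
            mul_le_mul hn hn' (abs_nonneg _) (by positivity)
        _ = Real.log L ^ (2 * A) := by rw [← pow_add, two_mul]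
        _ ≤ _ := pow_le_pow_left₀ hlL.le hlLt _
    · apply sq_cancel (fund_ne hd)
      refine ⟨a * b, ?_⟩
      calc d ^ 2 * (e * f * (n * n')) = (d * e * n) * (d * f * n') := by ring
        _ = _ := by rw [ha, hb]; ring
  obtain ⟨sf, hinj, hsf, hSp⟩ := sf_fun B (fun d hd => (hB d hd).1) _ hp
  obtain ⟨hc, hs⟩ := h t (hLt₁.trans hLt) Q (B.image sf) (by
    intro s hs
    obtain ⟨d, hd, rfl⟩ := mem_image.mp hs
    exact (hsf d hd).1) hSp
  rw [sum_image hinj] at hs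
  rw [card_image_of_injOn hinj] at hc
  have hkey : ∀ e ∈ B, |2 * (spl Q e (thr e) : ℝ) - tot Q (thr e)| ≤ |((∑ p ∈ PO Q t, jacobiSym (sf e) p : ℤ) : ℝ)| + E ∧
      (1 - ε₁) * T ≤ tot Q (thr e) := by
    intro e he
    obtain ⟨h1, j, hj, hes⟩ := hsf e he
    obtain ⟨heF, heN'⟩ := hB e he
    have heN : Near (L ^ (A : ℝ)) d e := by
      obtain ⟨n, hn0, hn, hsq⟩ := heN'
      refine ⟨n, hn0, hn.trans ?_, hsq⟩
      rw [Real.rpow_natCast]
      exact pow_le_pow_left₀ hlL.le (Real.log_le_self hL0.le) A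
    have he0 : e ≠ 0 := fund_ne heF
    have hep : 0 < |(e : ℝ)| := by
      rw [abs_pos]
      exact_mod_cast he0
    set M : ℝ := Real.log |(e : ℝ)| with hM
    have hLA : 0 < L ^ (A : ℝ) := by positivity
    have n1 := near_le hd heF heN
    have n2 := near_le heF hd (near_symm heN)
    have hl44 : Real.log 4 ≤ 2 := by
      rw [Real.log_le_iff_le_exp (by norm_num)]
      have h5 : Real.exp 2 = Real.exp 1 * Real.exp 1 := by
        rw [← Real.exp_add]
        norm_num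
      have := Real.exp_one_gt_d9
      nlinarith
    have m1 : M ≤ 2 + A * Real.log L + L := by
      have := Real.log_le_log hep n1
      rw [Real.log_mul (by positivity) hdp.ne', Real.log_mul (by norm_num) hLA.ne', Real.log_rpow hL0] at this
      linarith
    have m2 : L ≤ 2 + A * Real.log L + M := by
      have := Real.log_le_log hdp n2
      rw [Real.log_mul (by positivity) hep.ne', Real.log_mul (by norm_num) hLA.ne', Real.log_rpow hL0] at this
      linarith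
    have hML : |M - L| ≤ 2 + A * Real.log L := by
      rw [abs_le]
      constructor <;> linarith
    obtain ⟨q1, q2, q3⟩ := hL₁ L hLL₁ M hML
    have hthr : |thr e - t| ≤ L ^ (5 / 4 : ℝ) := q1
    have hte0 : 0 ≤ thr e := by
      unfold thr
      positivity
    have r1 := two_spl Q e he0 (thr e)
    have r2 := spl_sub_ine Q e (sf e) j (fund_mod heF) hj hes (thr e)
    have r3 := between Q (fun p => jacobiSym (sf e) p) (fun p => by
      show |((jacobiSym (sf e) p : ℤ) : ℝ)| ≤ 1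
      rcases jacobiSym.trichotomy (sf e) p with h | h | h <;> rw [h] <;> norm_num) (thr e) t hte0 ht0.le
    have r4 := tot_between Q (thr e) t hte0 ht0.le
    have r5 : |((∑ p ∈ PO Q (thr e), jacobiSym (sf e) p : ℤ) : ℝ)| ≤ |((∑ p ∈ PO Q t, jacobiSym (sf e) p : ℤ) : ℝ)| + (L ^ (5 / 4 : ℝ) + 1) := by
      have := abs_sub_abs_le_abs_sub ((∑ p ∈ PO Q (thr e), jacobiSym (sf e) p : ℤ) : ℝ) ((∑ p ∈ PO Q t, jacobiSym (sf e) p : ℤ) : ℝ)
      linarith
    have r6 : T - (L ^ (5 / 4 : ℝ) + 1) ≤ tot Q (thr e) := by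
      have := (abs_le.mp (r4.trans (add_le_add hthr le_rfl))).1
      linarith
    constructor
    · rw [hE]
      linarith
    · rw [hE] at hET
      linarith
  have h1ε : 0 < 1 - ε₁ := by linarith
  have hden : 0 < ((1 - ε₁) * T) ^ 2 := by positivity
  have hEB : (1 + 1 / ε₁) * E ^ 2 * B.card ≤ ε₁ * U * T := by
    have h1 : (B.card : ℝ) ≤ 3 * L ^ (1 / 16 : ℝ) := by
      refine hc.trans ?_
      apply mul_le_mul_of_nonneg_left _ (by norm_num)
      exact (pow_le_pow_left₀ hlt.le hlt4 _).trans g4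
    have h2 : E ^ 2 = 8 ^ 2 * L ^ (5 / 2 : ℝ) := by
      rw [hE, mul_pow, ← Real.rpow_natCast (L ^ (5 / 4 : ℝ)), ← Real.rpow_mul hL0.le]
      norm_num
    have h3 : L ^ (31 / 16 : ℝ) * L ^ (27 / 16 : ℝ) ≤ U * T := mul_le_mul hU2 hT2 (by positivity) hU0.le
    have h4 : (1 + 1 / ε₁) * 8 ^ 2 * 3 ≤ ε₁ * L ^ (1 / 16 : ℝ) := by
      rw [div_le_iff₀ hε₁0] at g2
      have h5 : 0 ≤ (1 + 1 / ε₁) * 8 ^ 2 * 3 := by positivity
      have h6 : (8 * (1 + 1 / ε₁)) * 8 ^ 2 * 3 = 8 * ((1 + 1 / ε₁) * 8 ^ 2 * 3) := by ring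
      linarith
    calc (1 + 1 / ε₁) * E ^ 2 * B.card ≤ (1 + 1 / ε₁) * (8 ^ 2 * L ^ (5 / 2 : ℝ)) * (3 * L ^ (1 / 16 : ℝ)) := by
          rw [h2]
          exact mul_le_mul_of_nonneg_left h1 (by positivity)
      _ = ((1 + 1 / ε₁) * 8 ^ 2 * 3) * (L ^ (5 / 2 : ℝ) * L ^ (1 / 16 : ℝ)) := by ring
      _ ≤ (ε₁ * L ^ (1 / 16 : ℝ)) * (L ^ (5 / 2 : ℝ) * L ^ (1 / 16 : ℝ)) := mul_le_mul_of_nonneg_right h4 (by positivity)
      _ = ε₁ * L ^ (42 / 16 : ℝ) := by
          rw [← Real.rpow_add hL0, mul_assoc, ← Real.rpow_add hL0]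
          norm_num
      _ ≤ ε₁ * L ^ (58 / 16 : ℝ) := by
          apply mul_le_mul_of_nonneg_left _ hε₁0.le
          exact Real.rpow_le_rpow_of_exponent_le hL1 (by norm_num)
      _ = ε₁ * (L ^ (31 / 16 : ℝ) * L ^ (27 / 16 : ℝ)) := by
          rw [← Real.rpow_add hL0]
          norm_num
      _ ≤ ε₁ * (U * T) := mul_le_mul_of_nonneg_left h3 hε₁0.le
      _ = _ := by ring
  calc ∑ e ∈ B, ((2 * (spl Q e (thr e) : ℝ) - tot Q (thr e)) / tot Q (thr e)) ^ 2 ≤
        ∑ e ∈ B, ((1 + ε₁) * ((∑ p ∈ PO Q t, jacobiSym (sf e) p : ℤ) : ℝ) ^ 2 + (1 + 1 / ε₁) * E ^ 2) / ((1 - ε₁) * T) ^ 2 := by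
        refine sum_le_sum fun e he => ?_
        obtain ⟨k1, k2⟩ := hkey e he
        rw [div_pow]
        have hTe : (0 : ℝ) < tot Q (thr e) := lt_of_lt_of_le (by positivity) k2
        apply div_le_div₀ (by positivity) _ hden (pow_le_pow_left₀ (by positivity) k2 2)
        have h8 := pow_le_pow_left₀ (abs_nonneg _) k1 2
        rw [sq_abs] at h8
        refine h8.trans ?_
        have h9 := sq_split |((∑ p ∈ PO Q t, jacobiSym (sf e) p : ℤ) : ℝ)| E ε₁ hε₁0
        rwa [sq_abs] at h9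
    _ = ((1 + ε₁) * (∑ e ∈ B, ((∑ p ∈ PO Q t, jacobiSym (sf e) p : ℤ) : ℝ) ^ 2) + (1 + 1 / ε₁) * E ^ 2 * B.card) / ((1 - ε₁) * T) ^ 2 := by
        rw [← sum_div, sum_add_distrib, mul_sum, sum_const, nsmul_eq_mul]
        ring
    _ ≤ ((1 + ε₁) * ((1 + ε₁) * U * T) + ε₁ * U * T) / ((1 - ε₁) * T) ^ 2 := by
        apply div_le_div_of_nonneg_right _ hden.le
        apply add_le_add _ hEB
        exact mul_le_mul_of_nonneg_left hs (by linarith)
    _ = (((1 + ε₁) * (1 + ε₁) + ε₁) / (1 - ε₁) ^ 2) * (U / T) := by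
        rw [mul_pow]
        field_simp
    _ ≤ (1 + ε) * (U / T) := by
        apply mul_le_mul_of_nonneg_right _ (by positivity)
        rw [div_le_iff₀ (by positivity)]
        have h12 : 1 + 12 * ε₁ ≤ 1 + ε := by linarith
        have h13 : (1 + ε₁) * (1 + ε₁) + ε₁ ≤ (1 + 12 * ε₁) * (1 - ε₁) ^ 2 := by
          nlinarith [mul_pos hε₁0 hε₁0, mul_pos (mul_pos hε₁0 hε₁0) hε₁0]
        exact h13.trans (mul_le_mul_of_nonneg_right h12 (by positivity))

/-- repulsion of the discriminants with few split primes -/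
theorem repulsion (A : ℕ) (ε : ℝ) (hε : 0 < ε) : ∃ D₀ : ℝ, ∀ d : ℤ, NegFund d → D₀ ≤ |(d : ℝ)| →
    (spl Set.univ d (thr d) : ℝ) ≤ ε * tot Set.univ (thr d) →
    ∀ e : ℤ, NegFund e → e ≠ d → Near (Real.log (Real.log |(d : ℝ)|) ^ A) d e →
      (2 * (spl Set.univ e (thr e) : ℝ) - tot Set.univ (thr e)) ^ 2 ≤ 5 * ε * (tot Set.univ (thr e) : ℝ) ^ 2 := by
  classical
  obtain ⟨D₁, h⟩ := ball5 A ε hε
  obtain ⟨t₂, ht₂⟩ := tot_ge
  have f3 : ∀ᶠ x : ℝ in atTop, 2 ≤ Real.log x := Real.tendsto_log_atTop.eventually (eventually_ge_atTop 2)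
  obtain ⟨L₂, hL₂⟩ := eventually_atTop.mp (f3.and (eventually_ge_atTop (max 4 t₂)))
  refine ⟨max D₁ (max (Real.exp L₂) 3), fun d hd hdD hN e he hne hnear => ?_⟩
  have hd1 : D₁ ≤ |(d : ℝ)| := (le_max_left _ _).trans hdD
  have hd2 := (le_max_right _ _).trans hdD
  have hd3 : (3 : ℝ) ≤ |(d : ℝ)| := (le_max_right _ _).trans hd2
  have hdp : 0 < |(d : ℝ)| := by linarith
  set L : ℝ := Real.log |(d : ℝ)| with hL
  have hLL : L₂ ≤ L := by
    rw [hL, Real.le_log_iff_exp_le hdp]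
    exact (le_max_left _ _).trans hd2
  obtain ⟨g3, g4⟩ := hL₂ L hLL
  have hL4 : 4 ≤ L := (le_max_left _ _).trans g4
  have hLt : t₂ ≤ L := (le_max_right _ _).trans g4
  have hL0 : 0 < L := by linarith
  have hL1 : 1 ≤ L := by linarith
  set t : ℝ := thr d with ht
  have htL : t = L ^ 2 * Real.log L ^ 2 := rfl
  have hl4 : 4 ≤ Real.log L ^ 2 := by nlinarith
  have htL2 : L ≤ t := by
    rw [htL]
    nlinarith [sq_nonneg L]
  have ht0 : 0 < t := by linarith
  have hlt : 0 < Real.log t := Real.log_pos (by linarith)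
  set U : ℝ := (tot Set.univ t : ℝ) with hU
  have hU1 : t / (4 * Real.log t) ≤ U := ht₂ t (hLt.trans htL2)
  have hU0 : 0 < U := lt_of_lt_of_le (by positivity) hU1
  have hQ : L ^ (-(1 / 4) : ℝ) * tot Set.univ (thr d) ≤ tot Set.univ (thr d) := by
    have h1 : L ^ (-(1 / 4) : ℝ) ≤ 1 := Real.rpow_le_one_of_one_le_of_nonpos hL1 (by norm_num)
    show L ^ (-(1 / 4) : ℝ) * U ≤ U
    nlinarith
  have hb := h d hd.2 hd1 Set.univ hQ {d, e} (by
    intro f hf
    rw [mem_insert, mem_singleton] at hf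
    rcases hf with rfl | rfl
    · refine ⟨hd.2, 1, one_ne_zero, ?_, ⟨f, by ring⟩⟩
      push_cast
      rw [abs_one]
      exact one_le_pow₀ (by linarith)
    · exact ⟨he.2, hnear⟩)
  rw [sum_pair (Ne.symm hne)] at hb
  have hUU : (tot Set.univ (thr d) : ℝ) / tot Set.univ (thr d) = 1 := by
    show U / U = 1
    exact div_self hU0.ne'
  rw [hUU, mul_one] at hb
  -- the deviation of `d`
  rcases le_or_gt (1 / 5) ε with hε1 | hε1
  · have h1 := two_le_tot Set.univ e (thr e)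
    have h2 := pow_le_pow_left₀ (abs_nonneg _) h1 2
    rw [sq_abs] at h2
    refine h2.trans ?_
    have h3 : 0 ≤ (tot Set.univ (thr e) : ℝ) ^ 2 := sq_nonneg _
    nlinarith
  · have h1 : 1 - 4 * ε ≤ ((2 * (spl Set.univ d (thr d) : ℝ) - tot Set.univ (thr d)) / tot Set.univ (thr d)) ^ 2 := by
      have h2 : (1 - 2 * ε) ≤ (U - 2 * (spl Set.univ d (thr d) : ℝ)) / U := by
        rw [le_div_iff₀ hU0]
        have : (spl Set.univ d (thr d) : ℝ) ≤ ε * U := hN
        linarith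
      have h3 : 0 ≤ 1 - 2 * ε := by linarith
      have h4 := pow_le_pow_left₀ h3 h2 2
      have h5 : ((2 * (spl Set.univ d (thr d) : ℝ) - tot Set.univ (thr d)) / tot Set.univ (thr d)) ^ 2 =
          ((U - 2 * (spl Set.univ d (thr d) : ℝ)) / U) ^ 2 := by
        show ((2 * (spl Set.univ d (thr d) : ℝ) - U) / U) ^ 2 = _
        rw [div_pow, div_pow]
        congr 1
        ring
      rw [h5]
      nlinarith [sq_nonneg ε]
    have h6 : ((2 * (spl Set.univ e (thr e) : ℝ) - tot Set.univ (thr e)) / tot Set.univ (thr e)) ^ 2 ≤ 5 * ε := by linarith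
    rcases (Nat.cast_nonneg (α := ℝ) (tot Set.univ (thr e))).eq_or_lt with h7 | h7
    · have h8 := two_le_tot Set.univ e (thr e)
      rw [← h7] at h8 ⊢
      have h9 := abs_nonpos_iff.mp h8
      rw [h9]
      simp
    · rw [div_pow, div_le_iff₀ (by positivity)] at h6
      exact h6

end Pool.Agent.D0H64.BT
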