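import Mathlib

set_option autoImplicit false
set_option maxHeartbeats 4000000

/-! Squarefree integers whose product is a square times a small number. -/

namespace Pool.Agent.D0H64.BT

/-- from a square -/
lemma sq_cancel {a n : ℤ} (ha : a ≠ 0) (h : IsSquare (a ^ 2 * n)) : IsSquare n := by
  obtain ⟨t, ht⟩ := h
  have h1 : a ^ 2 ∣ t ^ 2 := ⟨n, by rw [pow_two t]; exact ht.symm⟩
  have h2 : a ∣ t := (Int.pow_dvd_pow_iff (by norm_num)).mp h1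
  obtain ⟨u, hu⟩ := h2
  refine ⟨u, ?_⟩
  have h3 : a ^ 2 * n = a ^ 2 * (u * u) := by rw [ht, hu]; ring
  exact mul_left_cancel₀ (pow_ne_zero 2 ha) h3

lemma sf_dvd {r n : ℤ} (hr : Squarefree r) (h : IsSquare (r * n)) : r ∣ n := by
  obtain ⟨t, ht⟩ := h
  have h1 : r ∣ t ^ 2 := ⟨n, by rw [pow_two]; exact ht.symm⟩
  have h2 : r ∣ t := (hr.dvd_pow_iff_dvd (by norm_num)).mp h1
  obtain ⟨u, hu⟩ := h2
  refine ⟨u * u, ?_⟩
  have h3 : r * n = r * (r * (u * u)) := by rw [ht, hu]; ring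
  exact mul_left_cancel₀ hr.ne_zero h3

/-- two squarefree integers -/
lemma sf_pair {m m' : ℤ} (hm : Squarefree m) (hm' : Squarefree m') (hne : m ≠ m') :
    ∃ (g : ℕ) (r : ℤ), g ≠ 0 ∧ (g : ℤ) ∣ m ∧ m * m' = (g : ℤ) ^ 2 * r ∧ Squarefree r ∧ r ≠ 1 := by
  have hm0 := hm.ne_zero
  have hm0' := hm'.ne_zero
  have hg0 : Int.gcd m m' ≠ 0 := fun h => hm0 (Int.gcd_eq_zero_iff.mp h).1
  obtain ⟨a, ha⟩ := Int.gcd_dvd_left (a := m) (b := m')
  obtain ⟨b, hb⟩ := Int.gcd_dvd_right (a := m) (b := m')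
  set g := Int.gcd m m' with hg
  have hgz : (g : ℤ) ≠ 0 := by exact_mod_cast hg0
  have hcop : IsCoprime a b := by
    rw [Int.isCoprime_iff_gcd_eq_one]
    have h1 : Int.gcd ((g : ℤ) * a) ((g : ℤ) * b) = g * Int.gcd a b := by
      rw [Int.gcd_mul_left]
      simp
    rw [← ha, ← hb, ← hg] at h1
    have h2 : g * Int.gcd a b = g * 1 := by rw [mul_one]; exact h1.symm
    exact Nat.eq_of_mul_eq_mul_left (Nat.pos_of_ne_zero hg0) h2
  have hasq : Squarefree a := hm.squarefree_of_dvd ⟨g, by rw [ha]; ring⟩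
  have hbsq : Squarefree b := hm'.squarefree_of_dvd ⟨g, by rw [hb]; ring⟩
  refine ⟨g, a * b, hg0, ⟨a, ha⟩, ?_, ?_, ?_⟩
  · calc m * m' = ((g : ℤ) * a) * ((g : ℤ) * b) := by rw [← ha, ← hb]
      _ = _ := by ring
  · exact (squarefree_mul_iff).mpr ⟨hcop.isRelPrime, hasq, hbsq⟩
  · intro h
    apply hne
    have h1 : a = b := by
      rcases Int.mul_eq_one_iff_eq_one_or_neg_one.mp h with ⟨h1, h2⟩ | ⟨h1, h2⟩ <;> rw [h1, h2]
    rw [ha, hb, h1]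

lemma sf_le {m m' n : ℤ} {g : ℕ} {r : ℤ} (hg : g ≠ 0) (h : m * m' = (g : ℤ) ^ 2 * r) (hr : Squarefree r) (hn : n ≠ 0)
    (hsq : IsSquare (m * m' * n)) : |(r : ℝ)| ≤ |(n : ℝ)| := by
  have hgz : (g : ℤ) ≠ 0 := by exact_mod_cast hg
  rw [h, mul_assoc] at hsq
  have h1 := sf_dvd hr (sq_cancel hgz hsq)
  have h2 : |r| ≤ |n| := by
    rw [Int.abs_eq_natAbs, Int.abs_eq_natAbs]
    exact_mod_cast Nat.le_of_dvd (Int.natAbs_pos.mpr hn) (Int.natAbs_dvd_natAbs.mpr h1)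
  exact_mod_cast h2

end Pool.Agent.D0H64.BT
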