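import Pool.Agent.D0H64.BT.Du
import Pool.Agent.D0H64.BT.Sf
import Pool.Agent.H510R2.Div

set_option autoImplicit false
set_option maxHeartbeats 4000000

/-! The number of the `m` with a large sum of symbols over the primes `p ≤ y` of a set. -/

namespace Pool.Agent.D0H64.BT

open Finset Filter

/-- small primes do not matter -/
lemma drop_small (P : Finset ℕ) (hP : ∀ p ∈ P, 1 ≤ p) (z : ℕ) (a : ℤ) :
    |((∑ p ∈ P, jacobiSym a p : ℤ) : ℝ)| ≤ |((∑ p ∈ P.filter (fun p => z < p), jacobiSym a p : ℤ) : ℝ)| + z := by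
  have h1 : ∑ p ∈ P, jacobiSym a p = ∑ p ∈ P.filter (fun p => z < p), jacobiSym a p +
      ∑ p ∈ P.filter (fun p => ¬ z < p), jacobiSym a p := (sum_filter_add_sum_filter_not P _ _).symm
  rw [h1]
  push_cast
  refine (abs_add_le _ _).trans ?_
  gcongr
  refine (abs_sum_le_sum_abs _ _).trans ?_
  calc ∑ p ∈ P.filter (fun p => ¬ z < p), |((jacobiSym a p : ℤ) : ℝ)| ≤ ∑ _p ∈ P.filter (fun p => ¬ z < p), (1 : ℝ) := by
        refine sum_le_sum fun p _ => ?_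
        rcases jacobiSym.trichotomy a p with h | h | h <;> rw [h] <;> norm_num
    _ = ((P.filter (fun p => ¬ z < p)).card : ℝ) := by simp
    _ ≤ ((Icc 1 z).card : ℝ) := by
        have : P.filter (fun p => ¬ z < p) ⊆ Icc 1 z := by
          intro p hp
          rw [mem_filter] at hp
          rw [mem_Icc]
          exact ⟨hP p hp.1, by omega⟩
        exact_mod_cast card_le_card this
    _ = z := by simp

theorem core (k : ℕ) (hk : 1 ≤ k) (A δ : ℝ) (hδ : 0 < δ) : ∃ C c : ℝ, 0 < C ∧ 0 < c ∧ ∃ y₀ : ℕ, ∀ y : ℕ, y₀ ≤ y →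
    ∀ (s₀ : ℤ) (M : Finset ℤ), (∀ m ∈ M, Squarefree m ∧ |(m : ℝ)| ≤ (y : ℝ) ^ A) →
    (∀ m ∈ M, ∀ m' ∈ M, m ≠ m' → ∃ n : ℤ, n ≠ 0 ∧ |(n : ℝ)| ≤ (y : ℝ) ^ (4 * k - δ) ∧ IsSquare (m * m' * n)) →
    ∀ P : Finset ℕ, (∀ p ∈ P, p.Prime ∧ p ≠ 2 ∧ p ≤ y) → ∀ V : ℝ, 0 < V →
      (y : ℝ) ^ (1 - c) * P.card ≤ V ^ 2 → (∀ m ∈ M, V ≤ |((∑ p ∈ P, jacobiSym (s₀ * m) p : ℤ) : ℝ)|) →
      ∑ m ∈ M, ((∑ p ∈ P, jacobiSym (s₀ * m) p : ℤ) : ℝ) ^ (2 * k) ≤ C * (y * P.card) ^ k / Real.log y := by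
  wlog hA : 1 ≤ A generalizing A
  · obtain ⟨C, c, hC, hc, y₀, h⟩ := this 1 le_rfl
    refine ⟨C, c, hC, hc, max y₀ 1, fun y hy s₀ M hM => ?_⟩
    refine h y ((le_max_left _ _).trans hy) s₀ M (fun m hm => ⟨(hM m hm).1, (hM m hm).2.trans ?_⟩)
    apply Real.rpow_le_rpow_of_exponent_le
    · exact_mod_cast (le_max_right _ _).trans hy
    · linarith
  have hk0 : (0 : ℝ) < k := by exact_mod_cast hk
  have hk1 : (1 : ℝ) ≤ k := by exact_mod_cast hk
  obtain ⟨c₁, hc0, hc1, hos⟩ := osum_le (δ / k) (by positivity)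
  set τ : ℝ := k * c₁ with hτ
  have hτ0 : 0 < τ := by positivity
  set σ : ℝ := min (1 / 4) (τ / 16) with hσ
  have hσ0 : 0 < σ := lt_min (by norm_num) (by positivity)
  have hσ1 : σ ≤ 1 / 4 := min_le_left _ _
  have hσ2 : σ ≤ τ / 16 := min_le_right _ _
  obtain ⟨C₂, hC₂0, hdiv⟩ := Pool.Agent.H510R2.divisor_bound (τ / (8 * A)) (by positivity)
  set c : ℝ := min (1 / 4) (τ / (4 * k)) with hc
  have hcc0 : 0 < c := lt_min (by norm_num) (by positivity)
  have hcc1 : c ≤ 1 / 4 := min_le_left _ _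
  have hcc2 : c * k ≤ τ / 4 := by
    have : c ≤ τ / (4 * k) := min_le_right _ _
    calc c * k ≤ τ / (4 * k) * k := mul_le_mul_of_nonneg_right this hk0.le
      _ = τ / 4 := by field_simp
  set C : ℝ := 2 * 4 ^ k * k.factorial * (4 / σ + 1) with hC
  have hfac : (1 : ℝ) ≤ k.factorial := by exact_mod_cast Nat.factorial_pos k
  have hC0 : 0 < C := by positivity
  refine ⟨C, c, hC0, hcc0, ?_⟩
  have tc : Tendsto (fun q : ℕ => (q : ℝ)) atTop atTop := tendsto_natCast_atTop_atTop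
  have tk : Tendsto (fun q : ℕ => q ^ k) atTop atTop := tendsto_pow_atTop (by omega)
  -- eventual inequalities
  have f1 : ∀ᶠ x : ℝ in atTop, C₂ ≤ x ^ (τ / 4) :=
    (tendsto_rpow_atTop (by positivity : (0 : ℝ) < τ / 4)).eventually_ge_atTop _
  have f2 : ∀ᶠ x : ℝ in atTop, (k.factorial : ℝ) * 2 * 4 ^ k ≤ x ^ (τ / 4) :=
    (tendsto_rpow_atTop (by positivity : (0 : ℝ) < τ / 4)).eventually_ge_atTop _
  have f3 : ∀ᶠ x : ℝ in atTop, 4 ≤ x ^ (σ / 2) :=
    (tendsto_rpow_atTop (by positivity : (0 : ℝ) < σ / 2)).eventually_ge_atTop _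
  have f4 : ∀ᶠ x : ℝ in atTop, 2 ≤ x ^ (1 / 2 : ℝ) :=
    (tendsto_rpow_atTop (by norm_num : (0 : ℝ) < 1 / 2)).eventually_ge_atTop _
  have f5 : ∀ᶠ x : ℝ in atTop, Real.log x ≤ x ^ (1 / 2 : ℝ) := by
    have h1 := (isLittleO_log_rpow_atTop (show (0 : ℝ) < 1 / 2 by norm_num)).def
      (show (0 : ℝ) < 1 by norm_num)
    filter_upwards [h1, eventually_ge_atTop 1] with x hx hx1
    have h3 : 0 ≤ Real.log x := Real.log_nonneg hx1
    rw [Real.norm_eq_abs, Real.norm_eq_abs, abs_of_nonneg h3, abs_of_nonneg (by positivity), one_mul] at hx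
    exact hx
  obtain ⟨y₀, hy₀⟩ := eventually_atTop.mp
    ((tk.eventually hos).and ((tc.eventually f1).and ((tc.eventually f2).and ((tc.eventually f3).and
      ((tc.eventually f4).and ((tc.eventually f5).and (eventually_ge_atTop 3)))))))
  refine ⟨y₀, fun y hy s₀ M hM hpair P hP V hV hVP hbad => ?_⟩
  obtain ⟨g0, g1, g2, g3, g4, g5, hy3⟩ := hy₀ y hy
  have hy1 : (1 : ℝ) ≤ y := by exact_mod_cast (by omega : 1 ≤ y)
  have hy0 : (0 : ℝ) < y := by linarith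
  have hly : 0 < Real.log y := Real.log_pos (by exact_mod_cast (by omega : 1 < y))
  rcases M.eq_empty_or_nonempty with hMe | ⟨m₁, hm₁⟩
  · rw [hMe, sum_empty]
    positivity
  have hPc : V ≤ P.card := by
    refine (hbad m₁ hm₁).trans ?_
    rw [Int.cast_sum]
    refine (abs_sum_le_sum_abs _ _).trans ?_
    calc ∑ p ∈ P, |((jacobiSym (s₀ * m₁) p : ℤ) : ℝ)| ≤ ∑ _p ∈ P, (1 : ℝ) := by
          refine sum_le_sum fun p _ => ?_
          rcases jacobiSym.trichotomy (s₀ * m₁) p with h | h | h <;> rw [h] <;> norm_num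
      _ = P.card := by simp
  have hV1 : (y : ℝ) ^ (1 - c) ≤ V := by
    have h1 : (y : ℝ) ^ (1 - c) * V ≤ V * V := by
      calc (y : ℝ) ^ (1 - c) * V ≤ (y : ℝ) ^ (1 - c) * P.card := mul_le_mul_of_nonneg_left hPc (by positivity)
        _ ≤ V ^ 2 := hVP
        _ = V * V := pow_two V
    exact le_of_mul_le_mul_right h1 hV
  -- the sieve
  set z : ℕ := ⌊(y : ℝ) ^ σ⌋₊ with hz
  have hyσ : (4 : ℝ) ≤ (y : ℝ) ^ σ := by
    refine g3.trans ?_
    apply Real.rpow_le_rpow_of_exponent_le hy1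
    linarith
  have hzle : (z : ℝ) ≤ (y : ℝ) ^ σ := Nat.floor_le (by positivity)
  have hz2 : 2 ≤ z := by
    apply Nat.le_floor
    push_cast
    linarith
  have hzlog : σ / 2 * Real.log y ≤ Real.log z := by
    rw [← Real.log_rpow hy0]
    apply Real.log_le_log (by positivity)
    have h1 : (y : ℝ) ^ σ < z + 1 := Nat.lt_floor_add_one _
    have h2 : (y : ℝ) ^ σ = (y : ℝ) ^ (σ / 2) * (y : ℝ) ^ (σ / 2) := by
      rw [← Real.rpow_add hy0]
      congr 1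
      ring
    nlinarith
  have hlz : 0 < Real.log z := lt_of_lt_of_le (by positivity) hzlog
  obtain ⟨l, hl1, hlb, -, -, -, -, hlf⟩ := Pool.Agent.H376R2.TT.sel_weights_q 2 (by norm_num) z hz2
  have hphi : ((2 : ℕ) : ℝ) / (Nat.totient 2 : ℝ) = 2 := by
    have : Nat.totient 2 = 1 := by decide
    rw [this]
    norm_num
  rw [hphi] at hlf
  set N : ℕ := y ^ k with hN
  have hNr : (N : ℝ) = (y : ℝ) ^ (k : ℝ) := by
    rw [hN, Real.rpow_natCast]
    push_cast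
    rfl
  set S : ℝ := (4 / σ + 1) * (y : ℝ) ^ (k : ℝ) / Real.log y with hS
  have hSd : ∑ n ∈ Icc 1 (y ^ k), bet l z n ≤ S := by
    refine (diag_le l hlb z (y ^ k)).trans ?_
    have h1 : (2 : ℝ) / Real.log z ≤ 4 / σ / Real.log y := by
      rw [div_div, div_le_div_iff₀ hlz (by positivity)]
      linarith
    have h2 : (z : ℝ) ^ 2 ≤ (y : ℝ) ^ (k : ℝ) / Real.log y := by
      rw [le_div_iff₀ hly]
      calc (z : ℝ) ^ 2 * Real.log y ≤ ((y : ℝ) ^ σ) ^ 2 * (y : ℝ) ^ (1 / 2 : ℝ) := by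
            apply mul_le_mul _ g5 hly.le (by positivity)
            exact pow_le_pow_left₀ (by positivity) hzle 2
        _ = (y : ℝ) ^ (σ * 2 + 1 / 2) := by
            rw [Real.rpow_add hy0, Real.rpow_mul hy0.le]
            norm_num
        _ ≤ (y : ℝ) ^ (k : ℝ) := by
            apply Real.rpow_le_rpow_of_exponent_le hy1
            linarith
    have h3 : ((y ^ k : ℕ) : ℝ) * (∑ d ∈ Icc 1 z, ∑ e ∈ Icc 1 z, l d * l e / (Nat.lcm d e : ℝ)) ≤
        (y : ℝ) ^ (k : ℝ) * (4 / σ / Real.log y) := by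
      rw [← hN, hNr]
      exact mul_le_mul_of_nonneg_left (hlf.trans h1) (by positivity)
    rw [hS]
    calc _ ≤ (y : ℝ) ^ (k : ℝ) * (4 / σ / Real.log y) + (y : ℝ) ^ (k : ℝ) / Real.log y := add_le_add h3 h2
      _ = _ := by ring
  set ρ : ℝ := (y : ℝ) ^ ((k : ℝ) - τ / 2) with hρ
  have hρ0 : 0 ≤ ρ := by positivity
  have hoff : ∀ m ∈ M, ∀ m' ∈ M, m ≠ m' → |∑ n ∈ Icc 1 (y ^ k), bet l z n *
      ((if Odd n then jacobiSym (m * m') n else 0 : ℤ) : ℝ)| ≤ ρ := by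
    intro m hm m' hm' hne
    obtain ⟨n, hn0, hnle, hsq⟩ := hpair m hm m' hm' hne
    obtain ⟨g, r, hg0, hgm, hmm, hr, hr1⟩ := sf_pair (hM m hm).1 (hM m' hm').1 hne
    have hrn := sf_le hg0 hmm hr hn0 hsq
    have hrN : |(r : ℝ)| ≤ (N : ℝ) ^ (4 - δ / k) := by
      refine hrn.trans (hnle.trans (le_of_eq ?_))
      rw [hNr, ← Real.rpow_mul hy0.le]
      congr 1
      field_simp
    have h1 := g0 r hr hr1 hrN
    have h2 := off_le l hlb z N g hg0 r ((N : ℝ) ^ (1 - c₁)) (by positivity) h1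
    rw [hmm]
    refine h2.trans ?_
    have h3 : (N : ℝ) ^ (1 - c₁) = (y : ℝ) ^ (k - τ) := by
      rw [hNr, ← Real.rpow_mul hy0.le]
      congr 1
      rw [hτ]
      ring
    have h4 : (g.divisors.card : ℝ) ≤ C₂ * (y : ℝ) ^ (τ / 8) := by
      refine (hdiv g (Nat.one_le_iff_ne_zero.mpr hg0)).trans ?_
      apply mul_le_mul_of_nonneg_left _ hC₂0.le
      have h5 : (g : ℝ) ≤ (y : ℝ) ^ A := by
        refine le_trans ?_ (hM m hm).2
        have h6 : g ≤ m.natAbs := Nat.le_of_dvd (Int.natAbs_pos.mpr (hM m hm).1.ne_zero)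
          (by simpa using Int.natAbs_dvd_natAbs.mpr hgm)
        have h7 : ((m.natAbs : ℕ) : ℝ) = |(m : ℝ)| := by
          rw [Nat.cast_natAbs]
          push_cast
          rfl
        rw [← h7]
        exact_mod_cast h6
      calc (g : ℝ) ^ (τ / (8 * A)) ≤ ((y : ℝ) ^ A) ^ (τ / (8 * A)) :=
            Real.rpow_le_rpow (by positivity) h5 (by positivity)
        _ = (y : ℝ) ^ (τ / 8) := by
            rw [← Real.rpow_mul hy0.le]
            congr 1
            field_simp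
    have h8 : (z : ℝ) ^ 2 ≤ (y : ℝ) ^ (τ / 8) := by
      calc (z : ℝ) ^ 2 ≤ ((y : ℝ) ^ σ) ^ 2 := pow_le_pow_left₀ (by positivity) hzle 2
        _ = (y : ℝ) ^ (σ * 2) := by
            rw [Real.rpow_mul hy0.le]
            norm_num
        _ ≤ (y : ℝ) ^ (τ / 8) := by
            apply Real.rpow_le_rpow_of_exponent_le hy1
            linarith
    rw [h3]
    calc (z : ℝ) ^ 2 * (g.divisors.card * (y : ℝ) ^ ((k : ℝ) - τ)) ≤
          (y : ℝ) ^ (τ / 8) * ((y : ℝ) ^ (τ / 4) * (y : ℝ) ^ (τ / 8) * (y : ℝ) ^ ((k : ℝ) - τ)) := by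
          apply mul_le_mul h8 _ (by positivity) (by positivity)
          apply mul_le_mul_of_nonneg_right _ (by positivity)
          refine h4.trans ?_
          exact mul_le_mul_of_nonneg_right g1 (by positivity)
      _ = (y : ℝ) ^ (τ / 8 + (τ / 4 + τ / 8 + ((k : ℝ) - τ))) := by
          rw [Real.rpow_add hy0, Real.rpow_add hy0 (τ / 4 + τ / 8), Real.rpow_add hy0 (τ / 4)]
      _ = ρ := by
          rw [hρ]
          congr 1
          ring
  -- the large primes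
  set P' : Finset ℕ := P.filter (fun p => z < p) with hP'
  have hP'P : (P'.card : ℝ) ≤ P.card := by exact_mod_cast card_filter_le _ _
  have hzV : (z : ℝ) ≤ V / 2 := by
    have h1 : (y : ℝ) ^ σ * 2 ≤ (y : ℝ) ^ (1 - c) := by
      calc (y : ℝ) ^ σ * 2 ≤ (y : ℝ) ^ σ * (y : ℝ) ^ (1 / 2 : ℝ) := mul_le_mul_of_nonneg_left g4 (by positivity)
        _ = (y : ℝ) ^ (σ + 1 / 2) := (Real.rpow_add hy0 _ _).symm
        _ ≤ _ := by
            apply Real.rpow_le_rpow_of_exponent_le hy1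
            linarith
    linarith
  have hbad' : ∀ m ∈ M, V / 2 ≤ |((∑ p ∈ P', jacobiSym (s₀ * m) p : ℤ) : ℝ)| := by
    intro m hm
    have h1 := drop_small P (fun p hp => (hP p hp).1.one_le) z (s₀ * m)
    have h2 := hbad m hm
    linarith
  have hd := dual k P' y z (fun p hp => by
    rw [hP', mem_filter] at hp
    exact ⟨(hP p hp.1).1, (hP p hp.1).2.1, hp.2, (hP p hp.1).2.2⟩) (by omega) l hl1 s₀ M S ρ hρ0 hSd hoff
  -- conclusion
  have hPk : (P'.card : ℝ) ^ k ≤ (P.card : ℝ) ^ k := pow_le_pow_left₀ (by positivity) hP'P k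
  have hMc0 : (0 : ℝ) ≤ M.card := Nat.cast_nonneg _
  have hS0 : 0 ≤ S := by positivity
  have hV2k : (P.card : ℝ) ^ k * k.factorial * ρ ≤ V ^ (2 * k) / (2 * 4 ^ k) := by
    rw [le_div_iff₀ (by positivity)]
    calc (P.card : ℝ) ^ k * k.factorial * ρ * (2 * 4 ^ k) = (P.card : ℝ) ^ k * ρ * (k.factorial * 2 * 4 ^ k) := by ring
      _ ≤ (P.card : ℝ) ^ k * ρ * (y : ℝ) ^ (τ / 4) := mul_le_mul_of_nonneg_left g2 (by positivity)
      _ = (P.card : ℝ) ^ k * (y : ℝ) ^ ((k : ℝ) - τ / 4) := by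
          rw [hρ, mul_assoc, ← Real.rpow_add hy0]
          congr 2
          ring
      _ ≤ (P.card : ℝ) ^ k * (y : ℝ) ^ ((1 - c) * k) := by
          apply mul_le_mul_of_nonneg_left _ (by positivity)
          apply Real.rpow_le_rpow_of_exponent_le hy1
          linarith
      _ = ((y : ℝ) ^ (1 - c) * P.card) ^ k := by
          rw [mul_pow, Real.rpow_mul hy0.le, Real.rpow_natCast]
          ring
      _ ≤ (V ^ 2) ^ k := pow_le_pow_left₀ (by positivity) hVP k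
      _ = V ^ (2 * k) := by rw [← pow_mul]
  have hVk : (V / 2) ^ (2 * k) = V ^ (2 * k) / 4 ^ k := by
    rw [div_pow, pow_mul 2 2 k]
    norm_num
  set F : ℤ → ℝ := fun m => ((∑ p ∈ P, jacobiSym (s₀ * m) p : ℤ) : ℝ) with hF
  set F' : ℤ → ℝ := fun m => ((∑ p ∈ P', jacobiSym (s₀ * m) p : ℤ) : ℝ) with hF'
  have hev : ∀ x : ℝ, x ^ (2 * k) = |x| ^ (2 * k) := fun x => ((even_two_mul k).pow_abs x).symm
  have hlow : (M.card : ℝ) * (V / 2) ^ (2 * k) ≤ ∑ m ∈ M, F' m ^ (2 * k) := by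
    rw [← nsmul_eq_mul, ← sum_const]
    refine sum_le_sum fun m hm => ?_
    rw [hev (F' m)]
    exact pow_le_pow_left₀ (by positivity) (hbad' m hm) _
  have hup : ∑ m ∈ M, F m ^ (2 * k) ≤ 4 ^ k * ∑ m ∈ M, F' m ^ (2 * k) := by
    rw [mul_sum]
    refine sum_le_sum fun m hm => ?_
    have h1 := drop_small P (fun p hp => (hP p hp).1.one_le) z (s₀ * m)
    have h2 := hbad' m hm
    have h3 : |F m| ≤ 2 * |F' m| := by
      show |((∑ p ∈ P, jacobiSym (s₀ * m) p : ℤ) : ℝ)| ≤ 2 * |((∑ p ∈ P', jacobiSym (s₀ * m) p : ℤ) : ℝ)|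
      linarith
    rw [hev (F m), hev (F' m)]
    calc |F m| ^ (2 * k) ≤ (2 * |F' m|) ^ (2 * k) := pow_le_pow_left₀ (abs_nonneg _) h3 _
      _ = 4 ^ k * |F' m| ^ (2 * k) := by
          rw [mul_pow, pow_mul 2 2 k]
          norm_num
  have h1 : (P'.card : ℝ) ^ k * k.factorial * (S + M.card * ρ) ≤ (P.card : ℝ) ^ k * k.factorial * (S + M.card * ρ) :=
    mul_le_mul_of_nonneg_right (mul_le_mul_of_nonneg_right hPk (Nat.cast_nonneg _)) (add_nonneg hS0 (mul_nonneg hMc0 hρ0))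
  have h2 : (P.card : ℝ) ^ k * k.factorial * (S + M.card * ρ) = (P.card : ℝ) ^ k * k.factorial * S +
      M.card * ((P.card : ℝ) ^ k * k.factorial * ρ) := by ring
  have h3 : (M.card : ℝ) * ((P.card : ℝ) ^ k * k.factorial * ρ) ≤ M.card * (V ^ (2 * k) / (2 * 4 ^ k)) :=
    mul_le_mul_of_nonneg_left hV2k hMc0
  have h4 : (M.card : ℝ) * (V / 2) ^ (2 * k) = M.card * (V ^ (2 * k) / (2 * 4 ^ k)) + M.card * (V ^ (2 * k) / (2 * 4 ^ k)) := by
    have h40 : V ^ (2 * k) / (2 * 4 ^ k) = V ^ (2 * k) / 4 ^ k / 2 := by rw [div_div, mul_comm (4 ^ k : ℝ) 2]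
    rw [hVk, h40]
    ring
  have hd' : ∑ m ∈ M, F' m ^ (2 * k) ≤ (P'.card : ℝ) ^ k * k.factorial * (S + M.card * ρ) := hd
  have h5 : ∑ m ∈ M, F' m ^ (2 * k) ≤ 2 * ((P.card : ℝ) ^ k * k.factorial * S) := by linarith
  refine hup.trans ?_
  calc 4 ^ k * ∑ m ∈ M, F' m ^ (2 * k) ≤ 4 ^ k * (2 * ((P.card : ℝ) ^ k * k.factorial * S)) :=
        mul_le_mul_of_nonneg_left h5 (by positivity)
    _ = _ := by
        rw [hC, hS, Real.rpow_natCast, mul_pow]
        ring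

end Pool.Agent.D0H64.BT
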