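import Pool.Agent.D0H64.BT.Od
import Pool.Agent.H376R2.TT.Selwq

set_option autoImplicit false
set_option maxHeartbeats 4000000

/-! Sums of symbols with divisibility conditions, and with the weights of Selberg's sieve. -/

namespace Pool.Agent.D0H64.BT

open Finset Filter

lemma sum_dvd (f u : ℕ) (hf : 0 < f) (g : ℕ → ℤ) :
    (∑ n ∈ Icc 1 u, if f ∣ n then g n else 0) = ∑ k ∈ Icc 1 (u / f), g (f * k) := by
  rw [← sum_filter]
  symm
  apply sum_bij (fun k _ => f * k)
  · intro k hk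
    rw [mem_Icc] at hk
    rw [mem_filter, mem_Icc]
    refine ⟨⟨?_, ?_⟩, dvd_mul_right f k⟩
    · exact Nat.mul_pos hf hk.1
    · calc f * k ≤ f * (u / f) := Nat.mul_le_mul_left f hk.2
        _ ≤ u := Nat.mul_div_le u f
  · intro a _ b _ h
    exact Nat.eq_of_mul_eq_mul_left hf h
  · intro n hn
    rw [mem_filter, mem_Icc] at hn
    obtain ⟨⟨h1, h2⟩, k, hk⟩ := hn
    refine ⟨k, ?_, hk.symm⟩
    rw [mem_Icc]
    constructor
    · rcases Nat.eq_zero_or_pos k with h | h
      · rw [h, mul_zero] at hk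
        omega
      · exact h
    · rw [Nat.le_div_iff_mul_le hf, mul_comm, ← hk]
      exact h2
  · intro k _
    rfl

/-- the sum over the odd `n ≤ u` which are divisible by `f` -/
noncomputable def dsum (r : ℤ) (f u : ℕ) : ℤ := ∑ n ∈ Icc 1 u, if f ∣ n then (if Odd n then jacobiSym r n else 0) else 0

lemma abs_dsum_le (r : ℤ) (f u : ℕ) (B : ℝ) (hB : 0 ≤ B) (h : |(osum r (u / f) : ℝ)| ≤ B) :
    |(dsum r f u : ℝ)| ≤ B := by
  rcases Nat.eq_zero_or_pos f with hf | hf
  · have : dsum r f u = 0 := by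
      unfold dsum
      apply sum_eq_zero
      intro n hn
      rw [mem_Icc] at hn
      rw [if_neg]
      rw [hf, zero_dvd_iff]
      omega
    rw [this]
    simpa using hB
  · by_cases hfo : Odd f
    · have : dsum r f u = jacobiSym r f * osum r (u / f) := by
        unfold dsum osum
        rw [sum_dvd f u hf, mul_sum]
        refine sum_congr rfl fun k hk => ?_
        rw [mem_Icc] at hk
        by_cases hk2 : Odd k
        · rw [if_pos hk2, if_pos (hfo.mul hk2), jacobiSym.mul_right' _ (by omega) (by omega)]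
        · rw [if_neg hk2, if_neg, mul_zero]
          intro h1
          exact hk2 (Nat.odd_mul.mp h1).2
      rw [this]
      push_cast
      rw [abs_mul]
      have h1 : |((jacobiSym r f : ℤ) : ℝ)| ≤ 1 := by
        rcases jacobiSym.trichotomy r f with h | h | h <;> rw [h] <;> norm_num
      calc |((jacobiSym r f : ℤ) : ℝ)| * |(osum r (u / f) : ℝ)| ≤ 1 * B :=
            mul_le_mul h1 h (abs_nonneg _) zero_le_one
        _ = B := one_mul B
    · have : dsum r f u = 0 := by
        unfold dsum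
        apply sum_eq_zero
        intro n _
        split_ifs with h1 h2
        · exfalso
          apply hfo
          obtain ⟨k, hk⟩ := h1
          rw [hk] at h2
          exact (Nat.odd_mul.mp h2).1
        · rfl
        · rfl
      rw [this]
      simpa using hB

/-- the symbol `(g² r | n)` -/
lemma jac_sq (g : ℕ) (hg : g ≠ 0) (r : ℤ) (n : ℕ) (hn : n ≠ 0) :
    jacobiSym ((g : ℤ) ^ 2 * r) n = ∑ f ∈ g.divisors, if f ∣ n then ArithmeticFunction.moebius f * jacobiSym r n else 0 := by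
  have h1 : (∑ f ∈ g.divisors, if f ∣ n then ArithmeticFunction.moebius f * jacobiSym r n else 0) =
      (∑ f ∈ (Nat.gcd g n).divisors, ArithmeticFunction.moebius f) * jacobiSym r n := by
    rw [← sum_filter, sum_mul]
    apply sum_congr _ (fun _ _ => rfl)
    ext f
    rw [mem_filter, Nat.mem_divisors, Nat.mem_divisors, Nat.dvd_gcd_iff]
    have h0 : Nat.gcd g n ≠ 0 := Nat.gcd_ne_zero_left hg
    tauto
  rw [h1, jacobiSym.mul_left, jacobiSym.pow_left]
  congr 1
  have h2 : ∑ f ∈ (Nat.gcd g n).divisors, ArithmeticFunction.moebius f = if Nat.gcd g n = 1 then 1 else 0 := by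
    have := ArithmeticFunction.coe_mul_zeta_apply (f := (ArithmeticFunction.moebius)) (x := Nat.gcd g n)
    rw [← this, ArithmeticFunction.moebius_mul_coe_zeta, ArithmeticFunction.one_apply]
  rw [h2]
  split_ifs with h3
  · exact jacobiSym.sq_one (by simpa using h3)
  · have h4 : jacobiSym (g : ℤ) n = 0 := by
      rw [jacobiSym.eq_zero_iff]
      refine ⟨hn, by simpa using h3⟩
    rw [h4]
    norm_num

/-- the sum of `(g² r | n)` over the odd multiples `n ≤ u` of `e` -/
lemma abs_dsum_sq_le (g : ℕ) (hg : g ≠ 0) (r : ℤ) (e u : ℕ) (B : ℝ) (hB : 0 ≤ B)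
    (h : ∀ v ≤ u, |(osum r v : ℝ)| ≤ B) :
    |(dsum ((g : ℤ) ^ 2 * r) e u : ℝ)| ≤ g.divisors.card * B := by
  have h1 : dsum ((g : ℤ) ^ 2 * r) e u = ∑ f ∈ g.divisors, ArithmeticFunction.moebius f * dsum r (Nat.lcm e f) u := by
    unfold dsum
    have h2 : ∀ f ∈ g.divisors, ArithmeticFunction.moebius f * (∑ n ∈ Icc 1 u, if Nat.lcm e f ∣ n then (if Odd n then jacobiSym r n else 0) else 0) =
        ∑ n ∈ Icc 1 u, ArithmeticFunction.moebius f * (if Nat.lcm e f ∣ n then (if Odd n then jacobiSym r n else 0) else 0) := by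
      intro f _
      rw [mul_sum]
    rw [sum_congr rfl h2, sum_comm]
    refine sum_congr rfl fun n hn => ?_
    rw [mem_Icc] at hn
    by_cases he : e ∣ n
    · rw [if_pos he]
      by_cases ho : Odd n
      · rw [if_pos ho, jac_sq g hg r n (by omega)]
        refine sum_congr rfl fun f _ => ?_
        by_cases hf : f ∣ n
        · rw [if_pos hf, if_pos (Nat.lcm_dvd he hf), if_pos ho]
        · rw [if_neg hf, if_neg, mul_zero]
          intro h3
          exact hf ((Nat.dvd_lcm_right e f).trans h3)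
      · rw [if_neg ho]
        symm
        apply sum_eq_zero
        intro f _
        rw [if_neg ho]
        simp
    · rw [if_neg he]
      symm
      apply sum_eq_zero
      intro f _
      rw [if_neg, mul_zero]
      intro h3
      exact he ((Nat.dvd_lcm_left e f).trans h3)
  rw [h1]
  push_cast
  refine (abs_sum_le_sum_abs _ _).trans ?_
  calc ∑ f ∈ g.divisors, |((ArithmeticFunction.moebius f : ℤ) : ℝ) * (dsum r (Nat.lcm e f) u : ℝ)| ≤ ∑ _f ∈ g.divisors, B := by
        refine sum_le_sum fun f _ => ?_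
        rw [abs_mul]
        have h2 : |((ArithmeticFunction.moebius f : ℤ) : ℝ)| ≤ 1 := by
          have := ArithmeticFunction.abs_moebius_le_one (n := f)
          exact_mod_cast this
        have h3 := abs_dsum_le r (Nat.lcm e f) u B hB (h _ (Nat.div_le_self _ _))
        calc _ ≤ 1 * B := mul_le_mul h2 h3 (abs_nonneg _) zero_le_one
          _ = B := one_mul B
    _ = g.divisors.card * B := by rw [sum_const, nsmul_eq_mul]

/-- the majorant of the numbers without prime factors `≤ z` -/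
noncomputable def bet (l : ℕ → ℝ) (z n : ℕ) : ℝ := (∑ d ∈ Icc 1 z, if d ∣ n then l d else 0) ^ 2

lemma bet_nonneg (l : ℕ → ℝ) (z n : ℕ) : 0 ≤ bet l z n := sq_nonneg _

lemma bet_one (l : ℕ → ℝ) (z n : ℕ) (h1 : l 1 = 1) (hz : 1 ≤ z) (hn : n ≠ 0) (h : ∀ p : ℕ, p.Prime → p ∣ n → z < p) :
    bet l z n = 1 := by
  unfold bet
  have : (∑ d ∈ Icc 1 z, if d ∣ n then l d else 0) = 1 := by
    rw [sum_eq_single 1]
    · rw [if_pos (one_dvd n), h1]
    · intro d hd hd1
      rw [mem_Icc] at hd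
      rw [if_neg]
      intro hdn
      have h2 := h _ (Nat.minFac_prime hd1) ((Nat.minFac_dvd d).trans hdn)
      have h3 := Nat.minFac_le hd.1
      omega
    · intro h2
      exact absurd (mem_Icc.mpr ⟨le_rfl, hz⟩) h2
  rw [this]
  norm_num

lemma bet_expand (l : ℕ → ℝ) (z n : ℕ) :
    bet l z n = ∑ d ∈ Icc 1 z, ∑ e ∈ Icc 1 z, l d * l e * (if Nat.lcm d e ∣ n then 1 else 0) := by
  unfold bet
  rw [pow_two, sum_mul_sum]
  refine sum_congr rfl fun d _ => sum_congr rfl fun e _ => ?_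
  by_cases h1 : d ∣ n
  · by_cases h2 : e ∣ n
    · rw [if_pos h1, if_pos h2, if_pos (Nat.lcm_dvd h1 h2), mul_one]
    · rw [if_pos h1, if_neg h2, if_neg, mul_zero, mul_zero]
      intro h3
      exact h2 ((Nat.dvd_lcm_right d e).trans h3)
  · rw [if_neg h1, zero_mul, if_neg, mul_zero]
    intro h3
    exact h1 ((Nat.dvd_lcm_left d e).trans h3)

/-- the off-diagonal terms -/
lemma off_le (l : ℕ → ℝ) (hl : ∀ d, |l d| ≤ 1) (z N : ℕ) (g : ℕ) (hg : g ≠ 0) (r : ℤ) (B : ℝ) (hB : 0 ≤ B)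
    (h : ∀ v ≤ N, |(osum r v : ℝ)| ≤ B) :
    |∑ n ∈ Icc 1 N, bet l z n * ((if Odd n then jacobiSym ((g : ℤ) ^ 2 * r) n else 0 : ℤ) : ℝ)| ≤
      (z : ℝ) ^ 2 * (g.divisors.card * B) := by
  have h1 : ∑ n ∈ Icc 1 N, bet l z n * ((if Odd n then jacobiSym ((g : ℤ) ^ 2 * r) n else 0 : ℤ) : ℝ) =
      ∑ d ∈ Icc 1 z, ∑ e ∈ Icc 1 z, l d * l e * (dsum ((g : ℤ) ^ 2 * r) (Nat.lcm d e) N : ℝ) := by
    calc ∑ n ∈ Icc 1 N, bet l z n * ((if Odd n then jacobiSym ((g : ℤ) ^ 2 * r) n else 0 : ℤ) : ℝ)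
        = ∑ n ∈ Icc 1 N, ∑ d ∈ Icc 1 z, ∑ e ∈ Icc 1 z, l d * l e * (if Nat.lcm d e ∣ n then 1 else 0) *
            ((if Odd n then jacobiSym ((g : ℤ) ^ 2 * r) n else 0 : ℤ) : ℝ) := by
          refine sum_congr rfl fun n _ => ?_
          rw [bet_expand, sum_mul]
          refine sum_congr rfl fun d _ => ?_
          rw [sum_mul]
      _ = ∑ d ∈ Icc 1 z, ∑ n ∈ Icc 1 N, ∑ e ∈ Icc 1 z, l d * l e * (if Nat.lcm d e ∣ n then 1 else 0) *
            ((if Odd n then jacobiSym ((g : ℤ) ^ 2 * r) n else 0 : ℤ) : ℝ) := sum_comm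
      _ = ∑ d ∈ Icc 1 z, ∑ e ∈ Icc 1 z, l d * l e * (dsum ((g : ℤ) ^ 2 * r) (Nat.lcm d e) N : ℝ) := by
          refine sum_congr rfl fun d _ => ?_
          rw [sum_comm]
          refine sum_congr rfl fun e _ => ?_
          unfold dsum
          rw [Int.cast_sum, mul_sum]
          refine sum_congr rfl fun n _ => ?_
          by_cases hd : Nat.lcm d e ∣ n
          · rw [if_pos hd, if_pos hd, mul_one]
          · rw [if_neg hd, if_neg hd]
            push_cast
            ring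
  rw [h1]
  refine (abs_sum_le_sum_abs _ _).trans ?_
  calc ∑ d ∈ Icc 1 z, |∑ e ∈ Icc 1 z, l d * l e * (dsum ((g : ℤ) ^ 2 * r) (Nat.lcm d e) N : ℝ)|
      ≤ ∑ _d ∈ Icc 1 z, (z : ℝ) * (g.divisors.card * B) := by
        refine sum_le_sum fun d _ => (abs_sum_le_sum_abs _ _).trans ?_
        calc ∑ e ∈ Icc 1 z, |l d * l e * (dsum ((g : ℤ) ^ 2 * r) (Nat.lcm d e) N : ℝ)| ≤
              ∑ _e ∈ Icc 1 z, (g.divisors.card * B : ℝ) := by
              refine sum_le_sum fun e _ => ?_
              rw [abs_mul, abs_mul]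
              have h2 := abs_dsum_sq_le g hg r (Nat.lcm d e) N B hB h
              calc |l d| * |l e| * |(dsum ((g : ℤ) ^ 2 * r) (Nat.lcm d e) N : ℝ)| ≤
                    1 * 1 * (g.divisors.card * B) := by
                    apply mul_le_mul _ h2 (abs_nonneg _) (by norm_num)
                    exact mul_le_mul (hl d) (hl e) (abs_nonneg _) zero_le_one
                _ = _ := by ring
          _ = _ := by
              rw [sum_const, nsmul_eq_mul]
              simp
    _ = _ := by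
        rw [sum_const, nsmul_eq_mul]
        simp only [Nat.card_Icc, Nat.add_sub_cancel]
        ring

/-- the diagonal terms -/
lemma diag_le (l : ℕ → ℝ) (hl : ∀ d, |l d| ≤ 1) (z N : ℕ) :
    ∑ n ∈ Icc 1 N, bet l z n ≤ N * (∑ d ∈ Icc 1 z, ∑ e ∈ Icc 1 z, l d * l e / (Nat.lcm d e : ℝ)) + (z : ℝ) ^ 2 := by
  have h1 : ∑ n ∈ Icc 1 N, bet l z n =
      ∑ d ∈ Icc 1 z, ∑ e ∈ Icc 1 z, l d * l e * ((N / Nat.lcm d e : ℕ) : ℝ) := by
    calc ∑ n ∈ Icc 1 N, bet l z n
        = ∑ n ∈ Icc 1 N, ∑ d ∈ Icc 1 z, ∑ e ∈ Icc 1 z, l d * l e * (if Nat.lcm d e ∣ n then 1 else 0) :=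
          sum_congr rfl fun n _ => bet_expand l z n
      _ = ∑ d ∈ Icc 1 z, ∑ n ∈ Icc 1 N, ∑ e ∈ Icc 1 z, l d * l e * (if Nat.lcm d e ∣ n then 1 else 0) := sum_comm
      _ = _ := by
          refine sum_congr rfl fun d hd => ?_
          rw [sum_comm]
          refine sum_congr rfl fun e he => ?_
          rw [← mul_sum]
          congr 1
          rw [mem_Icc] at hd he
          have hpos : 0 < Nat.lcm d e := Nat.lcm_pos (by omega) (by omega)
          have h2 := sum_dvd (Nat.lcm d e) N hpos (fun _ => 1)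
          have h3 : (∑ n ∈ Icc 1 N, if Nat.lcm d e ∣ n then (1 : ℤ) else 0) = ((N / Nat.lcm d e : ℕ) : ℤ) := by
            rw [h2, sum_const, Nat.card_Icc, nsmul_eq_mul]
            simp
          have h4 : (((∑ n ∈ Icc 1 N, if Nat.lcm d e ∣ n then (1 : ℤ) else 0) : ℤ) : ℝ) = ((N / Nat.lcm d e : ℕ) : ℝ) := by
            rw [h3]
            exact Int.cast_natCast _
          rw [← h4]
          push_cast
          rfl
  rw [h1, mul_sum]
  have h2 : ∀ d ∈ Icc 1 z, ∑ e ∈ Icc 1 z, l d * l e * ((N / Nat.lcm d e : ℕ) : ℝ) ≤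
      (N : ℝ) * ∑ e ∈ Icc 1 z, l d * l e / (Nat.lcm d e : ℝ) + z := by
    intro d hd
    have h3 : ∀ e ∈ Icc 1 z, l d * l e * ((N / Nat.lcm d e : ℕ) : ℝ) ≤ (N : ℝ) * (l d * l e / (Nat.lcm d e : ℝ)) + 1 := by
      intro e he
      rw [mem_Icc] at hd he
      have hpos : 0 < Nat.lcm d e := Nat.lcm_pos (by omega) (by omega)
      have hpos' : (0 : ℝ) < (Nat.lcm d e : ℝ) := by exact_mod_cast hpos
      set t : ℝ := ((N / Nat.lcm d e : ℕ) : ℝ) with ht
      have h4 : t ≤ (N : ℝ) / (Nat.lcm d e : ℝ) := Nat.cast_div_le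
      have h5 : (N : ℝ) / (Nat.lcm d e : ℝ) ≤ t + 1 := by
        rw [div_le_iff₀ hpos']
        have := Nat.lt_div_mul_add (a := N) hpos
        have h6 : N ≤ (N / Nat.lcm d e + 1) * Nat.lcm d e := by nlinarith
        rw [ht]
        exact_mod_cast h6
      have h7 : |l d * l e| ≤ 1 := by
        rw [abs_mul]
        calc _ ≤ (1 : ℝ) * 1 := mul_le_mul (hl d) (hl e) (abs_nonneg _) zero_le_one
          _ = 1 := by norm_num
      have h8 : l d * l e * t - (N : ℝ) * (l d * l e / (Nat.lcm d e : ℝ)) = (l d * l e) * (t - (N : ℝ) / (Nat.lcm d e : ℝ)) := by ring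
      have h9 : |(l d * l e) * (t - (N : ℝ) / (Nat.lcm d e : ℝ))| ≤ 1 := by
        rw [abs_mul]
        calc _ ≤ (1 : ℝ) * 1 := mul_le_mul h7 (by rw [abs_le]; constructor <;> linarith) (abs_nonneg _) zero_le_one
          _ = 1 := by norm_num
      have h10 := (abs_le.mp h9).2
      linarith
    refine (sum_le_sum h3).trans (le_of_eq ?_)
    rw [sum_add_distrib, mul_sum]
    simp
  refine (sum_le_sum h2).trans (le_of_eq ?_)
  rw [sum_add_distrib]
  congr 1
  rw [sum_const, Nat.card_Icc, nsmul_eq_mul]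
  simp only [Nat.add_sub_cancel]
  ring

end Pool.Agent.D0H64.BT
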