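import Pool.Agent.D0H64.BT.Fa

set_option autoImplicit false
set_option maxHeartbeats 4000000

/-! Split and inert primes in terms of symbols. -/

namespace Pool.Agent.D0H64.BT

open Finset Filter

/-- `d` is `1` or the discriminant of a quadratic field -/
def Fund (d : ℤ) : Prop := (d % 4 = 1 ∧ Squarefree d) ∨ ∃ m : ℤ, d = 4 * m ∧ (m % 4 = 2 ∨ m % 4 = 3) ∧ Squarefree m

/-- the third field in the compositum is small -/
def Near (R : ℝ) (d e : ℤ) : Prop := ∃ n : ℤ, n ≠ 0 ∧ |(n : ℝ)| ≤ R ∧ IsSquare (d * e * n)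

def Splits (d : ℤ) (p : ℕ) : Prop := ¬ (p : ℤ) ∣ d ∧ ∃ x : ℤ, (4 * (p : ℤ)) ∣ x ^ 2 - d

def Inert (d : ℤ) (p : ℕ) : Prop := ¬ ∃ x : ℤ, (4 * (p : ℤ)) ∣ x ^ 2 - d

noncomputable def spl (Q : Set ℕ) (d : ℤ) (t : ℝ) : ℕ :=
  Set.ncard {p : ℕ | p.Prime ∧ p ∈ Q ∧ (p : ℝ) < t ∧ Splits d p}

noncomputable def ine (Q : Set ℕ) (d : ℤ) (t : ℝ) : ℕ :=
  Set.ncard {p : ℕ | p.Prime ∧ p ∈ Q ∧ (p : ℝ) < t ∧ Inert d p}

noncomputable def tot (Q : Set ℕ) (t : ℝ) : ℕ := Set.ncard {p : ℕ | p.Prime ∧ p ∈ Q ∧ (p : ℝ) < t}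

open Classical in
/-- the primes `p < t` in `Q` -/
noncomputable def PT (Q : Set ℕ) (t : ℝ) : Finset ℕ := (range ⌈t⌉₊).filter (fun p => p.Prime ∧ p ∈ Q)

open Classical in
lemma mem_PT {Q : Set ℕ} {t : ℝ} {p : ℕ} : p ∈ PT Q t ↔ p.Prime ∧ p ∈ Q ∧ (p : ℝ) < t := by
  unfold PT
  rw [mem_filter, mem_range, Nat.lt_ceil]
  tauto

open Classical in
/-- the odd primes `p < t` in `Q` -/
noncomputable def PO (Q : Set ℕ) (t : ℝ) : Finset ℕ := (PT Q t).filter (fun p => p ≠ 2)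

lemma tot_eq (Q : Set ℕ) (t : ℝ) : tot Q t = (PT Q t).card := by
  rw [← Set.ncard_coe_finset]
  unfold tot
  congr 1
  ext p
  rw [Finset.mem_coe, mem_PT]
  rfl

open Classical in
lemma spl_eq (Q : Set ℕ) (d : ℤ) (t : ℝ) : spl Q d t = ((PT Q t).filter (fun p => Splits d p)).card := by
  rw [← Set.ncard_coe_finset]
  unfold spl
  congr 1
  ext p
  rw [Finset.mem_coe, mem_filter, mem_PT]
  show _ ∧ _ ∧ _ ∧ _ ↔ _
  tauto

open Classical in
lemma ine_eq (Q : Set ℕ) (d : ℤ) (t : ℝ) : ine Q d t = ((PT Q t).filter (fun p => Inert d p)).card := by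
  rw [← Set.ncard_coe_finset]
  unfold ine
  congr 1
  ext p
  rw [Finset.mem_coe, mem_filter, mem_PT]
  show _ ∧ _ ∧ _ ∧ _ ↔ _
  tauto

lemma fund_mod {d : ℤ} (h : Fund d) : d % 4 = 0 ∨ d % 4 = 1 := by
  rcases h with h | ⟨m, hm, _⟩
  · exact Or.inr h.1
  · left
    rw [hm]
    exact Int.mul_emod_right 4 m

lemma fund_ne {d : ℤ} (h : Fund d) : d ≠ 0 := by
  rcases h with h | ⟨m, hm, hm2, _⟩
  · intro h0
    rw [h0] at h
    norm_num at h
  · rintro rfl
    have : m = 0 := by omega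
    rw [this] at hm2
    norm_num at hm2

lemma inert_iff (d : ℤ) (hd : d % 4 = 0 ∨ d % 4 = 1) (p : ℕ) (hp : p.Prime) (hp2 : p ≠ 2) :
    Inert d p ↔ jacobiSym d p = -1 := by
  have hs := Pool.Agent.Y549.SP.SPL.split_iff d hd p hp hp2
  have : Fact p.Prime := ⟨hp⟩
  have h0 : jacobiSym d p = 0 ↔ (p : ℤ) ∣ d := by
    rw [← jacobiSym.legendreSym.to_jacobiSym, legendreSym.eq_zero_iff, ZMod.intCast_zmod_eq_zero_iff_dvd]
  constructor
  · intro hi
    rcases jacobiSym.trichotomy d p with h | h | h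
    · exfalso
      apply hi
      have hpd := h0.mp h
      have hcop : IsCoprime (4 : ℤ) (p : ℤ) := by
        rw [show (4 : ℤ) = 2 ^ 2 by norm_num]
        apply IsCoprime.pow_left
        have : Nat.Coprime 2 p := (Nat.coprime_primes Nat.prime_two hp).mpr (Ne.symm hp2)
        exact_mod_cast Nat.isCoprime_iff_coprime.mpr this
      rcases hd with hd | hd
      · refine ⟨0, hcop.mul_dvd ?_ ?_⟩
        · omega
        · rw [zero_pow two_ne_zero, zero_sub, dvd_neg]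
          exact hpd
      · refine ⟨p, hcop.mul_dvd ?_ ?_⟩
        · have hpodd : (p : ℤ) % 2 = 1 := by
            have := hp.eq_two_or_odd
            omega
          obtain ⟨t, ht⟩ : ∃ t : ℤ, (p : ℤ) = 2 * t + 1 := ⟨(p : ℤ) / 2, by omega⟩
          obtain ⟨u, hu⟩ : ∃ u : ℤ, d = 4 * u + 1 := ⟨d / 4, by omega⟩
          rw [ht, hu]
          exact ⟨t ^ 2 + t - u, by ring⟩
        · apply dvd_sub _ hpd
          exact dvd_pow_self _ two_ne_zero
    · exact absurd (hs.mpr h).2 hi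
    · exact h
  · intro h hx
    have hnd : ¬ (p : ℤ) ∣ d := by
      intro h1
      rw [h0.mpr h1] at h
      norm_num at h
    have := hs.mp ⟨hnd, hx⟩
    rw [this] at h
    norm_num at h

/-- the squarefree part of a discriminant -/
lemma fund_sf {d : ℤ} (h : Fund d) : ∃ s j : ℤ, Squarefree s ∧ (j = 1 ∨ j = 2) ∧ d = j ^ 2 * s ∧ (j = 1 → s % 4 = 1) ∧
    (j = 2 → s % 4 ≠ 1) := by
  rcases h with h | ⟨m, hm, hm2, hm3⟩
  · exact ⟨d, 1, h.2, Or.inl rfl, by ring, fun _ => h.1, fun h => by norm_num at h⟩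
  · refine ⟨m, 2, hm3, Or.inr rfl, by rw [hm]; ring, fun h => by norm_num at h, fun _ => ?_⟩
    omega

open Classical in
lemma card_two (T : Finset ℕ) : ((T.filter (fun p => ¬ p ≠ 2)).card : ℝ) ≤ 1 := by
  have h6 : T.filter (fun p => ¬ p ≠ 2) ⊆ {2} := by
    intro p hp
    rw [mem_filter] at hp
    exact mem_singleton.mpr (not_not.mp hp.2)
  have := card_le_card h6
  rw [card_singleton] at this
  exact_mod_cast this

/-- the difference of the numbers of the split and the inert primes -/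
lemma spl_sub_ine (Q : Set ℕ) (d s j : ℤ) (hd : d % 4 = 0 ∨ d % 4 = 1) (hj : j = 1 ∨ j = 2) (hds : d = j ^ 2 * s) (t : ℝ) :
    |(spl Q d t : ℝ) - ine Q d t| ≤ |((∑ p ∈ PO Q t, jacobiSym s p : ℤ) : ℝ)| + 1 := by
  classical
  have e1 : (spl Q d t : ℝ) - ine Q d t = ∑ p ∈ PT Q t, ((if Splits d p then (1 : ℝ) else 0) - (if Inert d p then 1 else 0)) := by
    rw [spl_eq, ine_eq, sum_sub_distrib, ← sum_filter, ← sum_filter, sum_const, sum_const, nsmul_eq_mul,
      nsmul_eq_mul, mul_one, mul_one]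
  have e2 : ∑ p ∈ PT Q t, ((if Splits d p then (1 : ℝ) else 0) - (if Inert d p then 1 else 0)) =
      ∑ p ∈ PO Q t, ((if Splits d p then (1 : ℝ) else 0) - (if Inert d p then 1 else 0)) +
      ∑ p ∈ (PT Q t).filter (fun p => ¬ p ≠ 2), ((if Splits d p then (1 : ℝ) else 0) - (if Inert d p then 1 else 0)) :=
    (sum_filter_add_sum_filter_not _ _ _).symm
  have e3 : ∑ p ∈ PO Q t, ((if Splits d p then (1 : ℝ) else 0) - (if Inert d p then 1 else 0)) =
      ((∑ p ∈ PO Q t, jacobiSym s p : ℤ) : ℝ) := by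
    rw [Int.cast_sum]
    refine sum_congr rfl fun p hp => ?_
    unfold PO at hp
    rw [mem_filter, mem_PT] at hp
    obtain ⟨⟨hp1, _, _⟩, hp2⟩ := hp
    have h1 := Pool.Agent.Y549.SP.SPL.split_iff d hd p hp1 hp2
    have h2 := inert_iff d hd p hp1 hp2
    have h3 : jacobiSym d p = jacobiSym s p := by
      have hc : Int.gcd j p = 1 := by
        rcases hj with h | h
        · rw [h]
          simp
        · rw [h, Int.gcd_eq_natAbs, Int.natAbs_natCast]
          exact (Nat.coprime_primes Nat.prime_two hp1).mpr (Ne.symm hp2)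
      rw [hds, jacobiSym.mul_left, jacobiSym.pow_left, jacobiSym.sq_one hc, one_mul]
    rw [← h3]
    have h1' : Splits d p ↔ jacobiSym d p = 1 := h1
    rcases jacobiSym.trichotomy d p with h | h | h
    · rw [if_neg, if_neg, h]
      · norm_num
      · rw [h2, h]; norm_num
      · rw [h1', h]; norm_num
    · rw [if_pos (h1'.mpr h), if_neg, h]
      · norm_num
      · rw [h2, h]; norm_num
    · rw [if_neg, if_pos (h2.mpr h), h]
      · norm_num
      · rw [h1', h]; norm_num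
  have e4 : |∑ p ∈ (PT Q t).filter (fun p => ¬ p ≠ 2), ((if Splits d p then (1 : ℝ) else 0) - (if Inert d p then 1 else 0))| ≤ 1 := by
    refine (abs_sum_le_sum_abs _ _).trans ?_
    refine le_trans ?_ (card_two (PT Q t))
    rw [← mul_one ((((PT Q t).filter (fun p => ¬ p ≠ 2)).card : ℝ)), ← nsmul_eq_mul, ← sum_const]
    refine sum_le_sum fun p _ => ?_
    split_ifs <;> norm_num
  rw [e1, e2, e3]
  exact (abs_add_le _ _).trans (add_le_add le_rfl e4)

/-- the ramified primes -/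
lemma two_spl (Q : Set ℕ) (d : ℤ) (hd0 : d ≠ 0) (t : ℝ) :
    |2 * (spl Q d t : ℝ) - tot Q t| ≤ |(spl Q d t : ℝ) - ine Q d t| + 2 * Real.log |(d : ℝ)| := by
  classical
  have e1 : (2 * (spl Q d t : ℝ) - tot Q t) - ((spl Q d t : ℝ) - ine Q d t) =
      ∑ p ∈ PT Q t, (((if Splits d p then (1 : ℝ) else 0) + (if Inert d p then 1 else 0)) - 1) := by
    rw [spl_eq, ine_eq, tot_eq, sum_sub_distrib, sum_add_distrib, ← sum_filter, ← sum_filter, sum_const, sum_const, sum_const,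
      nsmul_eq_mul, nsmul_eq_mul, nsmul_eq_mul, mul_one, mul_one, mul_one]
    ring
  have e2 : |(2 * (spl Q d t : ℝ) - tot Q t) - ((spl Q d t : ℝ) - ine Q d t)| ≤ 2 * Real.log |(d : ℝ)| := by
    rw [e1]
    refine (abs_sum_le_sum_abs _ _).trans ?_
    calc ∑ p ∈ PT Q t, |((if Splits d p then (1 : ℝ) else 0) + (if Inert d p then 1 else 0)) - 1| ≤
          ∑ p ∈ PT Q t, (if (p : ℤ) ∣ d then (1 : ℝ) else 0) := by
          refine sum_le_sum fun p _ => ?_
          by_cases h1 : Splits d p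
          · have h2 : ¬ Inert d p := fun h => h h1.2
            rw [if_pos h1, if_neg h2]
            split_ifs <;> norm_num
          · by_cases h2 : Inert d p
            · rw [if_neg h1, if_pos h2]
              split_ifs <;> norm_num
            · have h3 : (p : ℤ) ∣ d := by
                by_contra h4
                exact h1 ⟨h4, not_not.mp h2⟩
              rw [if_neg h1, if_neg h2, if_pos h3]
              norm_num
      _ = (((PT Q t).filter (fun p : ℕ => (p : ℤ) ∣ d)).card : ℝ) := by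
          rw [← sum_filter, sum_const, nsmul_eq_mul, mul_one]
      _ ≤ (d.natAbs.primeFactors.card : ℝ) := by
          have h6 : (PT Q t).filter (fun p : ℕ => (p : ℤ) ∣ d) ⊆ d.natAbs.primeFactors := by
            intro p hp
            rw [mem_filter, mem_PT] at hp
            refine Nat.mem_primeFactors.mpr ⟨hp.1.1, ?_, Int.natAbs_ne_zero.mpr hd0⟩
            exact Int.natCast_dvd.mp hp.2
          exact_mod_cast card_le_card h6
      _ ≤ 2 * Real.log (d.natAbs : ℝ) := Pool.Agent.Y549.SP.SPL.card_primeFactors_le _ (Int.natAbs_ne_zero.mpr hd0)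
      _ = _ := by
          rw [Nat.cast_natAbs]
          push_cast
          rfl
  have h2 := abs_sub_abs_le_abs_sub (2 * (spl Q d t : ℝ) - tot Q t) ((spl Q d t : ℝ) - ine Q d t)
  linarith

lemma spl_add_ine (Q : Set ℕ) (d : ℤ) (t : ℝ) : spl Q d t + ine Q d t ≤ tot Q t := by
  classical
  rw [spl_eq, ine_eq, tot_eq, ← card_union_of_disjoint]
  · apply card_le_card
    intro p hp
    rw [mem_union, mem_filter, mem_filter] at hp
    rcases hp with h | h <;> exact h.1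
  · rw [disjoint_left]
    intro p hp hp'
    rw [mem_filter] at hp hp'
    exact hp'.2 hp.2.2

lemma sub_le_tot (Q : Set ℕ) (d : ℤ) (t : ℝ) : |(spl Q d t : ℝ) - ine Q d t| ≤ tot Q t := by
  have h := spl_add_ine Q d t
  have h1 : (spl Q d t : ℝ) + ine Q d t ≤ tot Q t := by exact_mod_cast h
  have h2 : (0 : ℝ) ≤ spl Q d t := Nat.cast_nonneg _
  have h3 : (0 : ℝ) ≤ ine Q d t := Nat.cast_nonneg _
  rw [abs_le]
  constructor <;> linarith

lemma two_le_tot (Q : Set ℕ) (d : ℤ) (t : ℝ) : |2 * (spl Q d t : ℝ) - tot Q t| ≤ tot Q t := by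
  have h := spl_add_ine Q d t
  have h1 : (spl Q d t : ℝ) + ine Q d t ≤ tot Q t := by exact_mod_cast h
  have h2 : (0 : ℝ) ≤ spl Q d t := Nat.cast_nonneg _
  have h3 : (0 : ℝ) ≤ ine Q d t := Nat.cast_nonneg _
  rw [abs_le]
  constructor <;> linarith

/-- the squarefree parts -/
lemma sf_fun (B : Finset ℤ) (hB : ∀ d ∈ B, Fund d) (R : ℝ)
    (hp : ∀ d ∈ B, ∀ e ∈ B, d ≠ e → Near R d e) :
    ∃ sf : ℤ → ℤ, Set.InjOn sf (B : Set ℤ) ∧ (∀ d ∈ B, Squarefree (sf d) ∧ ∃ j : ℤ, (j = 1 ∨ j = 2) ∧ d = j ^ 2 * sf d) ∧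
      ∀ s ∈ B.image sf, ∀ s' ∈ B.image sf, s ≠ s' → ∃ n : ℤ, n ≠ 0 ∧ |(n : ℝ)| ≤ R ∧ IsSquare (s * s' * n) := by
  classical
  have hex : ∀ d : ℤ, ∃ s j : ℤ, d ∈ B → Squarefree s ∧ (j = 1 ∨ j = 2) ∧ d = j ^ 2 * s ∧ (j = 1 → s % 4 = 1) ∧
    (j = 2 → s % 4 ≠ 1) := by
    intro d
    by_cases h : d ∈ B
    · obtain ⟨s, j, h1⟩ := fund_sf (hB d h)
      exact ⟨s, j, fun _ => h1⟩
    · exact ⟨1, 1, fun h' => absurd h' h⟩
  choose sf jf hsj using hex
  refine ⟨sf, ?_, ?_, ?_⟩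
  · intro d hd e he h
    obtain ⟨h1, h2, h3, h4, h5⟩ := hsj d hd
    obtain ⟨h1', h2', h3', h4', h5'⟩ := hsj e he
    have h' : sf d = sf e := h
    have hj : jf d = jf e := by
      rcases h2 with h2 | h2 <;> rcases h2' with h2' | h2'
      · rw [h2, h2']
      · exact absurd (h' ▸ h4 h2) (h5' h2')
      · exact absurd (h' ▸ h4' h2') (h5 h2)
      · rw [h2, h2']
    rw [h3, h3', h', hj]
  · intro d hd
    obtain ⟨h1, h2, h3, h4, h5⟩ := hsj d hd
    exact ⟨h1, jf d, h2, h3⟩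
  · intro s hs s' hs' hne
    obtain ⟨d, hd, rfl⟩ := mem_image.mp hs
    obtain ⟨e, he, rfl⟩ := mem_image.mp hs'
    obtain ⟨h1, h2, h3, h4, h5⟩ := hsj d hd
    obtain ⟨h1', h2', h3', h4', h5'⟩ := hsj e he
    have hde : d ≠ e := fun h => hne (by rw [h])
    obtain ⟨n, hn0, hnR, hsq⟩ := hp d hd e he hde
    refine ⟨n, hn0, hnR, ?_⟩
    have hj0 : jf d * jf e ≠ 0 := by
      apply mul_ne_zero
      · rcases h2 with h | h <;> rw [h] <;> norm_num
      · rcases h2' with h | h <;> rw [h] <;> norm_num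
    apply sq_cancel hj0
    have : (jf d * jf e) ^ 2 * (sf d * sf e * n) = d * e * n := by
      calc _ = (jf d ^ 2 * sf d) * (jf e ^ 2 * sf e) * n := by ring
        _ = d * e * n := by rw [← h3, ← h3']
    rw [this]
    exact hsq

end Pool.Agent.D0H64.BT
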