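import Pool.Agent.D0H64.BT.Cr

set_option autoImplicit false
set_option maxHeartbeats 4000000

/-! Duality: few `m` have a large sum of symbols over the primes of a set. -/

namespace Pool.Agent.D0H64.BT

open Finset Filter

lemma jac_prod {ι : Type} [DecidableEq ι] (a : ℤ) (s : Finset ι) (f : ι → ℕ) (hf : ∀ i ∈ s, f i ≠ 0) :
    jacobiSym a (∏ i ∈ s, f i) = ∏ i ∈ s, jacobiSym a (f i) := by
  induction s using Finset.induction_on with
  | empty => simp
  | insert i s hi ih =>
    rw [prod_insert hi, prod_insert hi, jacobiSym.mul_right' _ (hf i (mem_insert_self i s)), ih]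
    · intro j hj
      exact hf j (mem_insert_of_mem hj)
    · exact prod_ne_zero_iff.mpr fun j hj => hf j (mem_insert_of_mem hj)

lemma pow_sum (k : ℕ) (a : ℤ) (P : Finset ℕ) (hP : ∀ p ∈ P, p ≠ 0) :
    (∑ p ∈ P, jacobiSym a p) ^ k = ∑ f ∈ Fintype.piFinset (fun _ : Fin k => P), jacobiSym a (∏ i, f i) := by
  rw [sum_pow']
  refine sum_congr rfl fun f hf => ?_
  rw [Fintype.mem_piFinset] at hf
  rw [jac_prod a univ f (fun i _ => hP _ (hf i))]

/-- a product of `k` primes is the product of at most `k!` vectors -/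
lemma fib (k : ℕ) (P : Finset ℕ) (hP : ∀ p ∈ P, p.Prime) (n : ℕ) :
    ((Fintype.piFinset (fun _ : Fin k => P)).filter (fun f => ∏ i, f i = n)).card ≤ k.factorial := by
  classical
  rcases Finset.eq_empty_or_nonempty ((Fintype.piFinset (fun _ : Fin k => P)).filter (fun f => ∏ i, f i = n)) with h | ⟨f₀, hf₀⟩
  · rw [h, card_empty]
    exact Nat.zero_le _
  · have hsub : (Fintype.piFinset (fun _ : Fin k => P)).filter (fun f => ∏ i, f i = n) ⊆
        (univ : Finset (Equiv.Perm (Fin k))).image (fun σ : Equiv.Perm (Fin k) => f₀ ∘ (σ : Fin k → Fin k)) := by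
      intro f hf
      rw [mem_filter, Fintype.mem_piFinset] at hf hf₀
      rw [mem_image]
      have hp : ∀ g : Fin k → ℕ, (∀ i, g i ∈ P) → ∏ i, g i = n → (List.ofFn g).Perm n.primeFactorsList := by
        intro g hg hgn
        apply Nat.primeFactorsList_unique
        · rw [List.prod_ofFn, hgn]
        · intro p hp
          rw [List.mem_ofFn] at hp
          obtain ⟨i, hi⟩ := hp
          rw [← hi]
          exact hP _ (hg i)
      have h1 := (hp f hf.1 hf.2).trans (hp f₀ hf₀.1 hf₀.2).symm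
      have h2 : f ∘ Tuple.sort f = f₀ ∘ Tuple.sort f₀ := by
        apply List.ofFn_injective
        exact ((((Tuple.sort f).ofFn_comp_perm f).trans h1).trans ((Tuple.sort f₀).ofFn_comp_perm f₀).symm).eq_of_pairwise'
          (Tuple.monotone_sort f).sortedLE_ofFn.pairwise (Tuple.monotone_sort f₀).sortedLE_ofFn.pairwise
      refine ⟨(Tuple.sort f)⁻¹.trans (Tuple.sort f₀), mem_univ _, ?_⟩
      funext i
      have h3 := congrFun h2 ((Tuple.sort f)⁻¹ i)
      simp only [Function.comp] at h3 ⊢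
      rw [Equiv.trans_apply, ← h3]
      simp
    calc _ ≤ ((univ : Finset (Equiv.Perm (Fin k))).image (fun σ : Equiv.Perm (Fin k) => f₀ ∘ (σ : Fin k → Fin k))).card := card_le_card hsub
      _ ≤ (univ : Finset (Equiv.Perm (Fin k))).card := card_image_le
      _ = k.factorial := by rw [card_univ, Fintype.card_perm, Fintype.card_fin]

/-- the duality -/
theorem dual (k : ℕ) (P : Finset ℕ) (y z : ℕ) (hP : ∀ p ∈ P, p.Prime ∧ p ≠ 2 ∧ z < p ∧ p ≤ y) (hz : 1 ≤ z)
    (l : ℕ → ℝ) (h1 : l 1 = 1) (s₀ : ℤ) (M : Finset ℤ) (S ρ : ℝ) (hρ : 0 ≤ ρ)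
    (hS : ∑ n ∈ Icc 1 (y ^ k), bet l z n ≤ S)
    (hoff : ∀ m ∈ M, ∀ m' ∈ M, m ≠ m' → |∑ n ∈ Icc 1 (y ^ k), bet l z n *
      ((if Odd n then jacobiSym (m * m') n else 0 : ℤ) : ℝ)| ≤ ρ) :
    ∑ m ∈ M, ((∑ p ∈ P, jacobiSym (s₀ * m) p : ℤ) : ℝ) ^ (2 * k) ≤
      (P.card : ℝ) ^ k * k.factorial * (S + M.card * ρ) := by
  classical
  set F : ℤ → ℝ := fun m => ((∑ p ∈ P, jacobiSym (s₀ * m) p : ℤ) : ℝ) with hF
  set c : ℤ → ℝ := fun m => F m ^ k with hc
  set X : ℝ := ∑ m ∈ M, c m ^ 2 with hX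
  have hXe : ∑ m ∈ M, F m ^ (2 * k) = X := by
    rw [hX]
    refine sum_congr rfl fun m _ => ?_
    rw [hc]
    simp only
    rw [← pow_mul, mul_comm]
  show ∑ m ∈ M, F m ^ (2 * k) ≤ _
  rw [hXe]
  have hS0 : 0 ≤ S := (sum_nonneg fun n _ => bet_nonneg l z n).trans hS
  have hX0 : 0 ≤ X := sum_nonneg fun m _ => sq_nonneg _
  rcases hX0.eq_or_lt with hX00 | hXpos
  · rw [← hX00]
    positivity
  set T := Fintype.piFinset (fun _ : Fin k => P) with hT
  set A : ℕ → ℝ := fun n => ∑ m ∈ M, c m * ((jacobiSym m n : ℤ) : ℝ) with hA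
  have e1 : X = ∑ f ∈ T, ((jacobiSym s₀ (∏ i, f i) : ℤ) : ℝ) * A (∏ i, f i) := by
    have e2 : ∀ m ∈ M, c m ^ 2 = ∑ f ∈ T, c m * (((jacobiSym s₀ (∏ i, f i) : ℤ) : ℝ) * ((jacobiSym m (∏ i, f i) : ℤ) : ℝ)) := by
      intro m _
      rw [pow_two]
      nth_rewrite 2 [hc]
      simp only
      rw [hF]
      simp only
      rw [← Int.cast_pow, pow_sum k _ P (fun p hp => (hP p hp).1.ne_zero), Int.cast_sum, mul_sum]
      refine sum_congr rfl fun f _ => ?_
      rw [jacobiSym.mul_left]
      push_cast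
      ring
    rw [hX, sum_congr rfl e2, sum_comm]
    refine sum_congr rfl fun f _ => ?_
    rw [hA]
    simp only
    rw [mul_sum]
    refine sum_congr rfl fun m _ => ?_
    ring
  have e3 : X ≤ ∑ f ∈ T, |A (∏ i, f i)| := by
    rw [e1]
    refine sum_le_sum fun f _ => ?_
    have h2 : |((jacobiSym s₀ (∏ i, f i) : ℤ) : ℝ)| ≤ 1 := by
      rcases jacobiSym.trichotomy s₀ (∏ i, f i) with h | h | h <;> rw [h] <;> norm_num
    calc ((jacobiSym s₀ (∏ i, f i) : ℤ) : ℝ) * A (∏ i, f i) ≤
          |((jacobiSym s₀ (∏ i, f i) : ℤ) : ℝ) * A (∏ i, f i)| := le_abs_self _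
      _ = |((jacobiSym s₀ (∏ i, f i) : ℤ) : ℝ)| * |A (∏ i, f i)| := abs_mul _ _
      _ ≤ 1 * |A (∏ i, f i)| := mul_le_mul_of_nonneg_right h2 (abs_nonneg _)
      _ = _ := one_mul _
  have hTc : (T.card : ℝ) = (P.card : ℝ) ^ k := by
    rw [hT, Fintype.card_piFinset]
    simp
  have e4 : X ^ 2 ≤ (P.card : ℝ) ^ k * ∑ f ∈ T, A (∏ i, f i) ^ 2 := by
    calc X ^ 2 ≤ (∑ f ∈ T, |A (∏ i, f i)|) ^ 2 :=
          pow_le_pow_left₀ hX0 e3 2
      _ ≤ T.card * ∑ f ∈ T, |A (∏ i, f i)| ^ 2 := sq_sum_le_card_mul_sum_sq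
      _ = _ := by
          rw [hTc]
          simp only [sq_abs]
  set G : ℕ → ℝ := fun n => if Odd n then bet l z n * A n ^ 2 else 0 with hG
  have hG0 : ∀ n, 0 ≤ G n := by
    intro n
    rw [hG]
    simp only
    split_ifs
    · exact mul_nonneg (bet_nonneg l z n) (sq_nonneg _)
    · exact le_rfl
  have hfT : ∀ f ∈ T, ∏ i, f i ∈ Icc 1 (y ^ k) ∧ Odd (∏ i, f i) ∧ bet l z (∏ i, f i) = 1 := by
    intro f hf
    rw [hT, Fintype.mem_piFinset] at hf
    refine ⟨?_, ?_, ?_⟩
    · rw [mem_Icc]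
      constructor
      · exact Nat.one_le_iff_ne_zero.mpr (prod_ne_zero_iff.mpr fun i _ => (hP _ (hf i)).1.ne_zero)
      · calc ∏ i, f i ≤ ∏ _i : Fin k, y := prod_le_prod' fun i _ => (hP _ (hf i)).2.2.2
          _ = y ^ k := by simp
    · apply Nat.odd_iff.mpr
      by_contra hcon
      have h2 : 2 ∣ ∏ i, f i := by omega
      obtain ⟨i, _, hi⟩ := (Nat.prime_two.prime.dvd_finsetProd_iff _).mp h2
      have h3 := (Nat.prime_dvd_prime_iff_eq Nat.prime_two (hP _ (hf i)).1).mp hi
      exact (hP _ (hf i)).2.1 h3.symm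
    · apply bet_one l z _ h1 hz
      · exact prod_ne_zero_iff.mpr fun i _ => (hP _ (hf i)).1.ne_zero
      · intro p hp hpd
        obtain ⟨i, _, hi⟩ := (hp.prime.dvd_finsetProd_iff _).mp hpd
        have h3 := (Nat.prime_dvd_prime_iff_eq hp (hP _ (hf i)).1).mp hi
        rw [h3]
        exact (hP _ (hf i)).2.2.1
  have e5 : ∑ f ∈ T, A (∏ i, f i) ^ 2 ≤ k.factorial * ∑ n ∈ Icc 1 (y ^ k), G n := by
    calc ∑ f ∈ T, A (∏ i, f i) ^ 2 = ∑ f ∈ T, G (∏ i, f i) := by
          refine sum_congr rfl fun f hf => ?_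
          obtain ⟨_, h3, h4⟩ := hfT f hf
          rw [hG]
          simp only
          rw [if_pos h3, h4, one_mul]
      _ = ∑ n ∈ Icc 1 (y ^ k), ∑ f ∈ T.filter (fun f => ∏ i, f i = n), G (∏ i, f i) :=
          (sum_fiberwise_of_maps_to (fun f hf => (hfT f hf).1) _).symm
      _ ≤ ∑ n ∈ Icc 1 (y ^ k), (k.factorial : ℝ) * G n := by
          refine sum_le_sum fun n _ => ?_
          have h2 : ∑ f ∈ T.filter (fun f => ∏ i, f i = n), G (∏ i, f i) =
              ((T.filter (fun f => ∏ i, f i = n)).card : ℝ) * G n := by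
            rw [← nsmul_eq_mul, ← sum_const]
            refine sum_congr rfl fun f hf => ?_
            rw [(mem_filter.mp hf).2]
          rw [h2]
          apply mul_le_mul_of_nonneg_right _ (hG0 n)
          exact_mod_cast fib k P (fun p hp => (hP p hp).1) n
      _ = _ := by rw [mul_sum]
  have e6 : ∑ n ∈ Icc 1 (y ^ k), G n ≤ (S + M.card * ρ) * X := by
    have h2 : ∑ n ∈ Icc 1 (y ^ k), G n = ∑ m ∈ M, ∑ m' ∈ M, c m * c m' * ∑ n ∈ Icc 1 (y ^ k), bet l z n *
        ((if Odd n then jacobiSym (m * m') n else 0 : ℤ) : ℝ) := by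
      calc ∑ n ∈ Icc 1 (y ^ k), G n = ∑ n ∈ Icc 1 (y ^ k), ∑ m ∈ M, ∑ m' ∈ M, c m * c m' * (bet l z n *
            ((if Odd n then jacobiSym (m * m') n else 0 : ℤ) : ℝ)) := by
            refine sum_congr rfl fun n _ => ?_
            rw [hG]
            simp only
            by_cases ho : Odd n
            · rw [if_pos ho, hA]
              simp only
              rw [pow_two, sum_mul_sum, mul_sum]
              refine sum_congr rfl fun m _ => ?_
              rw [mul_sum]
              refine sum_congr rfl fun m' _ => ?_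
              rw [if_pos ho, jacobiSym.mul_left]
              push_cast
              ring
            · rw [if_neg ho]
              symm
              apply sum_eq_zero
              intro m _
              apply sum_eq_zero
              intro m' _
              rw [if_neg ho]
              simp
        _ = ∑ m ∈ M, ∑ n ∈ Icc 1 (y ^ k), ∑ m' ∈ M, c m * c m' * (bet l z n *
            ((if Odd n then jacobiSym (m * m') n else 0 : ℤ) : ℝ)) := sum_comm
        _ = _ := by
            refine sum_congr rfl fun m _ => ?_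
            rw [sum_comm]
            refine sum_congr rfl fun m' _ => ?_
            rw [mul_sum]
    rw [h2]
    calc ∑ m ∈ M, ∑ m' ∈ M, c m * c m' * ∑ n ∈ Icc 1 (y ^ k), bet l z n *
        ((if Odd n then jacobiSym (m * m') n else 0 : ℤ) : ℝ) ≤
          ∑ m ∈ M, ∑ m' ∈ M, ((if m = m' then S * c m ^ 2 else 0) + |c m| * |c m'| * ρ) := by
          refine sum_le_sum fun m hm => sum_le_sum fun m' hm' => ?_
          by_cases hmm : m = m'
          · rw [if_pos hmm, ← hmm]
            have h4 : ∑ n ∈ Icc 1 (y ^ k), bet l z n * ((if Odd n then jacobiSym (m * m) n else 0 : ℤ) : ℝ) ≤ S := by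
              refine le_trans (sum_le_sum fun n _ => ?_) hS
              have h4 : ((if Odd n then jacobiSym (m * m) n else 0 : ℤ) : ℝ) ≤ 1 := by
                split_ifs
                · rcases jacobiSym.trichotomy (m * m) n with h | h | h <;> rw [h] <;> norm_num
                · norm_num
              calc bet l z n * ((if Odd n then jacobiSym (m * m) n else 0 : ℤ) : ℝ) ≤ bet l z n * 1 :=
                    mul_le_mul_of_nonneg_left h4 (bet_nonneg l z n)
                _ = _ := mul_one _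
            have h5 : c m * c m * ∑ n ∈ Icc 1 (y ^ k), bet l z n * ((if Odd n then jacobiSym (m * m) n else 0 : ℤ) : ℝ) ≤
                c m * c m * S := mul_le_mul_of_nonneg_left h4 (mul_self_nonneg _)
            have h6 : 0 ≤ |c m| * |c m| * ρ := by positivity
            calc _ ≤ c m * c m * S := h5
              _ = S * c m ^ 2 := by ring
              _ ≤ _ := le_add_of_nonneg_right h6
          · rw [if_neg hmm, zero_add]
            have h3 := hoff m hm m' hm' hmm
            calc _ ≤ |c m * c m' * ∑ n ∈ Icc 1 (y ^ k), bet l z n * ((if Odd n then jacobiSym (m * m') n else 0 : ℤ) : ℝ)| := le_abs_self _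
              _ = |c m| * |c m'| * |∑ n ∈ Icc 1 (y ^ k), bet l z n * ((if Odd n then jacobiSym (m * m') n else 0 : ℤ) : ℝ)| := by
                  rw [abs_mul, abs_mul]
              _ ≤ |c m| * |c m'| * ρ := mul_le_mul_of_nonneg_left h3 (by positivity)
      _ = S * X + ρ * (∑ m ∈ M, |c m|) ^ 2 := by
          rw [hX, mul_sum, pow_two, sum_mul_sum, mul_sum, ← sum_add_distrib]
          refine sum_congr rfl fun m hm => ?_
          rw [sum_add_distrib, sum_ite_eq, if_pos hm, mul_sum]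
          congr 1
          refine sum_congr rfl fun m' _ => ?_
          ring
      _ ≤ S * X + ρ * (M.card * X) := by
          have h3 : (∑ m ∈ M, |c m|) ^ 2 ≤ M.card * ∑ m ∈ M, |c m| ^ 2 := sq_sum_le_card_mul_sum_sq
          simp only [sq_abs] at h3
          have h4 := mul_le_mul_of_nonneg_left h3 hρ
          linarith
      _ = _ := by ring
  have e7 : X * X ≤ X * ((P.card : ℝ) ^ k * k.factorial * (S + M.card * ρ)) := by
    calc X * X = X ^ 2 := (pow_two X).symm
      _ ≤ (P.card : ℝ) ^ k * ∑ f ∈ T, A (∏ i, f i) ^ 2 := e4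
      _ ≤ (P.card : ℝ) ^ k * (k.factorial * ((S + M.card * ρ) * X)) := by
          apply mul_le_mul_of_nonneg_left _ (by positivity)
          exact e5.trans (mul_le_mul_of_nonneg_left e6 (by positivity))
      _ = _ := by ring
  exact le_of_mul_le_mul_left e7 hXpos

end Pool.Agent.D0H64.BT
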