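import Pool.Agent.D0H64.BT.Co
import Pool.Agent.Y549.SP.SPL

set_option autoImplicit false
set_option maxHeartbeats 4000000

/-! The same for a set of squarefree integers. -/

namespace Pool.Agent.D0H64.BT

open Finset Filter

lemma sf_eq {s s' : ℤ} (hs : Squarefree s) (hs' : Squarefree s') (h : IsSquare (s * s')) : s = s' := by
  by_contra hne
  obtain ⟨g, r, hg0, -, hmm, hr, hr1⟩ := sf_pair hs hs' hne
  rw [hmm] at h
  have hgz : (g : ℤ) ≠ 0 := by exact_mod_cast hg0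
  obtain ⟨t, ht⟩ := sq_cancel hgz h
  have h1 : IsUnit t := hr t (by rw [ht])
  apply hr1
  rw [ht]
  rcases Int.isUnit_iff.mp h1 with h2 | h2 <;> rw [h2] <;> norm_num

/-- the twist of `s₀` which gives `s` -/
lemma exists_tw {s₀ s : ℤ} (h₀ : Squarefree s₀) (hs : Squarefree s) :
    ∃ m a : ℤ, Squarefree m ∧ a ≠ 0 ∧ a ∣ m ∧ s₀ * m = a ^ 2 * s ∧
      ∀ n : ℤ, n ≠ 0 → IsSquare (s₀ * s * n) → |(m : ℝ)| ≤ |(n : ℝ)| := by
  by_cases hne : s₀ = s
  · refine ⟨1, 1, squarefree_one, one_ne_zero, dvd_rfl, by rw [hne]; ring, fun n hn _ => ?_⟩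
    have h1 : (1 : ℤ) ≤ |n| := Int.one_le_abs hn
    have h2 : (1 : ℝ) ≤ |(n : ℝ)| := by exact_mod_cast h1
    simpa using h2
  · obtain ⟨g, r, hg0, ⟨a, ha⟩, hmm, hr, hr1⟩ := sf_pair h₀ hs hne
    have hgz : (g : ℤ) ≠ 0 := by exact_mod_cast hg0
    have ha0 : a ≠ 0 := by
      rintro rfl
      exact h₀.ne_zero (by rw [ha, mul_zero])
    have e1 : a * s = (g : ℤ) * r := by
      apply mul_left_cancel₀ hgz
      calc (g : ℤ) * (a * s) = (g * a) * s := by ring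
        _ = s₀ * s := by rw [← ha]
        _ = (g : ℤ) ^ 2 * r := hmm
        _ = _ := by ring
    have hcop : IsCoprime a (g : ℤ) := by
      have h1 : Squarefree ((g : ℤ) * a) := ha ▸ h₀
      exact (isRelPrime_iff_isCoprime.mp (squarefree_mul_iff.mp h1).1).symm
    refine ⟨r, a, hr, ha0, ?_, ?_, fun n hn hsq => sf_le hg0 hmm hr hn hsq⟩
    · exact hcop.dvd_of_dvd_mul_left (Dvd.intro s e1)
    · rw [ha]
      calc (g : ℤ) * a * r = a * (g * r) := by ring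
        _ = a * (a * s) := by rw [← e1]
        _ = _ := by ring

/-- the two sums differ by the number of the primes which divide `a` -/
lemma diff_le (P : Finset ℕ) (hP : ∀ p ∈ P, p.Prime) (s t m a : ℤ) (ha : a ∣ m) (hm : m ≠ 0) (h : t = a ^ 2 * s) :
    |((∑ p ∈ P, jacobiSym s p : ℤ) : ℝ)| ≤ |((∑ p ∈ P, jacobiSym t p : ℤ) : ℝ)| + 2 * Real.log |(m : ℝ)| := by
  have h1 : |((∑ p ∈ P, jacobiSym s p : ℤ) : ℝ) - ((∑ p ∈ P, jacobiSym t p : ℤ) : ℝ)| ≤ 2 * Real.log |(m : ℝ)| := by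
    rw [Int.cast_sum, Int.cast_sum, ← sum_sub_distrib]
    refine (abs_sum_le_sum_abs _ _).trans ?_
    calc ∑ p ∈ P, |((jacobiSym s p : ℤ) : ℝ) - ((jacobiSym t p : ℤ) : ℝ)| ≤ ∑ p ∈ P, (if (p : ℤ) ∣ m then (1 : ℝ) else 0) := by
          refine sum_le_sum fun p hp => ?_
          rw [h, jacobiSym.mul_left, jacobiSym.pow_left]
          split_ifs with hpm
          · have h2 : ((jacobiSym s p : ℤ) : ℝ) = 0 ∨ ((jacobiSym s p : ℤ) : ℝ) = 1 ∨ ((jacobiSym s p : ℤ) : ℝ) = -1 := by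
              rcases jacobiSym.trichotomy s p with h | h | h <;> rw [h] <;> norm_num
            have h3 : ((jacobiSym a p : ℤ) : ℝ) ^ 2 = 0 ∨ ((jacobiSym a p : ℤ) : ℝ) ^ 2 = 1 := by
              rcases jacobiSym.trichotomy a p with h | h | h <;> rw [h] <;> norm_num
            push_cast
            rcases h2 with h2 | h2 | h2 <;> rcases h3 with h3 | h3 <;> rw [h2, h3] <;> norm_num
          · have h3 : jacobiSym a p ^ 2 = 1 := by
              apply jacobiSym.sq_one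
              rw [← Int.isCoprime_iff_gcd_eq_one]
              have h4 : ¬ (p : ℤ) ∣ a := fun h5 => hpm (h5.trans ha)
              exact ((Prime.coprime_iff_not_dvd (Nat.prime_iff_prime_int.mp (hP p hp))).mpr h4).symm
            rw [h3, one_mul]
            simp
      _ = ((P.filter (fun p : ℕ => (p : ℤ) ∣ m)).card : ℝ) := by
          rw [← sum_filter, sum_const, nsmul_eq_mul, mul_one]
      _ ≤ (m.natAbs.primeFactors.card : ℝ) := by
          have h6 : P.filter (fun p : ℕ => (p : ℤ) ∣ m) ⊆ m.natAbs.primeFactors := by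
            intro p hp
            rw [mem_filter] at hp
            refine Nat.mem_primeFactors.mpr ⟨hP p hp.1, ?_, Int.natAbs_ne_zero.mpr hm⟩
            exact Int.natCast_dvd.mp hp.2
          exact_mod_cast card_le_card h6
      _ ≤ 2 * Real.log (m.natAbs : ℝ) := Pool.Agent.Y549.SP.SPL.card_primeFactors_le _ (Int.natAbs_ne_zero.mpr hm)
      _ = _ := by
          rw [Nat.cast_natAbs]
          push_cast
          rfl
  have h2 := abs_sub_abs_le_abs_sub ((∑ p ∈ P, jacobiSym s p : ℤ) : ℝ) ((∑ p ∈ P, jacobiSym t p : ℤ) : ℝ)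
  linarith

theorem fam (k : ℕ) (hk : 1 ≤ k) (δ : ℝ) (hδ : 0 < δ) : ∃ C c : ℝ, 0 < C ∧ 0 < c ∧ ∃ y₀ : ℕ, ∀ y : ℕ, y₀ ≤ y →
    ∀ (S : Finset ℤ), (∀ s ∈ S, Squarefree s) →
    (∀ s ∈ S, ∀ s' ∈ S, s ≠ s' → ∃ n : ℤ, n ≠ 0 ∧ |(n : ℝ)| ≤ (y : ℝ) ^ (4 * k - δ) ∧ IsSquare (s * s' * n)) →
    ∀ P : Finset ℕ, (∀ p ∈ P, p.Prime ∧ p ≠ 2 ∧ p ≤ y) → ∀ V : ℝ, 0 < V →
      (y : ℝ) ^ (1 - c) * P.card ≤ V ^ 2 → (∀ s ∈ S, V ≤ |((∑ p ∈ P, jacobiSym s p : ℤ) : ℝ)|) →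
      ∑ s ∈ S, ((∑ p ∈ P, jacobiSym s p : ℤ) : ℝ) ^ (2 * k) ≤ C * (y * P.card) ^ k / Real.log y := by
  classical
  obtain ⟨C, c, hC0, hc0, y₁, hcore⟩ := core k hk (4 * k) δ hδ
  set c' : ℝ := min (c / 2) (1 / 4) with hc'
  have hc'0 : 0 < c' := lt_min (by positivity) (by norm_num)
  have hc'1 : c' ≤ c / 2 := min_le_left _ _
  have hc'2 : c' ≤ 1 / 4 := min_le_right _ _
  refine ⟨4 ^ k * C, c', by positivity, hc'0, ?_⟩
  have tc : Tendsto (fun q : ℕ => (q : ℝ)) atTop atTop := tendsto_natCast_atTop_atTop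
  have f1 : ∀ᶠ x : ℝ in atTop, 4 ≤ x ^ (c / 2) :=
    (tendsto_rpow_atTop (by positivity : (0 : ℝ) < c / 2)).eventually_ge_atTop _
  have f2 : ∀ᶠ x : ℝ in atTop, 16 * k * Real.log x ≤ x ^ (3 / 4 : ℝ) := by
    have h1 := (isLittleO_log_rpow_atTop (show (0 : ℝ) < 3 / 4 by norm_num)).def
      (show (0 : ℝ) < 1 / (16 * k + 1) by positivity)
    filter_upwards [h1, eventually_ge_atTop 1] with x hx hx1
    have h3 : 0 ≤ Real.log x := Real.log_nonneg hx1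
    rw [Real.norm_eq_abs, Real.norm_eq_abs, abs_of_nonneg h3, abs_of_nonneg (by positivity), one_div,
      ← div_eq_inv_mul, le_div_iff₀ (by positivity)] at hx
    linarith
  obtain ⟨y₂, hy₂⟩ := eventually_atTop.mp ((tc.eventually f1).and ((tc.eventually f2).and (eventually_ge_atTop 3)))
  refine ⟨max y₁ y₂, fun y hy S hS hpair P hP V hV hVP hbad => ?_⟩
  obtain ⟨g1, g2, hy3⟩ := hy₂ y ((le_max_right _ _).trans hy)
  have hy1 : (1 : ℝ) ≤ y := by exact_mod_cast (by omega : 1 ≤ y)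
  have hy0 : (0 : ℝ) < y := by linarith
  have hly : 0 < Real.log y := Real.log_pos (by exact_mod_cast (by omega : 1 < y))
  rcases S.eq_empty_or_nonempty with hSe | ⟨s₀, hs₀⟩
  · rw [hSe, sum_empty]
    positivity
  have hPc : V ≤ P.card := by
    refine (hbad s₀ hs₀).trans ?_
    rw [Int.cast_sum]
    refine (abs_sum_le_sum_abs _ _).trans ?_
    calc ∑ p ∈ P, |((jacobiSym s₀ p : ℤ) : ℝ)| ≤ ∑ _p ∈ P, (1 : ℝ) := by
          refine sum_le_sum fun p _ => ?_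
          rcases jacobiSym.trichotomy s₀ p with h | h | h <;> rw [h] <;> norm_num
      _ = P.card := by simp
  have hV1 : (y : ℝ) ^ (1 - c') ≤ V := by
    have h1 : (y : ℝ) ^ (1 - c') * V ≤ V * V := by
      calc (y : ℝ) ^ (1 - c') * V ≤ (y : ℝ) ^ (1 - c') * P.card := mul_le_mul_of_nonneg_left hPc (by positivity)
        _ ≤ V ^ 2 := hVP
        _ = V * V := pow_two V
    exact le_of_mul_le_mul_right h1 hV
  have hV2 : 16 * k * Real.log y ≤ V := by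
    refine g2.trans (le_trans ?_ hV1)
    apply Real.rpow_le_rpow_of_exponent_le hy1
    linarith
  -- the twists
  have hex : ∀ s : ℤ, ∃ m a : ℤ, s ∈ S → Squarefree m ∧ a ≠ 0 ∧ a ∣ m ∧ s₀ * m = a ^ 2 * s ∧
      ∀ n : ℤ, n ≠ 0 → IsSquare (s₀ * s * n) → |(m : ℝ)| ≤ |(n : ℝ)| := by
    intro s
    by_cases h : s ∈ S
    · obtain ⟨m, a, h1⟩ := exists_tw (hS s₀ hs₀) (hS s h)
      exact ⟨m, a, fun _ => h1⟩
    · exact ⟨1, 1, fun h' => absurd h' h⟩
  choose mf af hma using hex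
  have hmle : ∀ s ∈ S, |(mf s : ℝ)| ≤ (y : ℝ) ^ (4 * (k : ℝ)) := by
    intro s hs
    obtain ⟨_, _, _, _, h5⟩ := hma s hs
    by_cases hne : s₀ = s
    · have h6 := h5 1 one_ne_zero ⟨s₀, by rw [← hne]; ring⟩
      refine h6.trans ?_
      push_cast
      rw [abs_one]
      exact Real.one_le_rpow hy1 (by positivity)
    · obtain ⟨n, hn0, hnle, hsq⟩ := hpair s₀ hs₀ s hs hne
      refine (h5 n hn0 hsq).trans (hnle.trans ?_)
      apply Real.rpow_le_rpow_of_exponent_le hy1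
      linarith
  have hinj : Set.InjOn mf (S : Set ℤ) := by
    intro s hs s' hs' h
    obtain ⟨h1, h2, h3, h4, _⟩ := hma s hs
    obtain ⟨h1', h2', h3', h4', _⟩ := hma s' hs'
    apply sf_eq (hS s hs) (hS s' hs')
    apply sq_cancel (a := af s * af s') (mul_ne_zero h2 h2')
    refine ⟨s₀ * mf s, ?_⟩
    calc (af s * af s') ^ 2 * (s * s') = (af s ^ 2 * s) * (af s' ^ 2 * s') := by ring
      _ = (s₀ * mf s) * (s₀ * mf s') := by rw [h4, h4']
      _ = _ := by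
          have h' : mf s = mf s' := h
          rw [← h']
  set M := S.image mf with hM
  have hMs : ∀ m ∈ M, Squarefree m ∧ |(m : ℝ)| ≤ (y : ℝ) ^ (4 * (k : ℝ)) := by
    intro m hm
    obtain ⟨s, hs, rfl⟩ := mem_image.mp hm
    exact ⟨(hma s hs).1, hmle s hs⟩
  have hMp : ∀ m ∈ M, ∀ m' ∈ M, m ≠ m' → ∃ n : ℤ, n ≠ 0 ∧ |(n : ℝ)| ≤ (y : ℝ) ^ (4 * k - δ) ∧ IsSquare (m * m' * n) := by
    intro m hm m' hm' hne
    obtain ⟨s, hs, rfl⟩ := mem_image.mp hm
    obtain ⟨s', hs', rfl⟩ := mem_image.mp hm'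
    have hne' : s ≠ s' := fun h => hne (by rw [h])
    obtain ⟨n, hn0, hnle, t, ht⟩ := hpair s hs s' hs' hne'
    obtain ⟨h1, h2, h3, h4, _⟩ := hma s hs
    obtain ⟨h1', h2', h3', h4', _⟩ := hma s' hs'
    refine ⟨n, hn0, hnle, ?_⟩
    apply sq_cancel (a := s₀) (hS s₀ hs₀).ne_zero
    refine ⟨af s * af s' * t, ?_⟩
    calc s₀ ^ 2 * (mf s * mf s' * n) = (s₀ * mf s) * (s₀ * mf s') * n := by ring
      _ = (af s ^ 2 * s) * (af s' ^ 2 * s') * n := by rw [h4, h4']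
      _ = (af s * af s') ^ 2 * (s * s' * n) := by ring
      _ = (af s * af s') ^ 2 * (t * t) := by rw [ht]
      _ = _ := by ring
  have hMb : ∀ m ∈ M, V / 2 ≤ |((∑ p ∈ P, jacobiSym (s₀ * m) p : ℤ) : ℝ)| := by
    intro m hm
    obtain ⟨s, hs, rfl⟩ := mem_image.mp hm
    obtain ⟨h1, h2, h3, h4, _⟩ := hma s hs
    have h5 := diff_le P (fun p hp => (hP p hp).1) s (s₀ * mf s) (mf s) (af s) h3 h1.ne_zero h4
    have h6 := hbad s hs
    have h7 : Real.log |(mf s : ℝ)| ≤ 4 * k * Real.log y := by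
      rw [← Real.log_rpow hy0]
      apply Real.log_le_log _ (hmle s hs)
      rw [abs_pos]
      exact_mod_cast h1.ne_zero
    linarith
  have hfin := hcore y ((le_max_left _ _).trans hy) s₀ M hMs hMp P hP (V / 2) (by positivity) (by
    calc (y : ℝ) ^ (1 - c) * P.card = (y : ℝ) ^ (1 - c) * 4 * P.card / 4 := by ring
      _ ≤ (y : ℝ) ^ (1 - c) * (y : ℝ) ^ (c / 2) * P.card / 4 := by gcongr
      _ = (y : ℝ) ^ (1 - c / 2) * P.card / 4 := by
          rw [← Real.rpow_add hy0]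
          congr 3
          ring
      _ ≤ (y : ℝ) ^ (1 - c') * P.card / 4 := by
          have : (y : ℝ) ^ (1 - c / 2) ≤ (y : ℝ) ^ (1 - c') := by
            apply Real.rpow_le_rpow_of_exponent_le hy1
            linarith
          gcongr
      _ ≤ V ^ 2 / 4 := by linarith
      _ = (V / 2) ^ 2 := by ring) hMb
  have hev : ∀ x : ℝ, x ^ (2 * k) = |x| ^ (2 * k) := fun x => ((even_two_mul k).pow_abs x).symm
  have hup : ∑ s ∈ S, ((∑ p ∈ P, jacobiSym s p : ℤ) : ℝ) ^ (2 * k) ≤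
      4 ^ k * ∑ m ∈ M, ((∑ p ∈ P, jacobiSym (s₀ * m) p : ℤ) : ℝ) ^ (2 * k) := by
    rw [hM, sum_image hinj, mul_sum]
    refine sum_le_sum fun s hs => ?_
    obtain ⟨h1, h2, h3, h4, _⟩ := hma s hs
    have h5 := diff_le P (fun p hp => (hP p hp).1) s (s₀ * mf s) (mf s) (af s) h3 h1.ne_zero h4
    have h6 := hMb (mf s) (mem_image_of_mem mf hs)
    have h7 : Real.log |(mf s : ℝ)| ≤ 4 * k * Real.log y := by
      rw [← Real.log_rpow hy0]
      apply Real.log_le_log _ (hmle s hs)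
      rw [abs_pos]
      exact_mod_cast h1.ne_zero
    have h8 : |((∑ p ∈ P, jacobiSym s p : ℤ) : ℝ)| ≤ 2 * |((∑ p ∈ P, jacobiSym (s₀ * mf s) p : ℤ) : ℝ)| := by linarith
    rw [hev, hev ((∑ p ∈ P, jacobiSym (s₀ * mf s) p : ℤ) : ℝ)]
    calc |((∑ p ∈ P, jacobiSym s p : ℤ) : ℝ)| ^ (2 * k) ≤ (2 * |((∑ p ∈ P, jacobiSym (s₀ * mf s) p : ℤ) : ℝ)|) ^ (2 * k) :=
          pow_le_pow_left₀ (abs_nonneg _) h8 _
      _ = 4 ^ k * |((∑ p ∈ P, jacobiSym (s₀ * mf s) p : ℤ) : ℝ)| ^ (2 * k) := by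
          rw [mul_pow, pow_mul 2 2 k]
          norm_num
  refine hup.trans ?_
  calc 4 ^ k * ∑ m ∈ M, ((∑ p ∈ P, jacobiSym (s₀ * m) p : ℤ) : ℝ) ^ (2 * k) ≤ 4 ^ k * (C * (y * P.card) ^ k / Real.log y) :=
        mul_le_mul_of_nonneg_left hfin (by positivity)
    _ = _ := by ring

end Pool.Agent.D0H64.BT
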