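import Pool.Agent.D0H64.BT.Pc

set_option autoImplicit false
set_option maxHeartbeats 4000000

/-! The splitting patterns of primes in several quadratic fields. -/

namespace Pool.Agent.D0H64.BT

open Finset Filter

/-- the number of the primes with a splitting pattern -/
noncomputable def pat {r : ℕ} (Q : Set ℕ) (t : ℝ) (e : Fin r → ℤ) (σ : Fin r → Bool) : ℕ :=
  Set.ncard {p : ℕ | p.Prime ∧ p ∈ Q ∧ (p : ℝ) < t ∧ ∀ i, if σ i then Splits (e i) p else Inert (e i) p}

/-- all patterns occur with the same frequency -/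
def Bal {r : ℕ} (Q : Set ℕ) (t η : ℝ) (e : Fin r → ℤ) : Prop :=
  ∀ σ : Fin r → Bool, |(pat Q t e σ : ℝ) - tot Q t / 2 ^ r| ≤ η * tot Q t

open Classical in
lemma pat_eq {r : ℕ} (Q : Set ℕ) (t : ℝ) (e : Fin r → ℤ) (σ : Fin r → Bool) :
    pat Q t e σ = ((PT Q t).filter (fun p => ∀ i, if σ i then Splits (e i) p else Inert (e i) p)).card := by
  rw [← Set.ncard_coe_finset]
  unfold pat
  congr 1
  ext p
  rw [Finset.mem_coe, mem_filter, mem_PT]
  show _ ∧ _ ∧ _ ∧ _ ↔ _
  tauto

lemma sf_part (n : ℤ) (hn : n ≠ 0) : ∃ s b : ℤ, Squarefree s ∧ b ≠ 0 ∧ n = b ^ 2 * s := by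
  obtain ⟨a, b, hab, ha⟩ := Nat.sq_mul_squarefree n.natAbs
  have hb0 : b ≠ 0 := by
    rintro rfl
    rw [zero_pow two_ne_zero, zero_mul] at hab
    exact hn (Int.natAbs_eq_zero.mp hab.symm)
  have haz : Squarefree (a : ℤ) := Int.squarefree_natCast.mpr ha
  rcases Int.natAbs_eq n with h | h
  · refine ⟨a, b, haz, by exact_mod_cast hb0, ?_⟩
    rw [h, ← hab]
    push_cast
    ring
  · refine ⟨-a, b, fun x hx => haz x (by rwa [dvd_neg] at hx), by exact_mod_cast hb0, ?_⟩
    rw [h, ← hab]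
    push_cast
    ring

lemma exists_fund (n : ℤ) (hn : n ≠ 0) : ∃ e : ℤ, Fund e ∧ IsSquare (n * e) := by
  obtain ⟨s, b, hs, hb, hns⟩ := sf_part n hn
  have h4 : s % 4 ≠ 0 := by
    intro h
    have h2 : (2 : ℤ) * 2 ∣ s := by omega
    have := hs 2 h2
    rw [Int.isUnit_iff] at this
    omega
  by_cases h1 : s % 4 = 1
  · refine ⟨s, Or.inl ⟨h1, hs⟩, b * s, ?_⟩
    rw [hns]
    ring
  · refine ⟨4 * s, Or.inr ⟨s, rfl, by omega, hs⟩, 2 * b * s, ?_⟩
    rw [hns]
    ring

lemma fund_psq {e : ℤ} (he : Fund e) {p : ℕ} (hp : p.Prime) (hp2 : p ≠ 2) : ¬ (p : ℤ) * p ∣ e := by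
  obtain ⟨s, j, hs, hj, hes, _⟩ := fund_sf he
  intro h
  have hc : IsCoprime ((p : ℤ) * p) (j ^ 2) := by
    rw [← pow_two]
    apply IsCoprime.pow
    rcases hj with h | h
    · rw [h]
      exact isCoprime_one_right
    · rw [h]
      have : Nat.Coprime p 2 := (Nat.coprime_primes hp Nat.prime_two).mpr hp2
      exact_mod_cast Nat.isCoprime_iff_coprime.mpr this
  rw [hes] at h
  have h1 : (p : ℤ) * p ∣ s := hc.dvd_of_dvd_mul_left h
  have h2 := hs _ h1
  rw [Int.isUnit_iff] at h2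
  have := hp.two_le
  omega

lemma sf_psq {s : ℤ} (hs : Squarefree s) {p : ℕ} (hp : p.Prime) : ¬ (p : ℤ) * p ∣ s := by
  intro h
  have h2 := hs _ h
  rw [Int.isUnit_iff] at h2
  have := hp.two_le
  omega

lemma jac_eq {p : ℕ} (hp : p.Prime) {a b : ℤ} (ha : ¬ (p : ℤ) ∣ a) (hb : ¬ (p : ℤ) * p ∣ b) (h : IsSquare (a * b)) :
    jacobiSym a p = jacobiSym b p ∧ (jacobiSym a p = 1 ∨ jacobiSym a p = -1) := by
  obtain ⟨z, hz⟩ := h
  have hpz : Prime (p : ℤ) := Nat.prime_iff_prime_int.mp hp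
  have hbp : ¬ (p : ℤ) ∣ b := by
    intro h1
    have h2 : (p : ℤ) ∣ z * z := hz ▸ h1.mul_left a
    have h3 : (p : ℤ) ∣ z := by
      rcases hpz.dvd_or_dvd h2 with h | h <;> exact h
    have h4 : (p : ℤ) * p ∣ a * b := hz ▸ mul_dvd_mul h3 h3
    apply hb
    have hc : IsCoprime ((p : ℤ) * p) a := by
      have : IsCoprime (p : ℤ) a := (Prime.coprime_iff_not_dvd hpz).mpr ha
      exact this.mul_left this
    exact hc.dvd_of_dvd_mul_left h4
  have hzp : ¬ (p : ℤ) ∣ z := by
    intro h1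
    have h2 : (p : ℤ) ∣ a * b := hz ▸ h1.mul_left z
    rcases hpz.dvd_or_dvd h2 with h | h
    · exact ha h
    · exact hbp h
  have hg : ∀ x : ℤ, ¬ (p : ℤ) ∣ x → jacobiSym x p = 1 ∨ jacobiSym x p = -1 := by
    intro x hx
    have h1 : jacobiSym x p ≠ 0 := by
      have : NeZero p := ⟨hp.ne_zero⟩
      rw [Ne, jacobiSym.eq_zero_iff_not_coprime]
      push Not
      rw [← Int.isCoprime_iff_gcd_eq_one]
      exact ((Prime.coprime_iff_not_dvd hpz).mpr hx).symm
    rcases jacobiSym.trichotomy x p with h | h | h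
    · exact absurd h h1
    · exact Or.inl h
    · exact Or.inr h
  have h1 : jacobiSym a p * jacobiSym b p = jacobiSym z p * jacobiSym z p := by
    rw [← jacobiSym.mul_left, ← jacobiSym.mul_left, hz]
  refine ⟨?_, hg a ha⟩
  rcases hg a ha with h | h <;> rcases hg b hbp with h' | h' <;> rcases hg z hzp with h'' | h'' <;>
    rw [h, h', h''] at h1 <;> rw [h, h'] <;> norm_num at h1

lemma jac_prodf {r : ℕ} (p : ℕ) (d : Fin r → ℤ) (S : Finset (Fin r)) :
    jacobiSym (∏ i ∈ S, d i) p = ∏ i ∈ S, jacobiSym (d i) p := by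
  classical
  induction S using Finset.induction_on with
  | empty => simp [jacobiSym.one_left]
  | insert a S ha ih => rw [prod_insert ha, prod_insert ha, jacobiSym.mul_left, ih]

/-- the indicator function of a pattern -/
lemma ind_prod {r : ℕ} (u : Fin r → ℝ) (hu : ∀ i, u i = 1 ∨ u i = -1) (σ : Fin r → Bool) [Decidable (∀ i, if σ i then u i = 1 else u i = -1)] :
    (if (∀ i, if σ i then u i = 1 else u i = -1) then (1 : ℝ) else 0) =
      (∑ S : Finset (Fin r), ∏ i ∈ S, ((if σ i then (1 : ℝ) else -1) * u i)) / 2 ^ r := by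
  classical
  have e1 : ∑ S : Finset (Fin r), ∏ i ∈ S, ((if σ i then (1 : ℝ) else -1) * u i) =
      ∏ i : Fin r, (1 + (if σ i then (1 : ℝ) else -1) * u i) := by
    rw [prod_one_add, powerset_univ]
  rw [e1]
  split_ifs with h
  · have h1 : ∀ i : Fin r, (1 + (if σ i then (1 : ℝ) else -1) * u i) = 2 := by
      intro i
      have := h i
      split_ifs at this ⊢ with h2
      · rw [this]; norm_num
      · rw [this]; norm_num
    rw [prod_congr rfl fun i _ => h1 i, prod_const, card_univ, Fintype.card_fin, div_self (by positivity)]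
  · push Not at h
    obtain ⟨i, hi⟩ := h
    have h1 : (1 + (if σ i then (1 : ℝ) else -1) * u i) = 0 := by
      split_ifs at hi ⊢ with h2
      · rcases hu i with h3 | h3
        · exact absurd h3 hi
        · rw [h3]; norm_num
      · rcases hu i with h3 | h3
        · rw [h3]; norm_num
        · exact absurd h3 hi
    rw [prod_eq_zero (mem_univ i) h1, zero_div]

/-- the number of the primes with a pattern in terms of sums of symbols -/
lemma pat_le {r : ℕ} (Q : Set ℕ) (t : ℝ) (e d : Fin r → ℤ) (he : ∀ i, Fund (e i) ∧ IsSquare (d i * e i)) (hd : ∀ i, d i ≠ 0)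
    (s : Finset (Fin r) → ℤ) (hs : ∀ S, Squarefree (s S) ∧ IsSquare ((∏ i ∈ S, d i) * s S)) (σ : Fin r → Bool) :
    |(pat Q t e σ : ℝ) - tot Q t / 2 ^ r| ≤
      (∑ S ∈ (univ : Finset (Finset (Fin r))).erase ∅, |((∑ p ∈ PO Q t, jacobiSym (s S) p : ℤ) : ℝ)|) / 2 ^ r +
      4 * (∑ i, Real.log |(d i : ℝ)|) + 1 := by
  classical
  set sg : Finset (Fin r) → ℝ := fun S => ∏ i ∈ S, (if σ i then (1 : ℝ) else -1) with hsg
  have hsg1 : ∀ S, |sg S| = 1 := by
    intro S
    rw [hsg]
    simp only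
    rw [abs_prod]
    apply prod_eq_one
    intro i _
    split_ifs <;> norm_num
  set f : ℕ → ℝ := fun p => (if (∀ i, if σ i then Splits (e i) p else Inert (e i) p) then (1 : ℝ) else 0) - 1 / 2 ^ r with hf
  set g : ℕ → ℝ := fun p => (∑ S ∈ (univ : Finset (Finset (Fin r))).erase ∅, sg S * ((jacobiSym (s S) p : ℤ) : ℝ)) / 2 ^ r with hg
  have hfb : ∀ p, |f p| ≤ 1 := by
    intro p
    have h1 : (1 : ℝ) / 2 ^ r ≤ 1 := by
      rw [div_le_one (by positivity)]
      exact one_le_pow₀ (by norm_num)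
    have h2 : (0 : ℝ) ≤ 1 / 2 ^ r := by positivity
    rw [hf]
    simp only
    rw [abs_le]
    split_ifs <;> constructor <;> linarith
  have hgb : ∀ p, |g p| ≤ 1 := by
    intro p
    rw [hg]
    simp only
    rw [abs_div, abs_of_pos (show (0 : ℝ) < 2 ^ r by positivity), div_le_one (by positivity)]
    refine (abs_sum_le_sum_abs _ _).trans ?_
    calc ∑ S ∈ (univ : Finset (Finset (Fin r))).erase ∅, |sg S * ((jacobiSym (s S) p : ℤ) : ℝ)| ≤
          ∑ S ∈ (univ : Finset (Finset (Fin r))), (1 : ℝ) := by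
          refine (sum_le_sum fun S _ => ?_).trans (sum_le_sum_of_subset_of_nonneg (erase_subset _ _) fun _ _ _ => zero_le_one)
          rw [abs_mul, hsg1, one_mul]
          rcases jacobiSym.trichotomy (s S) p with h | h | h <;> rw [h] <;> norm_num
      _ = 2 ^ r := by
          rw [sum_const, card_univ, Fintype.card_finset, Fintype.card_fin, nsmul_eq_mul, mul_one]
          push_cast
          rfl
  have hfg : ∀ p ∈ PO Q t, (∀ i, ¬ (p : ℤ) ∣ d i) → f p = g p := by
    intro p hp hpd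
    unfold PO at hp
    rw [mem_filter, mem_PT] at hp
    obtain ⟨⟨hp1, _, _⟩, hp2⟩ := hp
    have h1 : ∀ i, jacobiSym (d i) p = jacobiSym (e i) p ∧ (jacobiSym (d i) p = 1 ∨ jacobiSym (d i) p = -1) := fun i =>
      jac_eq hp1 (hpd i) (fund_psq (he i).1 hp1 hp2) (he i).2
    have h2 : ∀ S, jacobiSym (s S) p = ∏ i ∈ S, jacobiSym (d i) p := by
      intro S
      rw [← jac_prodf]
      refine (jac_eq hp1 ?_ (sf_psq (hs S).1 hp1) (hs S).2).1.symm
      intro h3
      obtain ⟨i, _, hi⟩ := (Prime.dvd_finsetProd_iff (Nat.prime_iff_prime_int.mp hp1) _).mp h3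
      exact hpd i hi
    have h3 : (∀ i, if σ i then Splits (e i) p else Inert (e i) p) ↔
        (∀ i, if σ i then ((jacobiSym (d i) p : ℤ) : ℝ) = 1 else ((jacobiSym (d i) p : ℤ) : ℝ) = -1) := by
      refine forall_congr' fun i => ?_
      have h4 := Pool.Agent.Y549.SP.SPL.split_iff (e i) (fund_mod (he i).1) p hp1 hp2
      have h4' : Splits (e i) p ↔ jacobiSym (e i) p = 1 := h4
      have h5 := inert_iff (e i) (fund_mod (he i).1) p hp1 hp2
      rw [h4', h5, ← (h1 i).1]
      split_ifs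
      · constructor
        · intro h; rw [h]; norm_num
        · intro h; exact_mod_cast h
      · constructor
        · intro h; rw [h]; norm_num
        · intro h; exact_mod_cast h
    have h6 := ind_prod (fun i => ((jacobiSym (d i) p : ℤ) : ℝ)) (fun i => by
      rcases (h1 i).2 with h | h
      · left; rw [h]; norm_num
      · right; rw [h]; norm_num) σ
    rw [hf, hg]
    simp only
    have h7 : (if (∀ i, if σ i then Splits (e i) p else Inert (e i) p) then (1 : ℝ) else 0) =
        (if (∀ i, if σ i then ((jacobiSym (d i) p : ℤ) : ℝ) = 1 else ((jacobiSym (d i) p : ℤ) : ℝ) = -1) then (1 : ℝ) else 0) := by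
      by_cases h8 : (∀ i, if σ i then Splits (e i) p else Inert (e i) p)
      · rw [if_pos h8, if_pos (h3.mp h8)]
      · rw [if_neg h8, if_neg (fun h9 => h8 (h3.mpr h9))]
    rw [h7, h6, ← sum_erase_add _ _ (mem_univ (∅ : Finset (Fin r))), prod_empty, add_div, add_sub_cancel_right]
    congr 1
    refine sum_congr rfl fun S _ => ?_
    rw [prod_mul_distrib, h2 S]
    push_cast
    rfl
  have e1 : (pat Q t e σ : ℝ) - tot Q t / 2 ^ r = ∑ p ∈ PT Q t, f p := by
    rw [pat_eq, tot_eq, hf]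
    simp only
    rw [sum_sub_distrib, ← sum_filter, sum_const, sum_const, nsmul_eq_mul, nsmul_eq_mul, mul_one]
    ring
  have e2 : ∑ p ∈ PT Q t, f p = ∑ p ∈ PO Q t, f p + ∑ p ∈ (PT Q t).filter (fun p => ¬ p ≠ 2), f p :=
    (sum_filter_add_sum_filter_not _ _ _).symm
  have e3 : |∑ p ∈ (PT Q t).filter (fun p => ¬ p ≠ 2), f p| ≤ 1 := by
    refine (abs_sum_le_sum_abs _ _).trans ?_
    refine le_trans ?_ (card_two (PT Q t))
    rw [← mul_one ((((PT Q t).filter (fun p => ¬ p ≠ 2)).card : ℝ)), ← nsmul_eq_mul, ← sum_const]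
    exact sum_le_sum fun p _ => hfb p
  have e4 : |∑ p ∈ PO Q t, f p - ∑ p ∈ PO Q t, g p| ≤ 4 * ∑ i, Real.log |(d i : ℝ)| := by
    rw [← sum_sub_distrib]
    refine (abs_sum_le_sum_abs _ _).trans ?_
    calc ∑ p ∈ PO Q t, |f p - g p| ≤ ∑ p ∈ PO Q t, ∑ i, (if (p : ℤ) ∣ d i then (2 : ℝ) else 0) := by
          refine sum_le_sum fun p hp => ?_
          by_cases h : ∀ i, ¬ (p : ℤ) ∣ d i
          · rw [hfg p hp h, sub_self, abs_zero]
            exact sum_nonneg fun i _ => by split_ifs <;> norm_num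
          · push Not at h
            obtain ⟨i, hi⟩ := h
            have h1 : |f p - g p| ≤ 2 := (abs_sub _ _).trans (by linarith [hfb p, hgb p])
            refine h1.trans ?_
            have h0 : ∀ j ∈ (univ : Finset (Fin r)), (0 : ℝ) ≤ (fun j => if (p : ℤ) ∣ d j then (2 : ℝ) else 0) j := by
              intro j _
              simp only
              split_ifs <;> norm_num
            have h2 := single_le_sum h0 (mem_univ i)
            rw [if_pos hi] at h2
            exact h2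
      _ = ∑ i, ∑ p ∈ PO Q t, (if (p : ℤ) ∣ d i then (2 : ℝ) else 0) := sum_comm
      _ ≤ ∑ i, 4 * Real.log |(d i : ℝ)| := by
          refine sum_le_sum fun i _ => ?_
          rw [← sum_filter, sum_const, nsmul_eq_mul]
          have h5 : (((PO Q t).filter (fun p : ℕ => (p : ℤ) ∣ d i)).card : ℝ) ≤ 2 * Real.log |(d i : ℝ)| := by
            calc (((PO Q t).filter (fun p : ℕ => (p : ℤ) ∣ d i)).card : ℝ) ≤ ((d i).natAbs.primeFactors.card : ℝ) := by
                  have h6 : (PO Q t).filter (fun p : ℕ => (p : ℤ) ∣ d i) ⊆ (d i).natAbs.primeFactors := by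
                    intro p hp
                    unfold PO at hp
                    rw [mem_filter, mem_filter, mem_PT] at hp
                    refine Nat.mem_primeFactors.mpr ⟨hp.1.1.1, ?_, Int.natAbs_ne_zero.mpr (hd i)⟩
                    exact Int.natCast_dvd.mp hp.2
                  exact_mod_cast card_le_card h6
              _ ≤ 2 * Real.log ((d i).natAbs : ℝ) :=
                  Pool.Agent.Y549.SP.SPL.card_primeFactors_le _ (Int.natAbs_ne_zero.mpr (hd i))
              _ = _ := by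
                  rw [Nat.cast_natAbs]
                  push_cast
                  rfl
          linarith
      _ = _ := by rw [mul_sum]
  have e5 : |∑ p ∈ PO Q t, g p| ≤
      (∑ S ∈ (univ : Finset (Finset (Fin r))).erase ∅, |((∑ p ∈ PO Q t, jacobiSym (s S) p : ℤ) : ℝ)|) / 2 ^ r := by
    have h1 : ∑ p ∈ PO Q t, g p = (∑ S ∈ (univ : Finset (Finset (Fin r))).erase ∅,
        sg S * ((∑ p ∈ PO Q t, jacobiSym (s S) p : ℤ) : ℝ)) / 2 ^ r := by
      rw [hg]
      simp only
      rw [← sum_div, sum_comm]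
      congr 1
      refine sum_congr rfl fun S _ => ?_
      rw [Int.cast_sum, mul_sum]
    rw [h1, abs_div, abs_of_pos (show (0 : ℝ) < 2 ^ r by positivity)]
    apply div_le_div_of_nonneg_right _ (by positivity)
    refine (abs_sum_le_sum_abs _ _).trans (sum_le_sum fun S _ => ?_)
    rw [abs_mul, hsg1, one_mul]
  rw [e1, e2]
  have h1 := abs_add_le (∑ p ∈ PO Q t, f p) (∑ p ∈ (PT Q t).filter (fun p => ¬ p ≠ 2), f p)
  have h2 := abs_sub_abs_le_abs_sub (∑ p ∈ PO Q t, f p) (∑ p ∈ PO Q t, g p)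
  linarith

end Pool.Agent.D0H64.BT
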