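import Pool.Agent.D0H64.BT.Jo

set_option autoImplicit false
set_option maxHeartbeats 4000000

/-! The number of the tuples of twists whose splitting patterns are not uniformly distributed. -/

namespace Pool.Agent.D0H64.BT

open Finset Filter

lemma prod_le_all {r : ℕ} (m : Fin r → ℕ) (hm : ∀ i, m i ≠ 0) (S : Finset (Fin r)) : ∏ i ∈ S, m i ≤ ∏ i, m i := by
  classical
  apply Nat.le_of_dvd (Nat.pos_of_ne_zero (prod_ne_zero_iff.mpr fun i _ => hm i))
  exact prod_dvd_prod_of_subset _ _ _ (subset_univ S)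

theorem joint (r k : ℕ) (hk : 1 ≤ k) (δ : ℝ) (hδ : 0 < δ) : ∃ C c t₀ : ℝ, 0 < C ∧ 0 < c ∧ ∀ t : ℝ, t₀ ≤ t →
    ∀ (Q : Set ℕ) (η : ℝ), t ^ (-c) ≤ η → t ^ (1 - c) ≤ tot Q t →
    ∀ d : Fin r → ℤ, (∀ i, d i ≠ 0 ∧ |(d i : ℝ)| ≤ Real.exp (t ^ (1 - δ))) →
    ∀ M : Finset (Fin r → ℕ), (∀ m ∈ M, (∀ i, Squarefree (m i)) ∧ ∏ i, (m i : ℝ) ≤ t ^ (2 * k - δ) ∧
      ¬ ∃ e : Fin r → ℤ, (∀ i, Fund (e i) ∧ IsSquare (d i * m i * e i)) ∧ Bal Q t η e) →
    (M.card : ℝ) ≤ C * (t / (η ^ 2 * tot Q t)) ^ k / Real.log t *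
      ∑ i, ((M.image fun m => Function.update m i 1).card : ℝ) := by
  classical
  obtain ⟨C, c, hC, hc, hc4, t₁, hmid⟩ := mid k hk δ hδ
  set c' : ℝ := min (c / 3) (min (δ / 4) (1 / 4)) with hc'
  have hc'0 : 0 < c' := lt_min (by positivity) (lt_min (by positivity) (by norm_num))
  have hc'1 : c' ≤ c / 3 := min_le_left _ _
  have hc'2 : c' ≤ δ / 4 := (min_le_right _ _).trans (min_le_left _ _)
  have hc'3 : c' ≤ 1 / 4 := (min_le_right _ _).trans (min_le_right _ _)
  refine ⟨2 ^ r * (4 ^ k * C), c', ?_⟩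
  have f1 : ∀ᶠ x : ℝ in atTop, 64 * (r : ℝ) ≤ x ^ (δ / 2) :=
    (tendsto_rpow_atTop (by positivity : (0 : ℝ) < δ / 2)).eventually_ge_atTop _
  have f2 : ∀ᶠ x : ℝ in atTop, 64 * k * Real.log x + 16 ≤ x ^ (1 / 2 : ℝ) := by
    have h1 := (isLittleO_log_rpow_atTop (show (0 : ℝ) < 1 / 2 by norm_num)).def
      (show (0 : ℝ) < 1 / (128 * k + 128) by positivity)
    filter_upwards [h1, eventually_ge_atTop (Real.exp 1)] with x hx hx1
    have h3 : 1 ≤ Real.log x := by
      rw [Real.le_log_iff_exp_le (lt_of_lt_of_le (Real.exp_pos 1) hx1)]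
      exact hx1
    have hx0 : 0 < x := lt_of_lt_of_le (Real.exp_pos 1) hx1
    rw [Real.norm_eq_abs, Real.norm_eq_abs, abs_of_nonneg (by linarith), abs_of_nonneg (by positivity), one_div,
      ← div_eq_inv_mul, le_div_iff₀ (by positivity)] at hx
    have h4 : (0 : ℝ) ≤ k := Nat.cast_nonneg _
    nlinarith
  obtain ⟨t₂, ht₂⟩ := eventually_atTop.mp (f1.and (f2.and (eventually_ge_atTop (max t₁ 2))))
  refine ⟨t₂, by positivity, hc'0, fun t ht Q η hη hQ d hd M hM => ?_⟩
  obtain ⟨g1, g2, g3⟩ := ht₂ t ht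
  have htt1 : t₁ ≤ t := (le_max_left _ _).trans g3
  have ht2 : 2 ≤ t := (le_max_right _ _).trans g3
  have ht0 : 0 < t := by linarith
  have ht1 : 1 ≤ t := by linarith
  have hlt : 0 < Real.log t := Real.log_pos (by linarith)
  have hη0 : 0 < η := lt_of_lt_of_le (by positivity) hη
  set T : ℝ := (tot Q t : ℝ) with hT
  have hT0 : 0 < T := lt_of_lt_of_le (by positivity) hQ
  have hcond : t ^ (1 - c) ≤ η ^ 2 * T := by
    calc t ^ (1 - c) ≤ t ^ (1 - 3 * c') := by
          apply Real.rpow_le_rpow_of_exponent_le ht1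
          linarith
      _ = (t ^ (-c')) ^ 2 * t ^ (1 - c') := by
          rw [← Real.rpow_natCast, ← Real.rpow_mul ht0.le, ← Real.rpow_add ht0]
          congr 1
          push_cast
          ring
      _ ≤ η ^ 2 * T := by gcongr
  have hηT : t ^ (1 - 2 * c') ≤ η * T := by
    calc t ^ (1 - 2 * c') = t ^ (-c') * t ^ (1 - c') := by
          rw [← Real.rpow_add ht0]
          congr 1
          ring
      _ ≤ η * T := by gcongr
  have hηT1 : t ^ (1 / 2 : ℝ) ≤ η * T := by
    refine le_trans ?_ hηT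
    apply Real.rpow_le_rpow_of_exponent_le ht1
    linarith
  have hηT2 : 64 * r * t ^ (1 - δ) ≤ η * T := by
    calc 64 * (r : ℝ) * t ^ (1 - δ) ≤ t ^ (δ / 2) * t ^ (1 - δ) := by gcongr
      _ = t ^ (1 - δ / 2) := by
          rw [← Real.rpow_add ht0]
          congr 1
          ring
      _ ≤ t ^ (1 - 2 * c') := by
          apply Real.rpow_le_rpow_of_exponent_le ht1
          linarith
      _ ≤ _ := hηT
  -- squarefree parts
  have hex : ∀ n : ℤ, ∃ s : ℤ, n ≠ 0 → Squarefree s ∧ IsSquare (n * s) := by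
    intro n
    by_cases hn : n = 0
    · exact ⟨1, fun h => absurd hn h⟩
    · obtain ⟨s, b, hs, hb, hns⟩ := sf_part n hn
      exact ⟨s, fun _ => ⟨hs, b * s, by rw [hns]; ring⟩⟩
  choose sf hsf using hex
  set s : Finset (Fin r) → (Fin r → ℕ) → ℤ := fun S m => sf (∏ i ∈ S, (d i * m i)) with hsdef
  have hm0 : ∀ m ∈ M, ∀ i, m i ≠ 0 := fun m hm i => ((hM m hm).1 i).ne_zero
  have hdm : ∀ m ∈ M, ∀ i, d i * (m i : ℤ) ≠ 0 := fun m hm i =>
    mul_ne_zero (hd i).1 (by exact_mod_cast hm0 m hm i)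
  have hs : ∀ S, ∀ m ∈ M, Squarefree (s S m) ∧ IsSquare ((∏ i ∈ S, (d i * (m i : ℤ))) * s S m) := by
    intro S m hm
    exact hsf _ (prod_ne_zero_iff.mpr fun i _ => hdm m hm i)
  clear_value s
  have hd1 : ∀ i, Real.log |(d i : ℝ)| ≤ t ^ (1 - δ) := by
    intro i
    rw [Real.log_le_iff_le_exp (abs_pos.mpr (by exact_mod_cast (hd i).1))]
    exact (hd i).2
  -- every tuple has a large sum
  have hlarge : ∀ m ∈ M, ∃ S ∈ (univ : Finset (Finset (Fin r))).erase ∅,
      η * T / 2 ≤ |((∑ p ∈ PO Q t, jacobiSym (s S m) p : ℤ) : ℝ)| := by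
    intro m hm
    by_contra hcon
    push Not at hcon
    obtain ⟨h1, h2, h3⟩ := hM m hm
    have h4 : ∀ i, ∃ e : ℤ, Fund e ∧ IsSquare (d i * m i * e) := fun i => exists_fund _ (hdm m hm i)
    choose e he using h4
    apply h3
    refine ⟨e, he, fun σ => ?_⟩
    have h5 := pat_le Q t e (fun i => d i * (m i : ℤ)) he (hdm m hm) (fun S => s S m) (fun S => hs S m hm) σ
    have h6 : (∑ S ∈ (univ : Finset (Finset (Fin r))).erase ∅, |((∑ p ∈ PO Q t, jacobiSym (s S m) p : ℤ) : ℝ)|) / 2 ^ r ≤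
        η * T / 2 := by
      rw [div_le_iff₀ (by positivity)]
      calc ∑ S ∈ (univ : Finset (Finset (Fin r))).erase ∅, |((∑ p ∈ PO Q t, jacobiSym (s S m) p : ℤ) : ℝ)| ≤
            ∑ S ∈ (univ : Finset (Finset (Fin r))).erase ∅, η * T / 2 := sum_le_sum fun S hS => (hcon S hS).le
        _ ≤ ∑ S : Finset (Fin r), η * T / 2 :=
            sum_le_sum_of_subset_of_nonneg (erase_subset _ _) fun _ _ _ => by positivity
        _ = _ := by
            rw [sum_const, card_univ, Fintype.card_finset, Fintype.card_fin, nsmul_eq_mul]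
            push_cast
            ring
    have h7 : ∑ i, Real.log |((d i * (m i : ℤ) : ℤ) : ℝ)| ≤ r * t ^ (1 - δ) + 2 * k * Real.log t := by
      have h8 : ∀ i, Real.log |((d i * (m i : ℤ) : ℤ) : ℝ)| = Real.log |(d i : ℝ)| + Real.log (m i : ℝ) := by
        intro i
        push_cast
        rw [abs_mul, Real.log_mul (abs_ne_zero.mpr (by exact_mod_cast (hd i).1))
          (abs_ne_zero.mpr (by exact_mod_cast hm0 m hm i)), Nat.abs_cast]
      rw [sum_congr rfl fun i _ => h8 i, sum_add_distrib]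
      apply add_le_add
      · calc ∑ i, Real.log |(d i : ℝ)| ≤ ∑ _i : Fin r, t ^ (1 - δ) := sum_le_sum fun i _ => hd1 i
          _ = _ := by rw [sum_const, card_univ, Fintype.card_fin, nsmul_eq_mul]
      · rw [← Real.log_prod (fun i _ => by exact_mod_cast hm0 m hm i)]
        have h9 : Real.log (∏ i, (m i : ℝ)) ≤ Real.log (t ^ (2 * k - δ)) := by
          apply Real.log_le_log _ h2
          apply prod_pos
          intro i _
          exact_mod_cast Nat.pos_of_ne_zero (hm0 m hm i)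
        rw [Real.log_rpow ht0] at h9
        nlinarith
    have h8 : 4 * (∑ i, Real.log |((d i * (m i : ℤ) : ℤ) : ℝ)|) + 1 ≤ η * T / 2 := by
      have : (0 : ℝ) ≤ r * t ^ (1 - δ) := by positivity
      nlinarith
    refine h5.trans ?_
    linarith
  -- the tuples which belong to a set of coordinates
  set MS : Finset (Fin r) → Finset (Fin r → ℕ) := fun S =>
    M.filter (fun m => η * T / 2 ≤ |((∑ p ∈ PO Q t, jacobiSym (s S m) p : ℤ) : ℝ)|) with hMS
  set K : ℝ := 4 ^ k * C * (t / (η ^ 2 * T)) ^ k / Real.log t with hK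
  have hK0 : 0 ≤ K := by positivity
  clear_value K
  have hcover : (M.card : ℝ) ≤ ∑ S ∈ (univ : Finset (Finset (Fin r))).erase ∅, ((MS S).card : ℝ) := by
    have h1 : M ⊆ ((univ : Finset (Finset (Fin r))).erase ∅).biUnion MS := by
      intro m hm
      obtain ⟨S, hS, h2⟩ := hlarge m hm
      rw [mem_biUnion]
      exact ⟨S, hS, mem_filter.mpr ⟨hm, h2⟩⟩
    have h2 := (card_le_card h1).trans card_biUnion_le
    exact_mod_cast h2
  have hval : ∀ S : Finset (Fin r), (((MS S).image (s S)).card : ℝ) ≤ K := by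
    intro S
    have h1 := hmid t htt1 Q η hη0 hcond ((MS S).image (s S)) (by
      intro v hv
      obtain ⟨m, hm, rfl⟩ := mem_image.mp hv
      obtain ⟨hm1, hm2⟩ := mem_filter.mp hm
      exact ⟨(hs S m hm1).1, hm2⟩) (by
      intro v hv v' hv' _
      obtain ⟨m, hm, rfl⟩ := mem_image.mp hv
      obtain ⟨m', hm', rfl⟩ := mem_image.mp hv'
      obtain ⟨hm1, hm2⟩ := mem_filter.mp hm
      obtain ⟨hm1', hm2'⟩ := mem_filter.mp hm'
      obtain ⟨_, z, hz⟩ := hs S m hm1
      obtain ⟨_, z', hz'⟩ := hs S m' hm1'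
      refine ⟨(∏ i ∈ S, (m i : ℤ)) * ∏ i ∈ S, (m' i : ℤ), ?_, ?_, ?_⟩
      · apply mul_ne_zero
        · exact prod_ne_zero_iff.mpr fun i _ => by exact_mod_cast hm0 m hm1 i
        · exact prod_ne_zero_iff.mpr fun i _ => by exact_mod_cast hm0 m' hm1' i
      · have hb : ∀ n ∈ M, ((∏ i ∈ S, n i : ℕ) : ℝ) ≤ t ^ (2 * k - δ) := by
          intro n hn
          refine le_trans ?_ (hM n hn).2.1
          rw [← Nat.cast_prod]
          exact_mod_cast prod_le_all n (hm0 n hn) S
        have e1 : (((∏ i ∈ S, (m i : ℤ)) * ∏ i ∈ S, (m' i : ℤ) : ℤ) : ℝ) =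
            ((∏ i ∈ S, m i : ℕ) : ℝ) * ((∏ i ∈ S, m' i : ℕ) : ℝ) := by
          push_cast
          rfl
        rw [e1, abs_of_nonneg (by positivity)]
        calc ((∏ i ∈ S, m i : ℕ) : ℝ) * ((∏ i ∈ S, m' i : ℕ) : ℝ) ≤ t ^ (2 * k - δ) * t ^ (2 * k - δ) := by
              apply mul_le_mul (hb m hm1) (hb m' hm1') (by positivity) (by positivity)
          _ = t ^ (4 * k - 2 * δ) := by
              rw [← Real.rpow_add ht0]
              congr 1
              ring
          _ ≤ t ^ (4 * k - δ) := by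
              apply Real.rpow_le_rpow_of_exponent_le ht1
              linarith
      · apply sq_cancel (a := ∏ i ∈ S, d i) (prod_ne_zero_iff.mpr fun i _ => (hd i).1)
        refine ⟨z * z', ?_⟩
        rw [prod_mul_distrib] at hz hz'
        calc (∏ i ∈ S, d i) ^ 2 * (s S m * s S m' * ((∏ i ∈ S, (m i : ℤ)) * ∏ i ∈ S, (m' i : ℤ))) =
              ((∏ i ∈ S, d i) * (∏ i ∈ S, (m i : ℤ)) * s S m) * ((∏ i ∈ S, d i) * (∏ i ∈ S, (m' i : ℤ)) * s S m') := by ring
          _ = (z * z) * (z' * z') := by rw [hz, hz']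
          _ = _ := by ring)
    have h2 : (((MS S).image (s S)).card : ℝ) * (η * T / 2) ^ (2 * k) ≤
        ∑ v ∈ (MS S).image (s S), ((∑ p ∈ PO Q t, jacobiSym v p : ℤ) : ℝ) ^ (2 * k) := by
      rw [← nsmul_eq_mul, ← sum_const]
      refine sum_le_sum fun v hv => ?_
      obtain ⟨m, hm, rfl⟩ := mem_image.mp hv
      obtain ⟨hm1, hm2⟩ := mem_filter.mp hm
      rw [← (even_two_mul k).pow_abs ((∑ p ∈ PO Q t, jacobiSym (s S m) p : ℤ) : ℝ)]
      exact pow_le_pow_left₀ (by positivity) hm2 _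
    have h3 := h2.trans h1
    rw [← le_div_iff₀ (by positivity)] at h3
    refine h3.trans (le_of_eq ?_)
    have e4 : (η * T / 2) ^ (2 * k) = (η ^ 2 * T) ^ k * T ^ k / 4 ^ k := by
      rw [pow_mul, ← mul_pow, ← div_pow]
      congr 1
      ring
    have h5 : (0 : ℝ) < η ^ 2 * T := by positivity
    have h6 : (0 : ℝ) < T ^ k := by positivity
    have h7 : (0 : ℝ) < (η ^ 2 * T) ^ k := by positivity
    rw [hK, e4, div_pow, mul_pow t T k]
    generalize (η ^ 2 * T) ^ k = A at h7 ⊢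
    generalize T ^ k = B at h6 ⊢
    generalize t ^ k = E
    field_simp
  have hmult : ∀ S ∈ (univ : Finset (Finset (Fin r))).erase ∅, ((MS S).card : ℝ) ≤
      K * ∑ i, ((M.image fun m => Function.update m i 1).card : ℝ) := by
    intro S hS
    obtain ⟨i₀, hi₀⟩ := nonempty_iff_ne_empty.mpr (mem_erase.mp hS).1
    have h1 : (MS S).card ≤ (((MS S).image (s S)) ×ˢ (M.image fun m => Function.update m i₀ 1)).card := by
      apply card_le_card_of_injOn (fun m => (s S m, Function.update m i₀ 1))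
      · intro m hm
        have hm' : m ∈ MS S := hm
        show _ ∈ (((MS S).image (s S)) ×ˢ (M.image fun m => Function.update m i₀ 1))
        rw [mem_product]
        exact ⟨mem_image_of_mem _ hm', mem_image_of_mem (fun m => Function.update m i₀ 1) (mem_filter.mp hm').1⟩
      · intro m hm m' hm' hmm
        have hm1 : m ∈ M := (mem_filter.mp hm).1
        have hm1' : m' ∈ M := (mem_filter.mp hm').1
        have h2 : s S m = s S m' := congrArg Prod.fst hmm
        have h3 : Function.update m i₀ 1 = Function.update m' i₀ 1 := congrArg Prod.snd hmm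
        have h4 : ∀ j, j ≠ i₀ → m j = m' j := by
          intro j hj
          have := congrFun h3 j
          rwa [Function.update_of_ne hj, Function.update_of_ne hj] at this
        have h5 : m i₀ = m' i₀ := by
          obtain ⟨_, z, hz⟩ := hs S m hm1
          obtain ⟨hq, z', hz'⟩ := hs S m' hm1'
          rw [← h2] at hz' hq
          rw [← mul_prod_erase S _ hi₀] at hz hz'
          have h6 : ∏ j ∈ S.erase i₀, (d j * (m' j : ℤ)) = ∏ j ∈ S.erase i₀, (d j * (m j : ℤ)) := by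
            refine prod_congr rfl fun j hj => ?_
            rw [h4 j (mem_erase.mp hj).1]
          rw [h6] at hz'
          have h7 : IsSquare ((m i₀ : ℤ) * (m' i₀ : ℤ)) := by
            apply sq_cancel (a := d i₀ * (∏ j ∈ S.erase i₀, (d j * (m j : ℤ))) * s S m)
              (mul_ne_zero (mul_ne_zero (hd i₀).1 (prod_ne_zero_iff.mpr fun j _ => hdm m hm1 j)) hq.ne_zero)
            refine ⟨z * z', ?_⟩
            calc (d i₀ * (∏ j ∈ S.erase i₀, (d j * (m j : ℤ))) * s S m) ^ 2 * ((m i₀ : ℤ) * (m' i₀ : ℤ)) =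
                  (d i₀ * (m i₀ : ℤ) * (∏ j ∈ S.erase i₀, (d j * (m j : ℤ))) * s S m) *
                  (d i₀ * (m' i₀ : ℤ) * (∏ j ∈ S.erase i₀, (d j * (m j : ℤ))) * s S m) := by ring
              _ = (z * z) * (z' * z') := by rw [hz, hz']
              _ = _ := by ring
          have h8 := sf_eq (Int.squarefree_natCast.mpr ((hM m hm1).1 i₀)) (Int.squarefree_natCast.mpr ((hM m' hm1').1 i₀)) h7
          exact_mod_cast h8
        funext j
        by_cases hj : j = i₀
        · rw [hj, h5]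
        · exact h4 j hj
    rw [card_product] at h1
    have h2 : ((M.image fun m => Function.update m i₀ 1).card : ℝ) ≤
        ∑ i, ((M.image fun m => Function.update m i 1).card : ℝ) := by
      have h0 : ∀ j ∈ (univ : Finset (Fin r)), (0 : ℝ) ≤ (fun j => ((M.image fun m => Function.update m j 1).card : ℝ)) j :=
        fun j _ => Nat.cast_nonneg _
      exact single_le_sum h0 (mem_univ i₀)
    calc ((MS S).card : ℝ) ≤ (((MS S).image (s S)).card : ℝ) * ((M.image fun m => Function.update m i₀ 1).card : ℝ) := by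
          exact_mod_cast h1
      _ ≤ _ := mul_le_mul (hval S) h2 (Nat.cast_nonneg _) hK0
  refine hcover.trans ?_
  set Sg : ℝ := ∑ i, ((M.image fun m => Function.update m i 1).card : ℝ) with hSg
  have hSg0 : 0 ≤ Sg := sum_nonneg fun i _ => Nat.cast_nonneg _
  clear_value Sg
  calc ∑ S ∈ (univ : Finset (Finset (Fin r))).erase ∅, ((MS S).card : ℝ) ≤
        ∑ S ∈ (univ : Finset (Finset (Fin r))).erase ∅, K * Sg := sum_le_sum hmult
    _ ≤ ∑ S : Finset (Fin r), K * Sg :=
        sum_le_sum_of_subset_of_nonneg (erase_subset _ _) fun _ _ _ => mul_nonneg hK0 hSg0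
    _ = 2 ^ r * (K * Sg) := by
        rw [sum_const, card_univ, Fintype.card_finset, Fintype.card_fin, nsmul_eq_mul]
        push_cast
        rfl
    _ = _ := by
        rw [hK]
        ring

end Pool.Agent.D0H64.BT
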