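import Pool.Agent.D0H64.BT.Jp

set_option autoImplicit false
set_option maxHeartbeats 4000000

/-! The threshold of the question and product sets of twists. -/

namespace Pool.Agent.D0H64.BT

open Finset Filter

lemma proj_le {r : ℕ} (M : Fin r → Finset ℕ) (L : ℝ) (hL : ∀ i, L ≤ ((M i).card : ℝ)) (hL0 : 0 < L)
    (B : Finset (Fin r → ℕ)) (hB : ∀ m ∈ B, ∀ i, m i ∈ M i) (i : Fin r) :
    ((B.image fun m => Function.update m i 1).card : ℝ) ≤ (∏ j, ((M j).card : ℝ)) / L := by
  classical
  have h1 : (B.image fun m => Function.update m i 1) ⊆ Fintype.piFinset (Function.update M i {1}) := by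
    intro m' hm'
    obtain ⟨m, hm, rfl⟩ := mem_image.mp hm'
    rw [Fintype.mem_piFinset]
    intro j
    by_cases hj : j = i
    · rw [hj, Function.update_self, Function.update_self]
      exact mem_singleton_self 1
    · rw [Function.update_of_ne hj, Function.update_of_ne hj]
      exact hB m hm j
  have h2 := card_le_card h1
  rw [Fintype.card_piFinset] at h2
  have h3 : ∏ j, (Function.update M i {1} j).card = ∏ j ∈ univ.erase i, (M j).card := by
    rw [← mul_prod_erase univ _ (mem_univ i), Function.update_self, card_singleton, one_mul]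
    refine prod_congr rfl fun j hj => ?_
    rw [Function.update_of_ne (mem_erase.mp hj).1]
  rw [h3] at h2
  rw [le_div_iff₀ hL0]
  calc ((B.image fun m => Function.update m i 1).card : ℝ) * L ≤ ((∏ j ∈ univ.erase i, (M j).card : ℕ) : ℝ) * (M i).card := by
        apply mul_le_mul _ (hL i) hL0.le (Nat.cast_nonneg _)
        exact_mod_cast h2
    _ = ∏ j, ((M j).card : ℝ) := by
        push_cast
        exact prod_erase_mul univ _ (mem_univ i)

theorem joint2 (r : ℕ) (δ : ℝ) (hδ : 0 < δ) : ∃ C c D : ℝ, 0 < C ∧ 0 < c ∧ ∀ x : ℝ, D ≤ x →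
    ∀ η : ℝ, Real.log x ^ (-c) ≤ η → ∀ d : Fin r → ℤ, (∀ i, d i ≠ 0 ∧ |(d i : ℝ)| ≤ x) →
    ∀ (M : Fin r → Finset ℕ) (L : ℝ), 0 < L → (∀ i, L ≤ (M i).card ∧ ∀ m ∈ M i, Squarefree m ∧
      (m : ℝ) ^ r ≤ Real.log x ^ (4 - δ)) →
    (Set.ncard {m : Fin r → ℕ | (∀ i, m i ∈ M i) ∧ ¬ ∃ e : Fin r → ℤ, (∀ i, Fund (e i) ∧ IsSquare (d i * m i * e i)) ∧
      Bal Set.univ (Real.log x ^ 2 * Real.log (Real.log x) ^ 2) η e} : ℝ) ≤ C / (η ^ 2 * L) * ∏ i, ((M i).card : ℝ) := by
  classical
  set δ' : ℝ := min (δ / 2) (1 / 2) with hδ'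
  have hδ'0 : 0 < δ' := lt_min (by positivity) (by norm_num)
  have hδ'1 : δ' ≤ δ / 2 := min_le_left _ _
  have hδ'2 : δ' ≤ 1 / 2 := min_le_right _ _
  obtain ⟨C, c, t₀, hC, hc, h⟩ := joint r 1 le_rfl δ' hδ'0
  obtain ⟨t₁, hpnt⟩ := tot_ge
  have f1 : ∀ᶠ t : ℝ in atTop, 4 * Real.log t ≤ t ^ c := by
    have h1 := (isLittleO_log_rpow_atTop hc).def (show (0 : ℝ) < 1 / 4 by norm_num)
    filter_upwards [h1, eventually_ge_atTop 1] with t ht ht1
    have h3 : 0 ≤ Real.log t := Real.log_nonneg ht1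
    rw [Real.norm_eq_abs, Real.norm_eq_abs, abs_of_nonneg h3, abs_of_nonneg (by positivity)] at ht
    linarith
  obtain ⟨t₂, ht₂⟩ := eventually_atTop.mp (f1.and (eventually_ge_atTop (max (max t₀ t₁) 2)))
  have g1 : ∀ᶠ x : ℝ in atTop, 1 ≤ Real.log (Real.log x) :=
    (Real.tendsto_log_atTop.comp Real.tendsto_log_atTop).eventually_ge_atTop 1
  have g2 : ∀ᶠ x : ℝ in atTop, max 2 t₂ ≤ Real.log x := Real.tendsto_log_atTop.eventually_ge_atTop _
  obtain ⟨D, hD⟩ := eventually_atTop.mp (g1.and (g2.and (eventually_ge_atTop 1)))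
  refine ⟨C * 4 * (r + 1), c, D, by positivity, hc, fun x hx η hη d hd M L hL hM => ?_⟩
  obtain ⟨e1, e2, e3⟩ := hD x hx
  have hlx2 : 2 ≤ Real.log x := (le_max_left _ _).trans e2
  have hlxt : t₂ ≤ Real.log x := (le_max_right _ _).trans e2
  have hlx0 : 0 < Real.log x := by linarith
  set t : ℝ := Real.log x ^ 2 * Real.log (Real.log x) ^ 2 with ht
  have hts : Real.log x ^ 2 ≤ t := by
    rw [ht]
    have : 1 ≤ Real.log (Real.log x) ^ 2 := one_le_pow₀ e1
    nlinarith [pow_pos hlx0 2]
  have htl : Real.log x ≤ t := by nlinarith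
  obtain ⟨e4, e5⟩ := ht₂ t (hlxt.trans htl)
  have htt0 : t₀ ≤ t := ((le_max_left _ _).trans (le_max_left _ _)).trans e5
  have htt1 : t₁ ≤ t := ((le_max_right _ _).trans (le_max_left _ _)).trans e5
  have ht2 : 2 ≤ t := (le_max_right _ _).trans e5
  have ht0 : 0 < t := by linarith
  have hlt : 0 < Real.log t := Real.log_pos (by linarith)
  have hη0 : 0 < η := lt_of_lt_of_le (by positivity) hη
  have hT := hpnt t htt1
  have hT0 : (0 : ℝ) < tot Set.univ t := lt_of_lt_of_le (by positivity) hT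
  have hT1 : t ^ (1 - c) ≤ tot Set.univ t := by
    refine le_trans ?_ hT
    rw [le_div_iff₀ (by positivity)]
    calc t ^ (1 - c) * (4 * Real.log t) ≤ t ^ (1 - c) * t ^ c := by gcongr
      _ = t := by
          rw [← Real.rpow_add ht0, sub_add_cancel, Real.rpow_one]
  have hη1 : t ^ (-c) ≤ η := by
    refine le_trans ?_ hη
    exact Real.rpow_le_rpow_of_nonpos hlx0 htl (by linarith)
  have hfin : ({m : Fin r → ℕ | (∀ i, m i ∈ M i) ∧ ¬ ∃ e : Fin r → ℤ, (∀ i, Fund (e i) ∧ IsSquare (d i * m i * e i)) ∧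
      Bal Set.univ t η e} : Set (Fin r → ℕ)) = ((Fintype.piFinset M).filter (fun m => ¬ ∃ e : Fin r → ℤ,
      (∀ i, Fund (e i) ∧ IsSquare (d i * m i * e i)) ∧ Bal Set.univ t η e) : Finset (Fin r → ℕ)) := by
    ext m
    rw [Finset.mem_coe, mem_filter, Fintype.mem_piFinset]
    rfl
  rw [hfin, Set.ncard_coe_finset]
  set B := (Fintype.piFinset M).filter (fun m => ¬ ∃ e : Fin r → ℤ,
      (∀ i, Fund (e i) ∧ IsSquare (d i * m i * e i)) ∧ Bal Set.univ t η e) with hB
  have hBM : ∀ m ∈ B, ∀ i, m i ∈ M i := fun m hm => Fintype.mem_piFinset.mp (mem_filter.mp hm).1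
  have hmain := h t htt0 Set.univ η hη1 hT1 d (by
    intro i
    refine ⟨(hd i).1, (hd i).2.trans ?_⟩
    rw [← Real.log_le_iff_le_exp (by linarith)]
    calc Real.log x = (Real.log x ^ 2) ^ (1 / 2 : ℝ) := by
          rw [← Real.rpow_natCast, ← Real.rpow_mul hlx0.le]
          norm_num
      _ ≤ t ^ (1 / 2 : ℝ) := Real.rpow_le_rpow (by positivity) hts (by norm_num)
      _ ≤ t ^ (1 - δ') := by
          apply Real.rpow_le_rpow_of_exponent_le (by linarith)
          linarith) B (by
    intro m hm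
    refine ⟨fun i => ((hM i).2 _ (hBM m hm i)).1, ?_, (mem_filter.mp hm).2⟩
    rcases Nat.eq_zero_or_pos r with hr | hr
    · subst hr
      rw [univ_eq_empty, prod_empty]
      apply Real.one_le_rpow (by linarith)
      push_cast
      linarith
    · have h1 : (∏ i, (m i : ℝ)) ^ r ≤ (Real.log x ^ (4 - δ)) ^ r := by
        rw [← prod_pow]
        calc ∏ i, (m i : ℝ) ^ r ≤ ∏ _i : Fin r, Real.log x ^ (4 - δ) :=
              prod_le_prod (fun i _ => by positivity) fun i _ => ((hM i).2 _ (hBM m hm i)).2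
          _ = _ := by rw [prod_const, card_univ, Fintype.card_fin]
      have h2 : ∏ i, (m i : ℝ) ≤ Real.log x ^ (4 - δ) := by
        by_contra hcon
        push Not at hcon
        have h3 := pow_lt_pow_left₀ hcon (by positivity) (by omega : r ≠ 0)
        linarith
      refine h2.trans ?_
      calc Real.log x ^ (4 - δ) ≤ Real.log x ^ (4 - 2 * δ') := by
            apply Real.rpow_le_rpow_of_exponent_le (by linarith)
            linarith
        _ = (Real.log x ^ 2) ^ (2 - δ') := by
            rw [← Real.rpow_natCast, ← Real.rpow_mul hlx0.le]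
            congr 1
            push_cast
            ring
        _ ≤ t ^ (2 - δ') := by
            apply Real.rpow_le_rpow (by positivity) hts
            linarith
        _ = _ := by
            congr 1
            push_cast
            ring)
  set P : ℝ := ∏ i, ((M i).card : ℝ) with hP
  have hP0 : 0 ≤ P := prod_nonneg fun i _ => Nat.cast_nonneg _
  have hPL : 0 ≤ P / L := div_nonneg hP0 hL.le
  have hsum : ∑ i, ((B.image fun m => Function.update m i 1).card : ℝ) ≤ (r + 1) * (P / L) := by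
    calc ∑ i, ((B.image fun m => Function.update m i 1).card : ℝ) ≤ ∑ _i : Fin r, P / L :=
          sum_le_sum fun i _ => proj_le M L (fun i => (hM i).1) hL B hBM i
      _ = r * (P / L) := by rw [sum_const, card_univ, Fintype.card_fin, nsmul_eq_mul]
      _ ≤ _ := by linarith
  clear_value P
  have hfac : C * (t / (η ^ 2 * tot Set.univ t)) ^ 1 / Real.log t ≤ C * 4 / η ^ 2 := by
    rw [pow_one, div_le_div_iff₀ hlt (by positivity)]
    have h1 : t ≤ 4 * Real.log t * tot Set.univ t := by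
      rw [div_le_iff₀ (by positivity)] at hT
      linarith
    have h2 : t / (η ^ 2 * tot Set.univ t) * η ^ 2 = t / tot Set.univ t := by
      field_simp
    calc C * (t / (η ^ 2 * tot Set.univ t)) * η ^ 2 = C * (t / (η ^ 2 * tot Set.univ t) * η ^ 2) := by ring
      _ = C * (t / tot Set.univ t) := by rw [h2]
      _ ≤ C * (4 * Real.log t) := by
          apply mul_le_mul_of_nonneg_left _ hC.le
          rw [div_le_iff₀ hT0]
          exact h1
      _ = _ := by ring
  calc (B.card : ℝ) ≤ C * (t / (η ^ 2 * tot Set.univ t)) ^ 1 / Real.log t *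
        ∑ i, ((B.image fun m => Function.update m i 1).card : ℝ) := hmain
    _ ≤ (C * 4 / η ^ 2) * ((r + 1) * (P / L)) := by
        apply mul_le_mul hfac hsum (sum_nonneg fun i _ => Nat.cast_nonneg _) (by positivity)
    _ = _ := by
        field_simp

end Pool.Agent.D0H64.BT
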