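import Pool.Agent.R852.BC.Main

set_option autoImplicit false
set_option maxHeartbeats 4000000

/-! Sums of the symbols `(r | n)` over the odd `n ≤ u`: Burgess and Polya and Vinogradov. -/

namespace Pool.Agent.D0H64.BT

open Finset Filter Pool.Agent.H471R4.BW Pool.Agent.R852.BC

/-- the sum of the symbols `(r | n)` over the odd `n ≤ u` -/
noncomputable def osum (r : ℤ) (u : ℕ) : ℤ := ∑ n ∈ Icc 1 u, if Odd n then jacobiSym r n else 0

/-- the symbol `(r | n)` of an odd number `n` as a character of `n` -/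
lemma exists_th (r : ℤ) (hr : Squarefree r) (hr1 : r ≠ 1) :
    ∃ (N : ℕ) (θ : MulChar (ZMod 8) ℤ), N ≠ 0 ∧ Odd N ∧ Squarefree N ∧ N ∣ r.natAbs ∧
      (N = 1 → θ ≠ 1) ∧
      ∀ n : ℕ, Odd n → jacobiSym r n = θ (n : ZMod 8) * jacobiSym (n : ℤ) N := by
  have hr0 : r ≠ 0 := hr.ne_zero
  set s := r.natAbs with hs
  have hs0 : s ≠ 0 := Int.natAbs_ne_zero.mpr hr0
  have hsq : Squarefree s := Int.squarefree_natAbs.mpr hr
  obtain ⟨e, N, he, hNodd, hsN⟩ : ∃ e N : ℕ, e ≤ 1 ∧ Odd N ∧ s = 2 ^ e * N := by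
    rcases Nat.even_or_odd s with h | h
    · obtain ⟨k, hk⟩ := h.two_dvd
      refine ⟨1, k, le_rfl, ?_, by rw [pow_one, hk]⟩
      by_contra hcon
      rw [Nat.not_odd_iff_even] at hcon
      obtain ⟨j, hj⟩ := hcon.two_dvd
      have h4 : 2 * 2 ∣ s := ⟨j, by rw [hk, hj]; ring⟩
      have := hsq 2 h4
      exact absurd (Nat.isUnit_iff.mp this) (by norm_num)
    · exact ⟨0, s, by norm_num, h, by rw [pow_zero, one_mul]⟩
  have hN0 : N ≠ 0 := by
    rintro rfl
    exact hs0 (by rw [hsN, mul_zero])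
  have hNs : N ∣ s := ⟨2 ^ e, by rw [hsN]; ring⟩
  have hNsq : Squarefree N := hsq.squarefree_of_dvd hNs
  obtain ⟨a, ha, hDa⟩ : ∃ a : ℕ, a ≤ 1 ∧ r = (-1) ^ a * (2 ^ e * N) := by
    have h1 : ((r.natAbs : ℕ) : ℤ) = 2 ^ e * N := by
      rw [← hs, hsN]; push_cast; ring
    rcases Int.natAbs_eq r with h | h
    · exact ⟨0, by norm_num, by rw [← h1, pow_zero, one_mul]; exact h⟩
    · refine ⟨1, le_rfl, ?_⟩
      rw [← h1, pow_one, neg_one_mul]
      exact h
  set k : ℕ := if N % 4 = 3 then 1 else 0 with hk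
  refine ⟨N, chi4' ^ (a + k) * ZMod.χ₈ ^ e, hN0, hNodd, hNsq, hNs, ?_, ?_⟩
  · intro hN1 hθ
    have hk0 : k = 0 := by rw [hk, hN1]; norm_num
    rw [hk0, add_zero] at hθ
    have hval : ∀ x : ZMod 8, (chi4' ^ a * ZMod.χ₈ ^ e : MulChar (ZMod 8) ℤ) x = (1 : MulChar (ZMod 8) ℤ) x := by
      intro x; rw [hθ]
    have h3 : (1 : MulChar (ZMod 8) ℤ) (3 : ZMod 8) = 1 := MulChar.one_apply (by decide)
    have h5 : (1 : MulChar (ZMod 8) ℤ) (5 : ZMod 8) = 1 := MulChar.one_apply (by decide)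
    have v3 := hval 3
    have v5 := hval 5
    rw [h3] at v3
    rw [h5] at v5
    have c3 : chi4' (3 : ZMod 8) = -1 := by decide
    have c5 : chi4' (5 : ZMod 8) = 1 := by decide
    have d3 : ZMod.χ₈ (3 : ZMod 8) = -1 := by decide
    have d5 : ZMod.χ₈ (5 : ZMod 8) = -1 := by decide
    have ha' : a = 0 ∨ a = 1 := by omega
    have he' : e = 0 ∨ e = 1 := by omega
    rcases ha' with ha0 | ha1 <;> rcases he' with he0 | he1
    · apply hr1
      rw [hDa, ha0, he0, hN1]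
      norm_num
    · rw [ha0, he1, pow_zero, one_mul, pow_one, d3] at v3
      norm_num at v3
    · rw [ha1, he0, pow_zero, mul_one, pow_one, c3] at v3
      norm_num at v3
    · rw [ha1, he1, pow_one, pow_one, MulChar.mul_apply, c5, d5] at v5
      norm_num at v5
  · intro l hlodd
    have hu : IsUnit (l : ZMod 8) := by
      rw [ZMod.isUnit_iff_coprime]
      have : Nat.Coprime l (2 ^ 3) := Nat.Coprime.pow_right 3 (Nat.coprime_two_right.mpr hlodd)
      simpa using this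
    have e2 : jacobiSym r l = ZMod.χ₄ (l : ZMod 4) ^ a * (ZMod.χ₈ (l : ZMod 8) ^ e *
        jacobiSym (N : ℤ) l) := by
      rw [hDa, jacobiSym.mul_left, jacobiSym.mul_left, jacobiSym.pow_left (-1),
        jacobiSym.at_neg_one hlodd, jacobiSym.pow_left 2, jacobiSym.at_two hlodd]
    have e3 := recip N l hNodd hlodd
    have e4 : (chi4' ^ (a + k) * ZMod.χ₈ ^ e : MulChar (ZMod 8) ℤ) (l : ZMod 8) =
        ZMod.χ₄ (l : ZMod 4) ^ (a + k) * ZMod.χ₈ (l : ZMod 8) ^ e := by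
      rw [MulChar.mul_apply]
      have p1 : ∀ (χ : MulChar (ZMod 8) ℤ) (n : ℕ), (χ ^ n) (l : ZMod 8) = χ (l : ZMod 8) ^ n := by
        intro χ n
        induction n with
        | zero => rw [pow_zero, pow_zero, MulChar.one_apply hu]
        | succ n ih => rw [pow_succ, pow_succ, MulChar.mul_apply, ih]
      rw [p1, p1, chi4'_nat l hlodd]
    rw [e4, e2, e3]
    have e5 : ZMod.χ₄ (l : ZMod 4) ^ k = if N % 4 = 3 then ZMod.χ₄ (l : ZMod 4) else 1 := by
      rw [hk]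
      split_ifs <;> simp
    rw [pow_add, ← e5]
    ring

lemma osum_eq (r : ℤ) (N : ℕ) [NeZero N] (θ : MulChar (ZMod 8) ℤ)
    (h : ∀ n : ℕ, Odd n → jacobiSym r n = θ (n : ZMod 8) * jacobiSym (n : ℤ) N) (u : ℕ) :
    ((osum r u : ℤ) : ℂ) = shortSum (8 * N) (chi 8 N (psi θ)) u := by
  unfold osum shortSum
  rw [Int.cast_sum]
  refine sum_congr rfl fun n _ => ?_
  rw [chi_nat, psi_apply, jchar_apply]
  by_cases hn : Odd n
  · rw [if_pos hn, h n hn]
    push_cast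
    ring
  · rw [if_neg hn]
    have hu : ¬ IsUnit (n : ZMod 8) := by
      rw [ZMod.isUnit_iff_coprime]
      intro hc
      apply hn
      have h1 : Nat.Coprime n 2 := Nat.Coprime.coprime_dvd_right (by norm_num : 2 ∣ 8) hc
      exact Nat.coprime_two_right.mp h1
    rw [MulChar.map_nonunit _ hu]
    push_cast
    ring

lemma osum_triv (r : ℤ) (u : ℕ) : |(osum r u : ℝ)| ≤ u := by
  unfold osum
  rw [Int.cast_sum]
  refine (abs_sum_le_sum_abs _ _).trans ?_
  calc ∑ n ∈ Icc 1 u, |((if Odd n then jacobiSym r n else 0 : ℤ) : ℝ)| ≤ ∑ _n ∈ Icc 1 u, (1 : ℝ) := by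
        refine sum_le_sum fun n _ => ?_
        split_ifs
        · rcases jacobiSym.trichotomy r n with h | h | h <;> rw [h] <;> norm_num
        · norm_num
    _ = u := by simp

/-- short sums of symbols: the range `|r| ≤ N ^ (4 - δ)` -/
theorem osum_le (δ : ℝ) (hδ : 0 < δ) : ∃ c : ℝ, 0 < c ∧ c < 1 ∧ ∀ᶠ N : ℕ in atTop, ∀ r : ℤ, Squarefree r → r ≠ 1 →
    |(r : ℝ)| ≤ (N : ℝ) ^ (4 - δ) → ∀ u : ℕ, u ≤ N → |(osum r u : ℝ)| ≤ (N : ℝ) ^ (1 - c) := by
  wlog hδ1 : δ ≤ 1 generalizing δ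
  · obtain ⟨c, hc0, hc1, hc⟩ := this 1 one_pos le_rfl
    refine ⟨c, hc0, hc1, ?_⟩
    filter_upwards [hc, eventually_ge_atTop 1] with N hN hN1 r hr hr1 hrN u hu
    refine hN r hr hr1 (hrN.trans ?_) u hu
    apply Real.rpow_le_rpow_of_exponent_le (by exact_mod_cast hN1)
    linarith
  -- parameters
  set η : ℝ := δ / 64 with hη
  have hη0 : 0 < η := by positivity
  obtain ⟨σ, hσ0, hbur⟩ := bur8 η hη0
  obtain ⟨M0, hM0⟩ := eventually_atTop.mp hbur
  set c : ℝ := min (1 / 8) (min (σ / 4) (δ / 16)) with hc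
  have hc0 : 0 < c := lt_min (by norm_num) (lt_min (by positivity) (by positivity))
  have hc1 : c ≤ 1 / 8 := min_le_left _ _
  have hc2 : c ≤ σ / 4 := (min_le_right _ _).trans (min_le_left _ _)
  have hc3 : c ≤ δ / 16 := (min_le_right _ _).trans (min_le_right _ _)
  refine ⟨c, hc0, by linarith, ?_⟩
  have tc : Tendsto (fun q : ℕ => (q : ℝ)) atTop atTop := tendsto_natCast_atTop_atTop
  -- Polya and Vinogradov
  have f1 : ∀ᶠ x : ℝ in atTop, 4 * (1 + 2 * Real.log x) ≤ x ^ (c / 2) := by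
    have h1 := (isLittleO_log_rpow_atTop (show (0 : ℝ) < c / 2 by positivity)).def
      (show (0 : ℝ) < 1 / 16 by norm_num)
    have h2 : ∀ᶠ x : ℝ in atTop, 8 ≤ x ^ (c / 2 : ℝ) :=
      (tendsto_rpow_atTop (by positivity : (0 : ℝ) < c / 2)).eventually_ge_atTop _
    filter_upwards [h1, h2, eventually_ge_atTop 1] with x hx hx2 hx1
    have h3 : 0 ≤ Real.log x := Real.log_nonneg hx1
    rw [Real.norm_eq_abs, Real.norm_eq_abs, abs_of_nonneg h3, abs_of_nonneg (by positivity)] at hx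
    linarith
  have f2 : ∀ᶠ x : ℝ in atTop, (M0 : ℝ) < x ^ (2 - 3 * c) :=
    (tendsto_rpow_atTop (by linarith : (0 : ℝ) < 2 - 3 * c)).eventually_gt_atTop _
  have f3 : ∀ᶠ x : ℝ in atTop, 8 ≤ x ^ (δ / 2) :=
    (tendsto_rpow_atTop (by positivity : (0 : ℝ) < δ / 2)).eventually_ge_atTop _
  filter_upwards [tc.eventually f1, tc.eventually f2, tc.eventually f3, eventually_ge_atTop 2] with
    N hf1 hf2 hf3 hN2 r hr hr1 hrN u hu
  have hN1 : (1 : ℝ) ≤ N := by exact_mod_cast (by omega : 1 ≤ N)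
  have hN0 : (0 : ℝ) < N := by linarith
  have huN : (u : ℝ) ≤ N := by exact_mod_cast hu
  -- trivial bound for small `u`
  rcases le_or_gt (u : ℝ) ((N : ℝ) ^ (1 - c)) with hus | hul
  · exact (osum_triv r u).trans hus
  obtain ⟨M, θ, hM0', hMo, hMsq, hMr, hMθ, hMe⟩ := exists_th r hr hr1
  haveI : NeZero M := ⟨hM0'⟩
  have hnorm : |(osum r u : ℝ)| = ‖shortSum (8 * M) (chi 8 M (psi θ)) u‖ := by
    rw [← osum_eq r M θ hMe u]
    rw [Complex.norm_intCast]
  rw [hnorm]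
  have hMle : (M : ℝ) ≤ |(r : ℝ)| := by
    have h1 : M ≤ r.natAbs := Nat.le_of_dvd (Int.natAbs_pos.mpr hr.ne_zero) hMr
    have h2 : ((r.natAbs : ℕ) : ℝ) = |(r : ℝ)| := by
      rw [Nat.cast_natAbs]
      push_cast
      rfl
    rw [← h2]
    exact_mod_cast h1
  have hq4 : ((8 * M : ℕ) : ℝ) ≤ (N : ℝ) ^ (4 - δ / 2) := by
    push_cast
    calc (8 : ℝ) * M ≤ (N : ℝ) ^ (δ / 2) * (N : ℝ) ^ (4 - δ) := by
          apply mul_le_mul hf3 (hMle.trans hrN) (by positivity) (by positivity)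
      _ = (N : ℝ) ^ (4 - δ / 2) := by
          rw [← Real.rpow_add hN0]
          congr 1
          ring
  have hM1 : (1 : ℝ) ≤ M := by exact_mod_cast (by omega : 1 ≤ M)
  have hq8 : (8 : ℝ) ≤ ((8 * M : ℕ) : ℝ) := by push_cast; linarith
  rcases le_or_gt (((8 * M : ℕ) : ℝ)) ((N : ℝ) ^ (2 - 3 * c)) with hqs | hql
  · -- Polya and Vinogradov
    have h1 := Pool.Agent.H38R2.CG.PVh.sum_le (8 * M) (chi 8 M (psi θ)) (by omega)
      (chi_ne_one M hMo hMsq θ hMθ) u
    have h2 : ‖shortSum (8 * M) (chi 8 M (psi θ)) u‖ ≤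
        4 * √((8 * M : ℕ) : ℝ) * (1 + Real.log ((8 * M : ℕ) : ℝ)) := h1
    refine h2.trans ?_
    have h3 : √((8 * M : ℕ) : ℝ) ≤ (N : ℝ) ^ (1 - 3 * c / 2) := by
      rw [Real.sqrt_le_left (by positivity), ← Real.rpow_natCast, ← Real.rpow_mul hN0.le]
      refine hqs.trans (le_of_eq ?_)
      congr 1
      push_cast
      ring
    have h4 : Real.log ((8 * M : ℕ) : ℝ) ≤ 2 * Real.log N := by
      have : Real.log ((8 * M : ℕ) : ℝ) ≤ Real.log ((N : ℝ) ^ (2 - 3 * c)) :=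
        Real.log_le_log (by linarith) hqs
      rw [Real.log_rpow hN0] at this
      have hl : 0 ≤ Real.log N := Real.log_nonneg hN1
      nlinarith
    have hl0 : 0 ≤ Real.log ((8 * M : ℕ) : ℝ) := Real.log_nonneg (by linarith)
    calc 4 * √((8 * M : ℕ) : ℝ) * (1 + Real.log ((8 * M : ℕ) : ℝ))
        ≤ 4 * (N : ℝ) ^ (1 - 3 * c / 2) * (1 + 2 * Real.log N) := by gcongr
      _ = (N : ℝ) ^ (1 - 3 * c / 2) * (4 * (1 + 2 * Real.log N)) := by ring
      _ ≤ (N : ℝ) ^ (1 - 3 * c / 2) * (N : ℝ) ^ (c / 2) := by gcongr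
      _ = (N : ℝ) ^ (1 - c) := by
          rw [← Real.rpow_add hN0]
          congr 1
          ring
  · -- Burgess
    set q : ℝ := ((8 * M : ℕ) : ℝ) with hq
    have hq0 : 0 < q := by linarith
    have hqM0 : M0 ≤ 8 * M := by
      have h1 : (M0 : ℝ) < q := hf2.trans hql
      have h2 : M0 < 8 * M := by
        rw [hq] at h1
        exact_mod_cast h1
      omega
    have hb := hM0 (8 * M) hqM0 M rfl hMo hMsq (psi θ) u
    have hu1 : q ^ (1 / 4 + η) ≤ (u : ℝ) := by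
      refine le_trans ?_ hul.le
      calc q ^ (1 / 4 + η) ≤ ((N : ℝ) ^ (4 - δ / 2)) ^ (1 / 4 + η) := by
            apply Real.rpow_le_rpow hq0.le hq4 (by positivity)
        _ = (N : ℝ) ^ ((4 - δ / 2) * (1 / 4 + η)) := by rw [← Real.rpow_mul hN0.le]
        _ ≤ (N : ℝ) ^ (1 - c) := by
            apply Real.rpow_le_rpow_of_exponent_le hN1
            rw [hη]
            nlinarith
    have hu2 : (u : ℝ) ≤ q ^ (1 / 2 + σ) := by
      refine huN.trans ?_
      have h1 : (N : ℝ) = ((N : ℝ) ^ (2 - 3 * c)) ^ (1 / (2 - 3 * c)) := by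
        rw [← Real.rpow_mul hN0.le, mul_one_div_cancel (by linarith), Real.rpow_one]
      calc (N : ℝ) = ((N : ℝ) ^ (2 - 3 * c)) ^ (1 / (2 - 3 * c)) := h1
        _ ≤ q ^ (1 / (2 - 3 * c)) := by
            apply Real.rpow_le_rpow (by positivity) hql.le
            apply div_nonneg zero_le_one
            linarith
        _ ≤ q ^ (1 / 2 + σ) := by
            apply Real.rpow_le_rpow_of_exponent_le (by linarith)
            rw [div_le_iff₀ (by linarith)]
            nlinarith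
    refine (hb hu1 hu2).trans ?_
    calc q ^ (-σ) * (u : ℝ) ≤ ((N : ℝ) ^ (2 - 3 * c)) ^ (-σ) * N := by
          apply mul_le_mul _ huN (by positivity) (by positivity)
          apply Real.rpow_le_rpow_of_nonpos (by positivity) hql.le (by linarith)
      _ = (N : ℝ) ^ ((2 - 3 * c) * (-σ) + 1) := by
          rw [← Real.rpow_mul hN0.le, Real.rpow_add hN0, Real.rpow_one]
      _ ≤ (N : ℝ) ^ (1 - c) := by
          apply Real.rpow_le_rpow_of_exponent_le hN1
          nlinarith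

end Pool.Agent.D0H64.BT
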