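import Pool.Agent.D0H64.BT.Df

set_option autoImplicit false
set_option maxHeartbeats 4000000

/-! The discriminants with a large difference of the numbers of split and inert primes `p < t`. -/

namespace Pool.Agent.D0H64.BT

open Finset Filter

lemma card_PO_le (Q : Set ℕ) (t : ℝ) : (PO Q t).card ≤ tot Q t := by
  classical
  rw [tot_eq]
  unfold PO
  exact card_filter_le _ _

theorem mid (k : ℕ) (hk : 1 ≤ k) (δ : ℝ) (hδ : 0 < δ) : ∃ C c : ℝ, 0 < C ∧ 0 < c ∧ c ≤ 1 / 4 ∧ ∃ t₀ : ℝ, ∀ t : ℝ, t₀ ≤ t →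
    ∀ (Q : Set ℕ) (η : ℝ), 0 < η → t ^ (1 - c) ≤ η ^ 2 * tot Q t → ∀ S : Finset ℤ,
      (∀ s ∈ S, Squarefree s ∧ η * tot Q t / 2 ≤ |((∑ p ∈ PO Q t, jacobiSym s p : ℤ) : ℝ)|) →
      (∀ s ∈ S, ∀ s' ∈ S, s ≠ s' → ∃ n : ℤ, n ≠ 0 ∧ |(n : ℝ)| ≤ t ^ (4 * k - δ) ∧ IsSquare (s * s' * n)) →
      ∑ s ∈ S, ((∑ p ∈ PO Q t, jacobiSym s p : ℤ) : ℝ) ^ (2 * k) ≤ C * (t * tot Q t) ^ k / Real.log t := by
  classical
  obtain ⟨C, c₁, hC, hc₁, y₀, hfam⟩ := fam k hk (δ / 2) (by positivity)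
  set c₂ : ℝ := min c₁ (1 / 2) with hc₂
  have hc₂0 : 0 < c₂ := lt_min hc₁ (by norm_num)
  have hc₂1 : c₂ ≤ c₁ := min_le_left _ _
  have hc₂2 : c₂ ≤ 1 / 2 := min_le_right _ _
  refine ⟨2 * C, c₂ / 2, by positivity, by positivity, by linarith, ?_⟩
  have f1 : ∀ᶠ x : ℝ in atTop, 4 ≤ x ^ (c₂ / 2) :=
    (tendsto_rpow_atTop (by positivity : (0 : ℝ) < c₂ / 2)).eventually_ge_atTop _
  have f2 : ∀ᶠ x : ℝ in atTop, 2 ^ (4 * (k : ℝ)) ≤ (x / 2) ^ (δ / 2) := by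
    have := (tendsto_rpow_atTop (by positivity : (0 : ℝ) < δ / 2)).comp
      (tendsto_id.atTop_div_const (by norm_num : (0 : ℝ) < 2))
    exact this.eventually_ge_atTop _
  obtain ⟨t₁, ht₁⟩ := eventually_atTop.mp (f1.and (f2.and (eventually_ge_atTop (max 4 ((y₀ : ℝ) + 1)))))
  refine ⟨t₁, fun t ht Q η hη hηt S hS hp => ?_⟩
  obtain ⟨g1, g2, g3⟩ := ht₁ t ht
  have ht4 : 4 ≤ t := (le_max_left _ _).trans g3
  have hty : (y₀ : ℝ) + 1 ≤ t := (le_max_right _ _).trans g3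
  have ht0 : 0 < t := by linarith
  have ht1 : 1 ≤ t := by linarith
  set y : ℕ := ⌊t⌋₊ with hy
  have hyt : (y : ℝ) ≤ t := Nat.floor_le ht0.le
  have hyt2 : t / 2 ≤ y := by
    have : t < y + 1 := Nat.lt_floor_add_one t
    linarith
  have hy0 : y₀ ≤ y := by
    apply Nat.le_floor
    linarith
  have hy1 : (1 : ℝ) ≤ y := by linarith
  have hyp : (0 : ℝ) < y := by linarith
  have hlt : 0 < Real.log t := Real.log_pos (by linarith)
  set T : ℝ := (tot Q t : ℝ) with hT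
  have hT0 : 0 < T := by
    have h1 : 0 < η ^ 2 * T := lt_of_lt_of_le (by positivity) hηt
    exact (pos_iff_pos_of_mul_pos h1).mp (by positivity)
  have hPT : ((PO Q t).card : ℝ) ≤ T := by
    rw [hT]
    exact_mod_cast card_PO_le Q t
  have hmain := hfam y hy0 S (fun s hs => (hS s hs).1) (fun s hs s' hs' hne => by
    obtain ⟨n, hn0, hnle, hsq⟩ := hp s hs s' hs' hne
    refine ⟨n, hn0, hnle.trans ?_, hsq⟩
    rcases le_or_gt 0 (4 * (k : ℝ) - δ) with h | h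
    · calc t ^ (4 * (k : ℝ) - δ) ≤ (2 * y) ^ (4 * (k : ℝ) - δ) := by
            apply Real.rpow_le_rpow ht0.le _ h
            linarith
        _ = 2 ^ (4 * (k : ℝ) - δ) * (y : ℝ) ^ (4 * (k : ℝ) - δ) := Real.mul_rpow (by norm_num) hyp.le
        _ ≤ (y : ℝ) ^ (δ / 2) * (y : ℝ) ^ (4 * (k : ℝ) - δ) := by
            apply mul_le_mul_of_nonneg_right _ (by positivity)
            calc (2 : ℝ) ^ (4 * (k : ℝ) - δ) ≤ 2 ^ (4 * (k : ℝ)) := by
                  apply Real.rpow_le_rpow_of_exponent_le (by norm_num)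
                  linarith
              _ ≤ (t / 2) ^ (δ / 2) := g2
              _ ≤ (y : ℝ) ^ (δ / 2) := Real.rpow_le_rpow (by positivity) hyt2 (by positivity)
        _ = (y : ℝ) ^ (4 * (k : ℝ) - δ / 2) := by
            rw [← Real.rpow_add hyp]
            congr 1
            ring
    · calc t ^ (4 * (k : ℝ) - δ) ≤ (y : ℝ) ^ (4 * (k : ℝ) - δ) :=
            Real.rpow_le_rpow_of_nonpos hyp hyt h.le
        _ ≤ (y : ℝ) ^ (4 * (k : ℝ) - δ / 2) := by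
            apply Real.rpow_le_rpow_of_exponent_le hy1
            linarith) (PO Q t) (fun p hp => by
    unfold PO at hp
    rw [mem_filter, mem_PT] at hp
    exact ⟨hp.1.1, hp.2, Nat.le_floor hp.1.2.2.le⟩) (η * T / 2) (by positivity) (by
    calc (y : ℝ) ^ (1 - c₁) * (PO Q t).card ≤ (y : ℝ) ^ (1 - c₂) * T := by
          apply mul_le_mul _ hPT (by positivity) (by positivity)
          apply Real.rpow_le_rpow_of_exponent_le hy1
          linarith
      _ ≤ t ^ (1 - c₂) * T := by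
          apply mul_le_mul_of_nonneg_right _ hT0.le
          apply Real.rpow_le_rpow hyp.le hyt
          linarith
      _ = (t ^ (1 - c₂) * 4) * T / 4 := by ring
      _ ≤ (t ^ (1 - c₂) * t ^ (c₂ / 2)) * T / 4 := by gcongr
      _ = t ^ (1 - c₂ / 2) * T / 4 := by
          rw [← Real.rpow_add ht0]
          congr 3
          ring
      _ ≤ (η ^ 2 * T) * T / 4 := by gcongr
      _ = (η * T / 2) ^ 2 := by ring) (fun s hs => (hS s hs).2)
  refine hmain.trans ?_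
  have e2 : Real.log t / 2 ≤ Real.log y := by
    have h1 : Real.log t / 2 = Real.log (t ^ (1 / 2 : ℝ)) := by
      rw [Real.log_rpow ht0]
      ring
    rw [h1]
    apply Real.log_le_log (by positivity)
    refine le_trans ?_ hyt2
    have h2 : t = t ^ (1 / 2 : ℝ) * t ^ (1 / 2 : ℝ) := by
      rw [← Real.rpow_add ht0]
      norm_num
    have h3 : (2 : ℝ) ≤ t ^ (1 / 2 : ℝ) := by
      calc (2 : ℝ) = 4 ^ (1 / 2 : ℝ) := by
            rw [show (4 : ℝ) = 2 ^ (2 : ℝ) by norm_num, ← Real.rpow_mul (by norm_num)]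
            norm_num
        _ ≤ _ := Real.rpow_le_rpow (by norm_num) ht4 (by norm_num)
    nlinarith
  have hly : 0 < Real.log y := lt_of_lt_of_le (by positivity) e2
  calc C * ((y : ℝ) * (PO Q t).card) ^ k / Real.log y ≤ C * (t * T) ^ k / (Real.log t / 2) := by
        gcongr
    _ = _ := by
        field_simp

/-- all `t`, arbitrary sets of primes -/
theorem part1 (k : ℕ) (hk : 1 ≤ k) (δ : ℝ) (hδ : 0 < δ) : ∃ C c t₀ : ℝ, 0 < C ∧ 0 < c ∧ ∀ t : ℝ, t₀ ≤ t →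
    ∀ Q : Set ℕ, t ^ (1 - c) ≤ tot Q t → ∀ B : Finset ℤ,
      (∀ d ∈ B, Fund d ∧ t ^ (-c) * tot Q t ≤ |(spl Q d t : ℝ) - ine Q d t|) →
      (∀ d ∈ B, ∀ e ∈ B, d ≠ e → Near (t ^ (4 * k - δ)) d e) →
      ∑ d ∈ B, (((spl Q d t : ℝ) - ine Q d t) / tot Q t) ^ (2 * k) ≤ C * (t / tot Q t) ^ k / Real.log t := by
  classical
  obtain ⟨C, c, hC, hc, hc4, t₁, h⟩ := mid k hk δ hδ
  have f1 : ∀ᶠ x : ℝ in atTop, 2 ≤ x ^ (1 - c) :=
    (tendsto_rpow_atTop (by linarith : (0 : ℝ) < 1 - c)).eventually_ge_atTop _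
  obtain ⟨t₂, ht₂⟩ := eventually_atTop.mp (f1.and (eventually_ge_atTop (max t₁ 2)))
  refine ⟨4 ^ k * C, c / 3, t₂, by positivity, by positivity, fun t ht Q hQ B hB hp => ?_⟩
  obtain ⟨g1, g2⟩ := ht₂ t ht
  have ht2 : 2 ≤ t := (le_max_right t₁ 2).trans g2
  have ht0 : 0 < t := by linarith
  have hlt : 0 < Real.log t := Real.log_pos (by linarith)
  have hT0 : (0 : ℝ) < tot Q t := lt_of_lt_of_le (by positivity) hQ
  obtain ⟨sf, hinj, hsf, hSp⟩ := sf_fun B (fun d hd => (hB d hd).1) _ hp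
  have hcond : t ^ (1 - c) ≤ (t ^ (-(c / 3))) ^ 2 * tot Q t := by
    calc t ^ (1 - c) = (t ^ (-(c / 3))) ^ 2 * t ^ (1 - c / 3) := by
          rw [← Real.rpow_natCast, ← Real.rpow_mul ht0.le, ← Real.rpow_add ht0]
          congr 1
          push_cast
          ring
      _ ≤ _ := mul_le_mul_of_nonneg_left hQ (by positivity)
  have hlow : ∀ d ∈ B, 2 ≤ |(spl Q d t : ℝ) - ine Q d t| := by
    intro d hd
    refine le_trans ?_ (hB d hd).2
    refine g1.trans (hcond.trans ?_)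
    have h1 : t ^ (-(c / 3)) ≤ 1 := Real.rpow_le_one_of_one_le_of_nonpos (by linarith) (by linarith)
    have h2 : 0 ≤ t ^ (-(c / 3)) := by positivity
    have h3 : (t ^ (-(c / 3))) ^ 2 ≤ t ^ (-(c / 3)) := by nlinarith
    exact mul_le_mul_of_nonneg_right h3 hT0.le
  have hF : ∀ d ∈ B, |(spl Q d t : ℝ) - ine Q d t| ≤ 2 * |((∑ p ∈ PO Q t, jacobiSym (sf d) p : ℤ) : ℝ)| := by
    intro d hd
    obtain ⟨h1, j, hj, hds⟩ := hsf d hd
    have h2 := spl_sub_ine Q d (sf d) j (fund_mod (hB d hd).1) hj hds t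
    have h3 := hlow d hd
    linarith
  have hmain := h t ((le_max_left _ _).trans g2) Q (t ^ (-(c / 3))) (by positivity) hcond (B.image sf) (by
    intro s hs
    obtain ⟨d, hd, rfl⟩ := mem_image.mp hs
    refine ⟨(hsf d hd).1, ?_⟩
    have h1 := hF d hd
    have h2 := (hB d hd).2
    linarith) hSp
  rw [sum_image hinj] at hmain
  have hev : ∀ x : ℝ, x ^ (2 * k) = |x| ^ (2 * k) := fun x => ((even_two_mul k).pow_abs x).symm
  have hT2 : (0 : ℝ) < (tot Q t : ℝ) ^ (2 * k) := by positivity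
  calc ∑ d ∈ B, (((spl Q d t : ℝ) - ine Q d t) / tot Q t) ^ (2 * k) ≤
        ∑ d ∈ B, 4 ^ k * ((∑ p ∈ PO Q t, jacobiSym (sf d) p : ℤ) : ℝ) ^ (2 * k) / (tot Q t : ℝ) ^ (2 * k) := by
        refine sum_le_sum fun d hd => ?_
        rw [div_pow]
        apply div_le_div_of_nonneg_right _ hT2.le
        rw [hev, hev ((∑ p ∈ PO Q t, jacobiSym (sf d) p : ℤ) : ℝ)]
        calc |(spl Q d t : ℝ) - ine Q d t| ^ (2 * k) ≤ (2 * |((∑ p ∈ PO Q t, jacobiSym (sf d) p : ℤ) : ℝ)|) ^ (2 * k) :=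
              pow_le_pow_left₀ (abs_nonneg _) (hF d hd) _
          _ = 4 ^ k * |((∑ p ∈ PO Q t, jacobiSym (sf d) p : ℤ) : ℝ)| ^ (2 * k) := by
              rw [mul_pow, pow_mul 2 2 k]
              norm_num
    _ = 4 ^ k * (∑ d ∈ B, ((∑ p ∈ PO Q t, jacobiSym (sf d) p : ℤ) : ℝ) ^ (2 * k)) / (tot Q t : ℝ) ^ (2 * k) := by
        rw [mul_sum, sum_div]
    _ ≤ 4 ^ k * (C * (t * tot Q t) ^ k / Real.log t) / (tot Q t : ℝ) ^ (2 * k) := by
        apply div_le_div_of_nonneg_right _ hT2.le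
        exact mul_le_mul_of_nonneg_left hmain (by positivity)
    _ = _ := by
        rw [mul_pow, div_pow, two_mul, pow_add]
        field_simp

end Pool.Agent.D0H64.BT
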