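import Pool.Agent.D0H64.BT.Pa

set_option autoImplicit false
set_option maxHeartbeats 4000000

/-! The threshold of the question. -/

namespace Pool.Agent.D0H64.BT

open Finset Filter

/-- the threshold of the question -/
noncomputable def thr (d : ℤ) : ℝ := Real.log |(d : ℝ)| ^ 2 * Real.log (Real.log |(d : ℝ)|) ^ 2

/-- Chebyshev -/
lemma tot_ge : ∃ t₀ : ℝ, ∀ t : ℝ, t₀ ≤ t → t / (4 * Real.log t) ≤ tot Set.univ t := by
  classical
  have f1 : ∀ᶠ x : ℝ in atTop, Real.log x ≤ 1 / 16 * x := by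
    have h1 := (Real.isLittleO_log_id_atTop).def (show (0 : ℝ) < 1 / 16 by norm_num)
    filter_upwards [h1, eventually_ge_atTop 1] with x hx hx1
    have h3 : 0 ≤ Real.log x := Real.log_nonneg hx1
    rw [Real.norm_eq_abs, Real.norm_eq_abs, abs_of_nonneg h3, id, abs_of_nonneg (by linarith)] at hx
    exact hx
  obtain ⟨t₁, ht₁⟩ := eventually_atTop.mp (f1.and (eventually_ge_atTop 16))
  refine ⟨t₁, fun t ht => ?_⟩
  obtain ⟨g1, g2⟩ := ht₁ t ht
  have ht0 : 0 < t := by linarith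
  have hlt : 0 < Real.log t := Real.log_pos (by linarith)
  set y : ℕ := ⌈t⌉₊ - 1 with hy
  have hc : 2 ≤ ⌈t⌉₊ := by
    have h1 : t ≤ ⌈t⌉₊ := Nat.le_ceil t
    have h2 : (16 : ℝ) ≤ ⌈t⌉₊ := g2.trans h1
    have h3 : 16 ≤ ⌈t⌉₊ := by exact_mod_cast h2
    omega
  have hyt : (y : ℝ) < t := by
    rw [← Nat.lt_ceil, hy]
    omega
  have hyt2 : t ≤ y + 1 := by
    have h1 : t ≤ ⌈t⌉₊ := Nat.le_ceil t
    have h2 : ((⌈t⌉₊ : ℕ) : ℝ) = y + 1 := by
      rw [hy]
      push_cast [Nat.cast_sub (show 1 ≤ ⌈t⌉₊ by omega)]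
      ring
    linarith
  have h1 : (y : ℝ) * Real.log 2 - Real.log (y + 1) ≤ Nat.primeCounting y * Real.log y :=
    (Chebyshev.psi_ge y).trans (Chebyshev.psi_le_primeCounting_mul_log y)
  have h2 : (Nat.primeCounting y : ℝ) = tot Set.univ t := by
    rw [tot_eq, Nat.primeCounting, Nat.primeCounting', Nat.count_eq_card_filter_range]
    congr 2
    ext p
    rw [mem_PT, mem_filter, mem_range, ← Nat.lt_ceil]
    have : p < y + 1 ↔ p < ⌈t⌉₊ := by omega
    rw [this]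
    simp only [Set.mem_univ, true_and]
    tauto
  rw [h2] at h1
  have hl2 := Real.log_two_gt_d9
  have hy15 : 15 ≤ (y : ℝ) := by linarith
  have h3 : Real.log (y + 1) ≤ Real.log t + 1 := by
    have h4 : (y : ℝ) + 1 ≤ 2 * t := by linarith
    have h5 : Real.log (y + 1) ≤ Real.log (2 * t) := Real.log_le_log (by linarith) h4
    rw [Real.log_mul (by norm_num) ht0.ne'] at h5
    have := Real.log_two_lt_d9
    linarith
  have h4 : Real.log y ≤ Real.log t := Real.log_le_log (by linarith) hyt.le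
  have h5 : (0 : ℝ) ≤ tot Set.univ t := Nat.cast_nonneg _
  rw [div_le_iff₀ (by positivity)]
  have h6 : (tot Set.univ t : ℝ) * Real.log y ≤ tot Set.univ t * Real.log t := mul_le_mul_of_nonneg_left h4 h5
  nlinarith

lemma near_le {R : ℝ} {d e : ℤ} (hd : Fund d) (he : Fund e) (h : Near R d e) : |(e : ℝ)| ≤ 4 * R * |(d : ℝ)| := by
  obtain ⟨n, hn0, hnR, hsq⟩ := h
  obtain ⟨s, j, hs, hj, hds, _⟩ := fund_sf hd
  obtain ⟨s', j', hs', hj', hds', _⟩ := fund_sf he
  have hj0 : j * j' ≠ 0 := by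
    apply mul_ne_zero
    · rcases hj with h | h <;> rw [h] <;> norm_num
    · rcases hj' with h | h <;> rw [h] <;> norm_num
  have h1 : IsSquare (s' * (s * n)) := by
    apply sq_cancel hj0
    have : (j * j') ^ 2 * (s' * (s * n)) = d * e * n := by rw [hds, hds']; ring
    rw [this]
    exact hsq
  have h2 : s' ∣ s * n := sf_dvd hs' h1
  have h3 : |s'| ≤ |s * n| := by
    rw [Int.abs_eq_natAbs, Int.abs_eq_natAbs]
    exact_mod_cast Nat.le_of_dvd (Int.natAbs_pos.mpr (mul_ne_zero hs.ne_zero hn0)) (Int.natAbs_dvd_natAbs.mpr h2)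
  have h4 : |(s' : ℝ)| ≤ |(s : ℝ)| * |(n : ℝ)| := by
    rw [← abs_mul]
    exact_mod_cast h3
  have h5 : |(s : ℝ)| ≤ |(d : ℝ)| := by
    rw [hds]
    push_cast
    rw [abs_mul, abs_pow]
    have : (1 : ℝ) ≤ |(j : ℝ)| ^ 2 := by
      rcases hj with h | h <;> rw [h] <;> norm_num
    nlinarith [abs_nonneg (s : ℝ)]
  have h6 : |(e : ℝ)| ≤ 4 * |(s' : ℝ)| := by
    rw [hds']
    push_cast
    rw [abs_mul, abs_pow]
    have : |(j' : ℝ)| ^ 2 ≤ 4 := by
      rcases hj' with h | h <;> rw [h] <;> norm_num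
    nlinarith [abs_nonneg (s' : ℝ)]
  calc |(e : ℝ)| ≤ 4 * |(s' : ℝ)| := h6
    _ ≤ 4 * (|(s : ℝ)| * |(n : ℝ)|) := by linarith
    _ ≤ 4 * (|(d : ℝ)| * R) := by gcongr
    _ = _ := by ring

lemma near_symm {R : ℝ} {d e : ℤ} (h : Near R d e) : Near R e d := by
  obtain ⟨n, hn0, hnR, hsq⟩ := h
  exact ⟨n, hn0, hnR, by rwa [mul_comm e d]⟩

/-- sums over the primes below two thresholds -/
lemma between (Q : Set ℕ) (f : ℕ → ℤ) (hf : ∀ p, |(f p : ℝ)| ≤ 1) (t t' : ℝ) (ht : 0 ≤ t) (ht' : 0 ≤ t') :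
    |((∑ p ∈ PO Q t, f p : ℤ) : ℝ) - ((∑ p ∈ PO Q t', f p : ℤ) : ℝ)| ≤ |t - t'| + 1 := by
  classical
  wlog htt : t ≤ t' generalizing t t'
  · rw [abs_sub_comm, abs_sub_comm t t']
    exact this t' t ht' ht (not_le.mp htt).le
  have hsub : PO Q t ⊆ PO Q t' := by
    intro p hp
    unfold PO at hp ⊢
    rw [mem_filter, mem_PT] at hp ⊢
    exact ⟨⟨hp.1.1, hp.1.2.1, hp.1.2.2.trans_le htt⟩, hp.2⟩
  have h1 : ∑ p ∈ PO Q t', f p = ∑ p ∈ PO Q t' \ PO Q t, f p + ∑ p ∈ PO Q t, f p := (sum_sdiff hsub).symm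
  rw [h1]
  push_cast
  have h2 : ∑ p ∈ PO Q t, (f p : ℝ) - (∑ p ∈ PO Q t' \ PO Q t, (f p : ℝ) + ∑ p ∈ PO Q t, (f p : ℝ)) = - ∑ p ∈ PO Q t' \ PO Q t, (f p : ℝ) := by ring
  rw [h2, abs_neg]
  refine (abs_sum_le_sum_abs _ _).trans ?_
  calc ∑ p ∈ PO Q t' \ PO Q t, |(f p : ℝ)| ≤ ∑ _p ∈ PO Q t' \ PO Q t, (1 : ℝ) := sum_le_sum fun p _ => hf p
    _ = ((PO Q t' \ PO Q t).card : ℝ) := by simp
    _ ≤ ((Ico ⌈t⌉₊ ⌈t'⌉₊).card : ℝ) := by
        have : PO Q t' \ PO Q t ⊆ Ico ⌈t⌉₊ ⌈t'⌉₊ := by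
          intro p hp
          unfold PO at hp
          rw [Finset.mem_sdiff, mem_filter, mem_filter, mem_PT, mem_PT] at hp
          rw [mem_Ico, Nat.lt_ceil]
          refine ⟨?_, hp.1.1.2.2⟩
          rw [Nat.ceil_le]
          by_contra hcon
          exact hp.2 ⟨⟨hp.1.1.1, hp.1.1.2.1, not_le.mp hcon⟩, hp.1.2⟩
        exact_mod_cast card_le_card this
    _ = (⌈t'⌉₊ : ℝ) - ⌈t⌉₊ := by
        rw [Nat.card_Ico, Nat.cast_sub (Nat.ceil_le_ceil htt)]
    _ ≤ |t - t'| + 1 := by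
        have h3 : (⌈t'⌉₊ : ℝ) < t' + 1 := Nat.ceil_lt_add_one ht'
        have h4 : t ≤ ⌈t⌉₊ := Nat.le_ceil t
        rw [abs_of_nonpos (by linarith)]
        linarith

lemma tot_between (Q : Set ℕ) (t t' : ℝ) (ht : 0 ≤ t) (ht' : 0 ≤ t') :
    |(tot Q t : ℝ) - tot Q t'| ≤ |t - t'| + 1 := by
  classical
  wlog htt : t ≤ t' generalizing t t'
  · rw [abs_sub_comm, abs_sub_comm t t']
    exact this t' t ht' ht (not_le.mp htt).le
  have hsub : PT Q t ⊆ PT Q t' := by
    intro p hp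
    rw [mem_PT] at hp ⊢
    exact ⟨hp.1, hp.2.1, hp.2.2.trans_le htt⟩
  have h1 : (PT Q t').card = (PT Q t' \ PT Q t).card + (PT Q t).card := by
    rw [card_sdiff_of_subset hsub]
    have := card_le_card hsub
    omega
  rw [tot_eq, tot_eq, h1]
  push_cast
  have h2 : ((PT Q t).card : ℝ) - ((PT Q t' \ PT Q t).card + (PT Q t).card) = - ((PT Q t' \ PT Q t).card : ℝ) := by ring
  rw [h2, abs_neg, abs_of_nonneg (Nat.cast_nonneg _)]
  calc ((PT Q t' \ PT Q t).card : ℝ) ≤ ((Ico ⌈t⌉₊ ⌈t'⌉₊).card : ℝ) := by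
        have : PT Q t' \ PT Q t ⊆ Ico ⌈t⌉₊ ⌈t'⌉₊ := by
          intro p hp
          rw [Finset.mem_sdiff, mem_PT, mem_PT] at hp
          rw [mem_Ico, Nat.lt_ceil]
          refine ⟨?_, hp.1.2.2⟩
          rw [Nat.ceil_le]
          by_contra hcon
          exact hp.2 ⟨hp.1.1, hp.1.2.1, not_le.mp hcon⟩
        exact_mod_cast card_le_card this
    _ = (⌈t'⌉₊ : ℝ) - ⌈t⌉₊ := by
        rw [Nat.card_Ico, Nat.cast_sub (Nat.ceil_le_ceil htt)]
    _ ≤ |t - t'| + 1 := by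
        have h3 : (⌈t'⌉₊ : ℝ) < t' + 1 := Nat.ceil_lt_add_one ht'
        have h4 : t ≤ ⌈t⌉₊ := Nat.le_ceil t
        rw [abs_of_nonpos (by linarith)]
        linarith

/-- `x log x` for neighbouring `x` -/
lemma xlog_close {L M u : ℝ} (hL : 1 ≤ L) (hLM : L ≤ M) (hu : M - L ≤ u) :
    M * Real.log M - L * Real.log L ≤ u * (Real.log M + 1) := by
  have hM1 : 1 ≤ M := hL.trans hLM
  have h1 : Real.log M - Real.log L ≤ (M - L) / L := by
    rw [← Real.log_div (by linarith) (by linarith)]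
    have := Real.log_le_sub_one_of_pos (x := M / L) (by positivity)
    calc Real.log (M / L) ≤ M / L - 1 := this
      _ = (M - L) / L := by field_simp
  have h2 : L * (Real.log M - Real.log L) ≤ M - L := by
    calc L * (Real.log M - Real.log L) ≤ L * ((M - L) / L) := mul_le_mul_of_nonneg_left h1 (by linarith)
      _ = M - L := by field_simp
  have h3 : 0 ≤ Real.log M := Real.log_nonneg hM1
  nlinarith

lemma thr_close (A : ℝ) : ∃ L₀ : ℝ, ∀ L : ℝ, L₀ ≤ L → ∀ M : ℝ, |M - L| ≤ 2 + A * Real.log L →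
    |M ^ 2 * Real.log M ^ 2 - L ^ 2 * Real.log L ^ 2| ≤ L ^ (5 / 4 : ℝ) ∧ L / 2 ≤ M ∧ M ≤ 2 * L := by
  wlog hA : 0 ≤ A generalizing A
  · obtain ⟨L₀, h⟩ := this 0 le_rfl
    refine ⟨max L₀ 1, fun L hL M hM => h L ((le_max_left _ _).trans hL) M (hM.trans ?_)⟩
    have : 0 ≤ Real.log L := Real.log_nonneg ((le_max_right _ _).trans hL)
    nlinarith
  have f1 : ∀ᶠ x : ℝ in atTop, 2 + A * Real.log x ≤ x / 2 := by
    have h1 := (Real.isLittleO_log_id_atTop).def (show (0 : ℝ) < 1 / (4 * (A + 1)) by positivity)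
    filter_upwards [h1, eventually_ge_atTop 8] with x hx hx1
    have h3 : 0 ≤ Real.log x := Real.log_nonneg (by linarith)
    rw [Real.norm_eq_abs, Real.norm_eq_abs, abs_of_nonneg h3, id, abs_of_nonneg (by linarith)] at hx
    have h4 : A * Real.log x ≤ x / 4 := by
      calc A * Real.log x ≤ (A + 1) * Real.log x := by nlinarith
        _ ≤ (A + 1) * (1 / (4 * (A + 1)) * x) := mul_le_mul_of_nonneg_left hx (by linarith)
        _ = x / 4 := by field_simp
    linarith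
  have f2 : ∀ᶠ x : ℝ in atTop, Real.log x ≤ x ^ (1 / 16 : ℝ) := by
    have h1 := (isLittleO_log_rpow_atTop (show (0 : ℝ) < 1 / 16 by norm_num)).def (show (0 : ℝ) < 1 by norm_num)
    filter_upwards [h1, eventually_ge_atTop 1] with x hx hx1
    have h3 : 0 ≤ Real.log x := Real.log_nonneg hx1
    rw [Real.norm_eq_abs, Real.norm_eq_abs, abs_of_nonneg h3, abs_of_nonneg (by positivity), one_mul] at hx
    exact hx
  have f3 : ∀ᶠ x : ℝ in atTop, (A + 2) * 3 * 8 ≤ x ^ (1 / 16 : ℝ) :=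
    (tendsto_rpow_atTop (by norm_num : (0 : ℝ) < 1 / 16)).eventually_ge_atTop _
  have f4 : ∀ᶠ x : ℝ in atTop, 2 ≤ Real.log x := Real.tendsto_log_atTop.eventually (eventually_ge_atTop 2)
  obtain ⟨L₀, hL₀⟩ := eventually_atTop.mp (f1.and (f2.and (f3.and (f4.and (eventually_ge_atTop 4)))))
  refine ⟨L₀, fun L hL M hM => ?_⟩
  obtain ⟨g1, g2, g3, g4, g5⟩ := hL₀ L hL
  have hL0 : 0 < L := by linarith
  have hu := hM.trans g1
  have hM1 : L / 2 ≤ M := by linarith [(abs_le.mp hu).1]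
  have hM2 : M ≤ 2 * L := by linarith [(abs_le.mp hu).2]
  refine ⟨?_, hM1, hM2⟩
  have hM0 : 1 ≤ M := by linarith
  have hl2 : Real.log (2 * L) ≤ 2 * Real.log L := by
    rw [Real.log_mul (by norm_num) hL0.ne']
    have := Real.log_two_lt_d9
    linarith
  have hlM : Real.log M ≤ 2 * Real.log L := (Real.log_le_log (by linarith) hM2).trans hl2
  have hlM0 : 0 ≤ Real.log M := Real.log_nonneg hM0
  have hlL0 : 0 ≤ Real.log L := by linarith
  set u := 2 + A * Real.log L with hu'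
  have hu0 : 0 ≤ u := (abs_nonneg _).trans hM
  have h1 : |M * Real.log M - L * Real.log L| ≤ u * (2 * Real.log L + 1) := by
    rcases le_total L M with h | h
    · have h2 := xlog_close (u := u) (by linarith) h ((le_abs_self _).trans hM)
      have h3 : 0 ≤ M * Real.log M - L * Real.log L := by
        have : Real.log L ≤ Real.log M := Real.log_le_log hL0 h
        nlinarith
      rw [abs_of_nonneg h3]
      refine h2.trans ?_
      apply mul_le_mul_of_nonneg_left _ hu0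
      linarith
    · have h2 := xlog_close (u := u) hM0 h (by linarith [neg_abs_le (M - L)])
      have h3 : M * Real.log M - L * Real.log L ≤ 0 := by
        have : Real.log M ≤ Real.log L := Real.log_le_log (by linarith) h
        nlinarith
      rw [abs_of_nonpos h3]
      have h4 : u * (Real.log L + 1) ≤ u * (2 * Real.log L + 1) := by
        apply mul_le_mul_of_nonneg_left _ hu0
        linarith
      linarith
  have h2 : |M * Real.log M + L * Real.log L| ≤ 5 * L * Real.log L := by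
    rw [abs_of_nonneg (by positivity)]
    have : M * Real.log M ≤ (2 * L) * (2 * Real.log L) := mul_le_mul hM2 hlM hlM0 (by linarith)
    linarith
  have h3 : M ^ 2 * Real.log M ^ 2 - L ^ 2 * Real.log L ^ 2 = (M * Real.log M - L * Real.log L) * (M * Real.log M + L * Real.log L) := by ring
  rw [h3, abs_mul]
  have hu2 : u ≤ (A + 2) * Real.log L := by
    rw [hu']
    nlinarith
  calc |M * Real.log M - L * Real.log L| * |M * Real.log M + L * Real.log L| ≤
        (u * (2 * Real.log L + 1)) * (5 * L * Real.log L) := mul_le_mul h1 h2 (abs_nonneg _) (by positivity)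
    _ ≤ (((A + 2) * Real.log L) * (3 * Real.log L)) * (8 * L * Real.log L) := by
        have e1 : u * (2 * Real.log L + 1) ≤ ((A + 2) * Real.log L) * (3 * Real.log L) := by
          apply mul_le_mul hu2 (by linarith) (by linarith) (by positivity)
        have e2 : 5 * L * Real.log L ≤ 8 * L * Real.log L := by nlinarith
        exact mul_le_mul e1 e2 (by positivity) (by positivity)
    _ = ((A + 2) * 3 * 8) * Real.log L ^ 3 * L := by ring
    _ ≤ L ^ (1 / 16 : ℝ) * (L ^ (1 / 16 : ℝ)) ^ 3 * L := by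
        have e1 : Real.log L ^ 3 ≤ (L ^ (1 / 16 : ℝ)) ^ 3 := pow_le_pow_left₀ hlL0 g2 3
        have e2 : ((A + 2) * 3 * 8) * Real.log L ^ 3 ≤ L ^ (1 / 16 : ℝ) * (L ^ (1 / 16 : ℝ)) ^ 3 :=
          mul_le_mul g3 e1 (by positivity) (by positivity)
        exact mul_le_mul_of_nonneg_right e2 hL0.le
    _ = L ^ (5 / 4 : ℝ) := by
        rw [← Real.rpow_natCast (L ^ (1 / 16 : ℝ)), ← Real.rpow_mul hL0.le, ← Real.rpow_add hL0]
        nth_rewrite 2 [← Real.rpow_one L]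
        rw [← Real.rpow_add hL0]
        norm_num

end Pool.Agent.D0H64.BT
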