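import Pool.Agent.D0H64.BT.Pb
import Pool.Agent.N792.SwR

set_option autoImplicit false
set_option maxHeartbeats 4000000

/-! Sums of symbols over primes for small conductors (Siegel and Walfisz), and Bessel's inequality. -/

namespace Pool.Agent.D0H64.BT

open Finset Filter Pool.Agent.H471R4.BW Pool.Agent.R852.BC

/-- the sum of a character over primes -/
lemma char_primes (q y : ℕ) [NeZero q] (χ : DirichletCharacter ℂ q) (hχ : χ ≠ 1) (E : ℝ) (hE : 0 ≤ E)
    (h : ∀ c : ℕ, c < q → c.Coprime q → |H343E.piAP y q c - H343E.pi1 y / (Nat.totient q : ℝ)| ≤ E) :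
    ‖∑ p ∈ (Icc 1 y).filter Nat.Prime, χ (p : ZMod q)‖ ≤ q * E := by
  have hq : 0 < q := Nat.pos_of_ne_zero (NeZero.ne q)
  have e1 : ∑ p ∈ (Icc 1 y).filter Nat.Prime, χ (p : ZMod q) =
      ∑ c ∈ range q, χ (c : ZMod q) * ((H343E.piAP y q c : ℝ) : ℂ) := by
    rw [← sum_fiberwise_of_maps_to (s := (Icc 1 y).filter Nat.Prime) (t := range q) (g := fun p => p % q)
      (fun p _ => mem_range.mpr (Nat.mod_lt p hq))]
    refine sum_congr rfl fun c hc => ?_
    rw [mem_range] at hc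
    have e2 : ((Icc 1 y).filter Nat.Prime).filter (fun p => p % q = c) = (Icc 1 y).filter (fun p => p.Prime ∧ p ≡ c [MOD q]) := by
      ext p
      rw [mem_filter, mem_filter, mem_filter]
      have : p ≡ c [MOD q] ↔ p % q = c := by
        unfold Nat.ModEq
        rw [Nat.mod_eq_of_lt hc]
      rw [this]
      tauto
    rw [e2]
    unfold H343E.piAP
    have e3 : ∑ p ∈ (Icc 1 y).filter (fun p => p.Prime ∧ p ≡ c [MOD q]), χ (p : ZMod q) =
        ∑ _p ∈ (Icc 1 y).filter (fun p => p.Prime ∧ p ≡ c [MOD q]), χ (c : ZMod q) := by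
      refine sum_congr rfl fun p hp => ?_
      rw [mem_filter] at hp
      rw [(ZMod.natCast_eq_natCast_iff p c q).mpr hp.2.2]
    rw [e3, sum_const, nsmul_eq_mul, mul_comm]
    push_cast
    rfl
  have e2 : ∑ c ∈ range q, χ (c : ZMod q) = 0 := by
    have h1 := MulChar.sum_eq_zero_of_ne_one hχ
    rw [← h1]
    symm
    apply sum_bij (fun (a : ZMod q) _ => a.val)
    · intro a _
      exact mem_range.mpr (ZMod.val_lt a)
    · intro a _ b _ hab
      exact ZMod.val_injective q hab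
    · intro c hc
      rw [mem_range] at hc
      exact ⟨(c : ZMod q), mem_univ _, ZMod.val_cast_of_lt hc⟩
    · intro a _
      rw [ZMod.natCast_zmod_val]
  have e3 : ∑ p ∈ (Icc 1 y).filter Nat.Prime, χ (p : ZMod q) =
      ∑ c ∈ range q, χ (c : ZMod q) * ((H343E.piAP y q c - H343E.pi1 y / (Nat.totient q : ℝ) : ℝ) : ℂ) := by
    rw [e1]
    have h1 : ∑ c ∈ range q, χ (c : ZMod q) * ((H343E.piAP y q c - H343E.pi1 y / (Nat.totient q : ℝ) : ℝ) : ℂ) =
        ∑ c ∈ range q, χ (c : ZMod q) * ((H343E.piAP y q c : ℝ) : ℂ) -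
          (∑ c ∈ range q, χ (c : ZMod q)) * ((H343E.pi1 y / (Nat.totient q : ℝ) : ℝ) : ℂ) := by
      rw [sum_mul, ← sum_sub_distrib]
      refine sum_congr rfl fun c _ => ?_
      push_cast
      ring
    rw [h1, e2, zero_mul, sub_zero]
  rw [e3]
  refine (norm_sum_le _ _).trans ?_
  calc ∑ c ∈ range q, ‖χ (c : ZMod q) * ((H343E.piAP y q c - H343E.pi1 y / (Nat.totient q : ℝ) : ℝ) : ℂ)‖ ≤
        ∑ _c ∈ range q, E := by
        refine sum_le_sum fun c hc => ?_
        rw [mem_range] at hc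
        rw [norm_mul]
        by_cases hcq : c.Coprime q
        · have h1 := DirichletCharacter.norm_le_one χ (c : ZMod q)
          have h2 : ‖((H343E.piAP y q c - H343E.pi1 y / (Nat.totient q : ℝ) : ℝ) : ℂ)‖ ≤ E := by
            rw [Complex.norm_real]
            exact h c hc hcq
          calc _ ≤ 1 * E := mul_le_mul h1 h2 (norm_nonneg _) zero_le_one
            _ = E := one_mul E
        · have h1 : χ (c : ZMod q) = 0 := by
            apply MulChar.map_nonunit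
            rw [ZMod.isUnit_iff_coprime]
            exact hcq
          rw [h1, norm_zero, zero_mul]
          exact hE
    _ = q * E := by rw [sum_const, card_range, nsmul_eq_mul]

lemma PO_univ (t : ℝ) (ht : 1 < t) : PO Set.univ t = ((Icc 1 (⌈t⌉₊ - 1)).filter Nat.Prime).filter (fun p => p ≠ 2) := by
  classical
  unfold PO
  ext p
  rw [mem_filter, mem_filter, mem_filter, mem_PT, mem_Icc]
  have hc : 2 ≤ ⌈t⌉₊ := by
    have : 1 < ⌈t⌉₊ := by
      rw [Nat.lt_ceil]
      exact_mod_cast ht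
    omega
  constructor
  · rintro ⟨⟨h1, h2, h3⟩, h4⟩
    rw [← Nat.lt_ceil] at h3
    exact ⟨⟨⟨h1.one_le, by omega⟩, h1⟩, h4⟩
  · rintro ⟨⟨⟨h1, h2⟩, h3⟩, h4⟩
    refine ⟨⟨h3, Set.mem_univ _, ?_⟩, h4⟩
    rw [← Nat.lt_ceil]
    omega

lemma log_nat_floor {t : ℝ} (ht : 4 ≤ t) (y : ℕ) (hy : t ≤ y + 1) : Real.log t / 2 ≤ Real.log y := by
  have ht0 : 0 < t := by linarith
  have h1 : Real.log t / 2 = Real.log (t ^ (1 / 2 : ℝ)) := by
    rw [Real.log_rpow ht0]
    ring
  rw [h1]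
  apply Real.log_le_log (by positivity)
  have h2 : t = t ^ (1 / 2 : ℝ) * t ^ (1 / 2 : ℝ) := by
    rw [← Real.rpow_add ht0]
    norm_num
  have h3 : (2 : ℝ) ≤ t ^ (1 / 2 : ℝ) := by
    calc (2 : ℝ) = 4 ^ (1 / 2 : ℝ) := by
          rw [show (4 : ℝ) = 2 ^ (2 : ℝ) by norm_num, ← Real.rpow_mul (by norm_num)]
          norm_num
      _ ≤ _ := Real.rpow_le_rpow (by norm_num) ht (by norm_num)
  nlinarith

/-- Siegel and Walfisz for the symbols -/
theorem sw_sum (A U : ℕ) : ∃ t₀ : ℝ, ∀ t : ℝ, t₀ ≤ t → ∀ r : ℤ, Squarefree r → r ≠ 1 → |(r : ℝ)| ≤ Real.log t ^ A →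
    |((∑ p ∈ PO Set.univ t, jacobiSym r p : ℤ) : ℝ)| ≤ t / Real.log t ^ U := by
  classical
  obtain ⟨y₀, hy₀⟩ := Pool.Agent.N792.SwR.sw_pi (U + A + 2) (A + 1)
  have f1 : ∀ᶠ x : ℝ in atTop, (8 : ℝ) * 2 ^ (U + A + 2) ≤ Real.log x :=
    Real.tendsto_log_atTop.eventually (eventually_ge_atTop _)
  obtain ⟨t₁, ht₁⟩ := eventually_atTop.mp (f1.and (eventually_ge_atTop (max 4 ((y₀ : ℝ) + 1))))
  refine ⟨t₁, fun t ht r hr hr1 hrt => ?_⟩
  obtain ⟨g1, g2⟩ := ht₁ t ht
  have ht4 : 4 ≤ t := (le_max_left _ _).trans g2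
  have hty : (y₀ : ℝ) + 1 ≤ t := (le_max_right _ _).trans g2
  have ht0 : 0 < t := by linarith
  set y : ℕ := ⌈t⌉₊ - 1 with hy
  have hc : 2 ≤ ⌈t⌉₊ := by
    have : 1 < ⌈t⌉₊ := by
      rw [Nat.lt_ceil]
      norm_num
      linarith
    omega
  have hyt : (y : ℝ) < t := by
    rw [← Nat.lt_ceil, hy]
    omega
  have hyt2 : t ≤ y + 1 := by
    have h1 : t ≤ ⌈t⌉₊ := Nat.le_ceil t
    have h2 : ((⌈t⌉₊ : ℕ) : ℝ) = y + 1 := by
      rw [hy]
      push_cast [Nat.cast_sub (show 1 ≤ ⌈t⌉₊ by omega)]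
      ring
    linarith
  have hy0 : y₀ ≤ y := by
    have : (y₀ : ℝ) ≤ y := by linarith
    exact_mod_cast this
  have hly := log_nat_floor ht4 y hyt2
  have hpow1 : (1 : ℝ) ≤ 2 ^ (U + A + 2) := one_le_pow₀ (by norm_num)
  have hlt8 : 8 ≤ Real.log t := by nlinarith
  have hlt : 0 < Real.log t := by linarith
  have hly0 : 0 < Real.log y := by linarith
  obtain ⟨M, θ, hM0, hMo, hMsq, hMr, hMθ, hMe⟩ := exists_th r hr hr1
  have : NeZero M := ⟨hM0⟩
  have : NeZero (8 * M) := ⟨by omega⟩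
  have hMle : (M : ℝ) ≤ |(r : ℝ)| := by
    have h1 : M ≤ r.natAbs := Nat.le_of_dvd (Int.natAbs_pos.mpr hr.ne_zero) hMr
    have h2 : ((r.natAbs : ℕ) : ℝ) = |(r : ℝ)| := by
      rw [Nat.cast_natAbs]
      push_cast
      rfl
    rw [← h2]
    exact_mod_cast h1
  have hq1 : ((8 * M : ℕ) : ℝ) ≤ 8 * Real.log t ^ A := by
    push_cast
    linarith
  have hq2 : ((8 * M : ℕ) : ℝ) ≤ Real.log y ^ (A + 1) := by
    refine hq1.trans ?_
    have h1 : (Real.log t / 2) ^ (A + 1) ≤ Real.log y ^ (A + 1) := pow_le_pow_left₀ (by positivity) hly _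
    refine le_trans ?_ h1
    rw [div_pow, le_div_iff₀ (by positivity), pow_succ (Real.log t)]
    have h2 : (8 : ℝ) * 2 ^ (A + 1) ≤ Real.log t := by
      refine le_trans ?_ g1
      apply mul_le_mul_of_nonneg_left _ (by norm_num)
      exact pow_le_pow_right₀ (by norm_num) (by omega)
    calc 8 * Real.log t ^ A * 2 ^ (A + 1) = Real.log t ^ A * (8 * 2 ^ (A + 1)) := by ring
      _ ≤ Real.log t ^ A * Real.log t := mul_le_mul_of_nonneg_left h2 (by positivity)
  have hsw := hy₀ y hy0 (8 * M) (by omega) hq2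
  have hE0 : 0 ≤ (y : ℝ) / Real.log y ^ (U + A + 2) := by positivity
  have h1 := char_primes (8 * M) y (chi 8 M (psi θ)) (chi_ne_one M hMo hMsq θ hMθ) _ hE0 hsw
  have h2 : ∑ p ∈ (Icc 1 y).filter Nat.Prime, chi 8 M (psi θ) (p : ZMod (8 * M)) =
      ((∑ p ∈ PO Set.univ t, jacobiSym r p : ℤ) : ℂ) := by
    rw [PO_univ t (by linarith), ← hy, sum_filter (fun p => p ≠ 2), Int.cast_sum]
    refine sum_congr rfl fun p hp => ?_
    rw [mem_filter] at hp
    rw [chi_nat, psi_apply, jchar_apply]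
    by_cases hp2 : p = 2
    · rw [if_neg (not_not.mpr hp2)]
      have hu : ¬ IsUnit ((p : ℕ) : ZMod 8) := by
        rw [hp2]
        decide
      rw [MulChar.map_nonunit _ hu]
      push_cast
      ring
    · rw [if_pos hp2, hMe p (hp.2.odd_of_ne_two hp2)]
      push_cast
      ring
  rw [h2, Complex.norm_intCast] at h1
  refine h1.trans ?_
  calc ((8 * M : ℕ) : ℝ) * ((y : ℝ) / Real.log y ^ (U + A + 2)) ≤ (8 * Real.log t ^ A) * (t / (Real.log t / 2) ^ (U + A + 2)) := by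
        apply mul_le_mul hq1 _ hE0 (by positivity)
        exact div_le_div₀ ht0.le hyt.le (by positivity) (pow_le_pow_left₀ (by positivity) hly _)
    _ = t / Real.log t ^ U * ((8 * 2 ^ (U + A + 2)) / Real.log t / Real.log t) := by
        rw [div_pow, pow_add, pow_add]
        field_simp
    _ ≤ t / Real.log t ^ U * 1 := by
        apply mul_le_mul_of_nonneg_left _ (by positivity)
        rw [div_le_one hlt]
        calc 8 * 2 ^ (U + A + 2) / Real.log t ≤ 1 := by
              rw [div_le_one hlt]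
              exact g1
          _ ≤ Real.log t := by linarith
    _ = _ := mul_one _

end Pool.Agent.D0H64.BT
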